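import Mathlib

/-!
The machine model for the fast `F_2`-OMV algorithm: straight-line word programs whose
instructions are XOR of two earlier words and one table look-up with a `w`-bit address.
-/

namespace Pool.Agent.OMV

/-- A machine word of `w` bits (an element of `F_2^w`). -/
abbrev Word (w : ℕ) := Fin w → ZMod 2

/-- An instruction appends one register.  `xor i j` appends the XOR of registers `i` and `j`;
`look k i` appends the entry of table `k` whose address is the content of register `i`. -/
inductive Instr where
  | xor (i j : ℕ) : Instr
  | look (k i : ℕ) : Instr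

/-- One step: append the value computed by the instruction (registers and tables out of range
read as the zero word). -/
def step {w S : ℕ} (tab : Fin S → Word w → Word w) (R : List (Word w)) :
    Instr → List (Word w)
  | .xor i j => R ++ [R.getD i 0 + R.getD j 0]
  | .look k i => R ++ [if h : k < S then tab ⟨k, h⟩ (R.getD i 0) else 0]

/-- Run a straight-line program on an initial list of registers. -/
def run {w S : ℕ} (tab : Fin S → Word w → Word w) (R : List (Word w)) (P : List Instr) :
    List (Word w) :=
  P.foldl (step tab) R

/-- The input vector packed into `⌈n/w⌉` words: bit `b` of word `k` is `x (k*w+b)`. -/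
def packed {n : ℕ} (w : ℕ) (x : Fin n → ZMod 2) : List (Word w) :=
  (List.range ((n + w - 1) / w)).map
    (fun k b => if h : k * w + (b : ℕ) < n then x ⟨k * w + b, h⟩ else 0)

/-- The straight-line program `P` (with output registers `out`) computes the product `M x` for
all vectors `x`, when the memory holds the tables `tab`: bit `i % w` of the word in register
`out (i / w)` is coordinate `i` of `M x`. -/
def Computes {n w S : ℕ} (P : List Instr) (out : ℕ → ℕ) (tab : Fin S → Word w → Word w)
    (M : Matrix (Fin n) (Fin n) (ZMod 2)) : Prop :=
  ∀ (x : Fin n → ZMod 2) (i : Fin n) (b : Fin w), (b : ℕ) = (i : ℕ) % w →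
    ((run tab (packed w x) P).getD (out ((i : ℕ) / w)) 0) b = (M.mulVec x) i

/-- An XOR-gadget: `t` one-bit tables, table `c` addressed by `s` fixed linear forms `addr c`
of the `m` column bits, and a fixed linear decoder `dec` such that for EVERY `r × m` matrix the
tables can be filled so that the decoded values are the product. -/
structure XorGadget (r m s t : ℕ) where
  addr : Fin t → (Fin m → ZMod 2) →ₗ[ZMod 2] (Fin s → ZMod 2)
  dec : (Fin t → ZMod 2) →ₗ[ZMod 2] (Fin r → ZMod 2)
  univ : ∀ M : Matrix (Fin r) (Fin m) (ZMod 2), ∃ T : Fin t → (Fin s → ZMod 2) → ZMod 2,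
    ∀ x : Fin m → ZMod 2, dec (fun c => T c (addr c x)) = M.mulVec x

end Pool.Agent.OMV
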