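import Mathlib
import Pool.Agent.Work.MP_0f1f76_lc.Fast.Model

/-!
Module CONV: from a gadget over a finite field of characteristic two to an XOR-gadget over `F_2`.
-/

namespace Pool.Agent.OMV

noncomputable section

/-- Every `F_2`-linear functional on `F` has the form `x ↦ τ (μ x^{2^b})`. -/
theorem exists_mul_functional {F : Type*} [Field F] [Fintype F] [CharP F 2]
    [Algebra (ZMod 2) F] (b : ℕ) (τ : F →ₗ[ZMod 2] ZMod 2) (hτ : τ ≠ 0)
    (f : F →ₗ[ZMod 2] ZMod 2) : ∃ μ : F, ∀ x : F, f x = τ (μ * x ^ 2 ^ b) := by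
  classical
  have : FiniteDimensional (ZMod 2) F := Module.Finite.of_finite
  have : ExpChar F 2 := ExpChar.prime Nat.prime_two
  -- the map `μ ↦ τ (μ ·)`
  let L : F →ₗ[ZMod 2] (F →ₗ[ZMod 2] ZMod 2) :=
    { toFun := fun μ => τ.comp (LinearMap.mulLeft (ZMod 2) μ)
      map_add' := by
        intro a a'
        ext x
        simp [add_mul]
      map_smul' := by
        intro c a
        ext x
        simp }
  have hLinj : Function.Injective L := by
    rw [injective_iff_map_eq_zero]
    intro μ hμ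
    by_contra hne
    apply hτ
    ext y
    have := LinearMap.congr_fun hμ (μ⁻¹ * y)
    simpa [L, mul_inv_cancel_left₀ hne] using this
  have hfin : Module.finrank (ZMod 2) F = Module.finrank (ZMod 2) (F →ₗ[ZMod 2] ZMod 2) :=
    (Subspace.dual_finrank_eq (K := ZMod 2) (V := F)).symm
  have hLsurj : Function.Surjective L :=
    (LinearMap.injective_iff_surjective_of_finrank_eq_finrank hfin).1 hLinj
  -- Frobenius
  have hFr : Function.Bijective (iterateFrobenius F 2 b) := by
    rw [← Finite.injective_iff_bijective]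
    exact (iterateFrobenius F 2 b).injective
  let φ : F →ₗ[ZMod 2] F := (iterateFrobenius F 2 b).toAddMonoidHom.toZModLinearMap 2
  have hφ : ∀ x, φ x = x ^ 2 ^ b := by
    intro x
    simp [φ, iterateFrobenius_def]
  have hφb : Function.Bijective φ := by
    have : (φ : F → F) = iterateFrobenius F 2 b := by
      funext x
      rw [hφ, iterateFrobenius_def]
    rw [this]
    exact hFr
  let E : F ≃ₗ[ZMod 2] F := LinearEquiv.ofBijective φ hφb
  obtain ⟨μ, hμ⟩ := hLsurj (f.comp E.symm.toLinearMap)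
  refine ⟨μ, fun x => ?_⟩
  have h1 := LinearMap.congr_fun hμ (E x)
  have h2 : E x = x ^ 2 ^ b := hφ x
  have h3 : (L μ) (E x) = τ (μ * x ^ 2 ^ b) := by
    simp [L, h2]
  rw [h3] at h1
  rw [h1]
  simp

/-- Packing: `N` elements of `F` as `N * e` bits. -/
def pack {F : Type*} [AddCommGroup F] [Module (ZMod 2) F] {e : ℕ}
    (c : F ≃ₗ[ZMod 2] (Fin e → ZMod 2)) (N : ℕ) :
    (Fin N → F) ≃ₗ[ZMod 2] (Fin (N * e) → ZMod 2) where
  toFun x := fun i => c (x (finProdFinEquiv.symm i).1) (finProdFinEquiv.symm i).2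
  invFun y := fun l => c.symm (fun j => y (finProdFinEquiv (l, j)))
  map_add' x y := by
    funext i
    simp
  map_smul' a x := by
    funext i
    simp
  left_inv x := by
    funext l
    have h : (fun j : Fin e => c (x (finProdFinEquiv.symm (finProdFinEquiv (l, j))).1)
        (finProdFinEquiv.symm (finProdFinEquiv (l, j))).2) = c (x l) := by
      funext j
      rw [Equiv.symm_apply_apply]
    beta_reduce
    rw [h, LinearEquiv.symm_apply_apply]
  right_inv y := by
    funext i
    beta_reduce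
    rw [LinearEquiv.apply_symm_apply, Prod.mk.eta, Equiv.apply_symm_apply]

theorem pack_symm_pack {F : Type*} [AddCommGroup F] [Module (ZMod 2) F] {e : ℕ}
    (c : F ≃ₗ[ZMod 2] (Fin e → ZMod 2)) (N : ℕ) (x : Fin N → F) :
    (pack c N).symm (pack c N x) = x := LinearEquiv.symm_apply_apply _ _

theorem xorGadget_of_field {F : Type*} [Field F] [Fintype F] [CharP F 2] {t r N K b e : ℕ}
    (he : Fintype.card F = 2 ^ e)
    (A : Fin t → (Fin N → F) →ₗ[F] (Fin K → F)) (H : (Fin t → F) →ₗ[F] (Fin r → F))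
    (h : ∀ μ : Fin r → Fin N → F, ∃ T : Fin t → (Fin K → F) → F,
          ∀ x : Fin N → F, H (fun c => T c (A c x)) = fun ρ => ∑ l, μ ρ l * x l ^ 2 ^ b) :
    Nonempty (XorGadget r (N * e) (K * e) (t * e)) := by
  classical
  let _ : Algebra (ZMod 2) F := ZMod.algebra F 2
  have : FiniteDimensional (ZMod 2) F := Module.Finite.of_finite
  have hrank : Module.finrank (ZMod 2) F = e := by
    have h1 := Module.card_eq_pow_finrank (K := ZMod 2) (V := F)
    rw [he, ZMod.card] at h1
    exact (Nat.pow_right_injective le_rfl h1).symm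
  have hrank' : Module.finrank (ZMod 2) F = Module.finrank (ZMod 2) (Fin e → ZMod 2) := by
    rw [hrank]; simp
  let c : F ≃ₗ[ZMod 2] (Fin e → ZMod 2) := LinearEquiv.ofFinrankEq _ _ hrank'
  have he0 : 0 < e := by
    rcases Nat.eq_zero_or_pos e with h0 | h0
    · subst h0
      have : 1 < Fintype.card F := Fintype.one_lt_card
      simp [he] at this
    · exact h0
  let τ : F →ₗ[ZMod 2] ZMod 2 := (LinearMap.proj ⟨0, he0⟩).comp c.toLinearMap
  have hτ : τ ≠ 0 := by
    intro h0
    have h1 := LinearMap.congr_fun h0 (c.symm (fun _ => 1))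
    simp [τ] at h1
  let A' : Fin t → (Fin N → F) →ₗ[ZMod 2] (Fin K → F) := fun k => (A k).restrictScalars (ZMod 2)
  let H' : (Fin t → F) →ₗ[ZMod 2] (Fin r → F) := H.restrictScalars (ZMod 2)
  let τr : (Fin r → F) →ₗ[ZMod 2] (Fin r → ZMod 2) := τ.compLeft (Fin r)
  refine ⟨{
    addr := fun i => (pack c K).toLinearMap.comp
      ((A' (finProdFinEquiv.symm i).1).comp (pack c N).symm.toLinearMap)
    dec := τr.comp (H'.comp (pack c t).symm.toLinearMap)
    univ := ?_ }⟩
  intro M
  have hμ : ∀ (ρ : Fin r) (l : Fin N), ∃ μ : F, ∀ x : F,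
      (∑ j, M ρ (finProdFinEquiv (l, j)) * c x j) = τ (μ * x ^ 2 ^ b) := by
    intro ρ l
    let f : F →ₗ[ZMod 2] ZMod 2 :=
      (∑ j, M ρ (finProdFinEquiv (l, j)) • (LinearMap.proj j : (Fin e → ZMod 2) →ₗ[ZMod 2] ZMod 2)).comp
        c.toLinearMap
    obtain ⟨μ, hμ⟩ := exists_mul_functional b τ hτ f
    refine ⟨μ, fun x => ?_⟩
    rw [← hμ x]
    simp [f]
  choose μ hμ using hμ
  obtain ⟨T, hT⟩ := h μ
  refine ⟨fun i a => c (T (finProdFinEquiv.symm i).1 ((pack c K).symm a))
    (finProdFinEquiv.symm i).2, ?_⟩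
  intro x
  have hx := hT ((pack c N).symm x)
  have hpk : (fun i : Fin (t * e) => c (T (finProdFinEquiv.symm i).1 ((pack c K).symm
      (((pack c K).toLinearMap.comp ((A' (finProdFinEquiv.symm i).1).comp
        (pack c N).symm.toLinearMap)) x))) (finProdFinEquiv.symm i).2)
      = pack c t (fun k => T k (A k ((pack c N).symm x))) := by
    funext i
    have h5 : (pack c K).symm (((pack c K).toLinearMap.comp
        ((A' (finProdFinEquiv.symm i).1).comp (pack c N).symm.toLinearMap)) x) =
        A (finProdFinEquiv.symm i).1 ((pack c N).symm x) := by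
      change (pack c K).symm (pack c K (A (finProdFinEquiv.symm i).1 ((pack c N).symm x))) = _
      rw [pack_symm_pack]
    rw [h5]
    rfl
  rw [hpk]
  have h2 : (τr.comp (H'.comp (pack c t).symm.toLinearMap))
      (pack c t (fun k => T k (A k ((pack c N).symm x)))) =
      τr (H (fun k => T k (A k ((pack c N).symm x)))) := by
    simp [H']
  rw [h2, hx]
  funext ρ
  have h3 : τr (fun ρ => ∑ l, μ ρ l * ((pack c N).symm x) l ^ 2 ^ b) ρ =
      ∑ l, τ (μ ρ l * ((pack c N).symm x) l ^ 2 ^ b) := by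
    simp [τr]
  rw [h3]
  have h4 : ∀ l, τ (μ ρ l * ((pack c N).symm x) l ^ 2 ^ b) =
      ∑ j, M ρ (finProdFinEquiv (l, j)) * x (finProdFinEquiv (l, j)) := by
    intro l
    rw [← hμ ρ l]
    apply Finset.sum_congr rfl
    intro j _
    simp [pack]
  rw [Finset.sum_congr rfl (fun l _ => h4 l)]
  rw [Matrix.mulVec, dotProduct]
  rw [← Finset.sum_product']
  rw [← finProdFinEquiv.sum_comp]
  rfl

end

end Pool.Agent.OMV
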