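import Pool.Agent.Work.MP_0f1f76_lc.Fast.Model

/-!
Availability calculus for straight-line word programs (used in `Program.lean`).
`Cost A B N`: whenever all the functions in `A` are available in registers after the program
`P`, one can append at most `N` instructions so that all the functions in `A ∪ B` are.
-/

namespace Pool.Agent.OMV

theorem step_eq {w S : ℕ} (tab : Fin S → Word w → Word w) (R : List (Word w)) (ins : Instr) :
    ∃ v, step tab R ins = R ++ [v] := by
  cases ins with
  | xor i j => exact ⟨_, rfl⟩
  | look k i => exact ⟨_, rfl⟩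

theorem run_append {w S : ℕ} (tab : Fin S → Word w → Word w) (R : List (Word w))
    (P Q : List Instr) : run tab R (P ++ Q) = run tab (run tab R P) Q := by
  unfold run; rw [List.foldl_append]

theorem run_length {w S : ℕ} (tab : Fin S → Word w → Word w) (P : List Instr) :
    ∀ R : List (Word w), (run tab R P).length = R.length + P.length := by
  induction P with
  | nil => intro R; simp [run]
  | cons a P ih =>
    intro R
    obtain ⟨v, hv⟩ := step_eq tab R a
    have : run tab R (a :: P) = run tab (step tab R a) P := rfl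
    rw [this, ih, hv]; simp; omega

theorem run_getD {w S : ℕ} (tab : Fin S → Word w → Word w) (P : List Instr) :
    ∀ (R : List (Word w)) (i : ℕ), i < R.length → (run tab R P).getD i 0 = R.getD i 0 := by
  induction P with
  | nil => intro R i _; rfl
  | cons a P ih =>
    intro R i hi
    obtain ⟨v, hv⟩ := step_eq tab R a
    have : run tab R (a :: P) = run tab (step tab R a) P := rfl
    rw [this, ih _ _ (by rw [hv]; simp; omega), hv, List.getD_append _ _ _ _ hi]

section Avail

variable {E : Type*} {w S : ℕ} (tab : E → Fin S → Word w → Word w)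
  (init : E → List (Word w)) (n0 : ℕ)

/-- Register `i` holds the value of the function `f` after the program `P`. -/
def Avail (P : List Instr) (i : ℕ) (f : E → Word w) : Prop :=
  i < n0 + P.length ∧ ∀ e, (run (tab e) (init e) P).getD i 0 = f e

/-- All functions in `A` are available after `P`. -/
def AllAvail (P : List Instr) (A : Set (E → Word w)) : Prop :=
  ∀ f ∈ A, ∃ i, Avail tab init n0 P i f

/-- From `A` one obtains `B` with at most `N` further instructions. -/
def Cost (A B : Set (E → Word w)) (N : ℕ) : Prop :=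
  ∀ P, AllAvail tab init n0 P A → ∃ Q : List Instr, Q.length ≤ N ∧
    AllAvail tab init n0 (P ++ Q) (A ∪ B)

variable {tab init n0}

theorem Avail.append (hn : ∀ e, (init e).length = n0) {P : List Instr} {i : ℕ}
    {f : E → Word w} (h : Avail tab init n0 P i f) (Q : List Instr) :
    Avail tab init n0 (P ++ Q) i f := by
  refine ⟨by have := h.1; simp only [List.length_append]; omega, fun e => ?_⟩
  rw [run_append, run_getD _ _ _ _ (by rw [run_length, hn]; exact h.1)]
  exact h.2 e

theorem AllAvail.append (hn : ∀ e, (init e).length = n0) {P : List Instr}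
    {A : Set (E → Word w)} (h : AllAvail tab init n0 P A) (Q : List Instr) :
    AllAvail tab init n0 (P ++ Q) A := by
  intro f hf
  obtain ⟨i, hi⟩ := h f hf
  exact ⟨i, hi.append hn Q⟩

theorem Avail.xor (hn : ∀ e, (init e).length = n0) {P : List Instr} {i j : ℕ}
    {f g : E → Word w} (hf : Avail tab init n0 P i f) (hg : Avail tab init n0 P j g) :
    Avail tab init n0 (P ++ [Instr.xor i j]) (n0 + P.length) (f + g) := by
  refine ⟨by simp, fun e => ?_⟩
  rw [run_append]
  have h1 : run (tab e) (run (tab e) (init e) P) [Instr.xor i j] =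
      run (tab e) (init e) P ++ [(run (tab e) (init e) P).getD i 0 +
        (run (tab e) (init e) P).getD j 0] := rfl
  rw [h1, hf.2 e, hg.2 e]
  have h2 : (run (tab e) (init e) P).length = n0 + P.length := by rw [run_length, hn]
  rw [List.getD_append_right _ _ _ _ (by omega), h2]
  simp

theorem Avail.look (hn : ∀ e, (init e).length = n0) {P : List Instr} {i : ℕ}
    {f : E → Word w} (hf : Avail tab init n0 P i f) (k : Fin S) :
    Avail tab init n0 (P ++ [Instr.look k i]) (n0 + P.length) (fun e => tab e k (f e)) := by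
  refine ⟨by simp, fun e => ?_⟩
  rw [run_append]
  have h1 : run (tab e) (run (tab e) (init e) P) [Instr.look k i] =
      run (tab e) (init e) P ++ [if h : (k : ℕ) < S then
        tab e ⟨k, h⟩ ((run (tab e) (init e) P).getD i 0) else 0] := rfl
  rw [h1, hf.2 e]
  have h2 : (run (tab e) (init e) P).length = n0 + P.length := by rw [run_length, hn]
  rw [List.getD_append_right _ _ _ _ (by omega), h2]
  simp

theorem Cost.refl (hn : ∀ e, (init e).length = n0) {A B : Set (E → Word w)} (h : B ⊆ A) :
    Cost tab init n0 A B 0 := by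
  intro P hP
  refine ⟨[], by simp, ?_⟩
  rw [Set.union_eq_self_of_subset_right h, List.append_nil]
  exact hP

theorem Cost.le {A B : Set (E → Word w)} {N N' : ℕ} (h : Cost tab init n0 A B N)
    (hN : N ≤ N') : Cost tab init n0 A B N' := by
  intro P hP
  obtain ⟨Q, hQ, h2⟩ := h P hP
  exact ⟨Q, hQ.trans hN, h2⟩

theorem Cost.trans {A B C : Set (E → Word w)} {N N' : ℕ}
    (h : Cost tab init n0 A B N) (h' : Cost tab init n0 (A ∪ B) C N') :
    Cost tab init n0 A (B ∪ C) (N + N') := by
  intro P hP
  obtain ⟨Q, hQ, h2⟩ := h P hP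
  obtain ⟨Q', hQ', h3⟩ := h' _ h2
  refine ⟨Q ++ Q', by simp only [List.length_append]; omega, ?_⟩
  rw [← List.append_assoc, ← Set.union_assoc]
  exact h3

theorem Cost.mono (hn : ∀ e, (init e).length = n0) {A A' B B' : Set (E → Word w)} {N : ℕ}
    (h : Cost tab init n0 A B N) (hA : A ⊆ A') (hB : B' ⊆ B) :
    Cost tab init n0 A' B' N := by
  intro P hP
  obtain ⟨Q, hQ, h2⟩ := h P (fun f hf => hP f (hA hf))
  refine ⟨Q, hQ, ?_⟩
  intro f hf
  rcases hf with hf | hf
  · exact (hP.append hn Q) f hf
  · exact h2 f (Or.inr (hB hf))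

theorem Cost.add (hn : ∀ e, (init e).length = n0) {A : Set (E → Word w)} {f g : E → Word w}
    (hf : f ∈ A) (hg : g ∈ A) : Cost tab init n0 A {f + g} 1 := by
  intro P hP
  obtain ⟨i, hi⟩ := hP f hf
  obtain ⟨j, hj⟩ := hP g hg
  refine ⟨[Instr.xor i j], by simp, ?_⟩
  rintro k (hk | hk)
  · exact (hP.append hn _) k hk
  · rw [Set.mem_singleton_iff] at hk
    subst hk
    exact ⟨_, hi.xor hn hj⟩

theorem Cost.look (hn : ∀ e, (init e).length = n0) {A : Set (E → Word w)} {f : E → Word w}
    (hf : f ∈ A) (k : Fin S) : Cost tab init n0 A {fun e => tab e k (f e)} 1 := by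
  intro P hP
  obtain ⟨i, hi⟩ := hP f hf
  refine ⟨[Instr.look k i], by simp, ?_⟩
  rintro k' (hk | hk)
  · exact (hP.append hn _) k' hk
  · rw [Set.mem_singleton_iff] at hk
    subst hk
    exact ⟨_, hi.look hn k⟩

/-- The zero function costs one instruction. -/
theorem Cost.zero (hn : ∀ e, (init e).length = n0) (A : Set (E → Word w)) :
    Cost tab init n0 A {0} 1 := by
  intro P hP
  refine ⟨[Instr.xor 0 0], by simp, ?_⟩
  rintro k' (hk | hk)
  · exact (hP.append hn _) k' hk
  · rw [Set.mem_singleton_iff] at hk
    subst hk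
    refine ⟨n0 + P.length, by simp, fun e => ?_⟩
    rw [run_append]
    have h1 : run (tab e) (run (tab e) (init e) P) [Instr.xor 0 0] =
        run (tab e) (init e) P ++ [(run (tab e) (init e) P).getD 0 0 +
          (run (tab e) (init e) P).getD 0 0] := rfl
    rw [h1]
    have h2 : (run (tab e) (init e) P).length = n0 + P.length := by rw [run_length, hn]
    rw [List.getD_append_right _ _ _ _ (by omega), h2]
    ext b
    simp [CharTwo.add_self_eq_zero]

/-- Families. -/
theorem Cost.iUnion (hn : ∀ e, (init e).length = n0) {A : Set (E → Word w)} {N : ℕ} {k : ℕ}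
    {B : Fin k → Set (E → Word w)} (h : ∀ i, Cost tab init n0 A (B i) N) :
    Cost tab init n0 A (⋃ i, B i) (k * N) := by
  induction k with
  | zero =>
    refine (Cost.refl hn (B := ⋃ i, B i) ?_).le (by simp)
    intro x hx
    rw [Set.mem_iUnion] at hx
    obtain ⟨i, _⟩ := hx
    exact i.elim0
  | succ k ih =>
    have h1 := ih (B := fun i => B i.castSucc) (fun i => h _)
    have h2 : Cost tab init n0 (A ∪ ⋃ i : Fin k, B i.castSucc) (B (Fin.last k)) N :=
      (h (Fin.last k)).mono hn Set.subset_union_left (subset_refl _)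
    have h3 := h1.trans h2
    refine (h3.mono hn (subset_refl _) ?_).le (by rw [Nat.succ_mul])
    intro x hx
    rw [Set.mem_iUnion] at hx
    obtain ⟨i, hi⟩ := hx
    induction i using Fin.lastCases with
    | last => exact Or.inr hi
    | cast i => exact Or.inl (Set.mem_iUnion.2 ⟨i, hi⟩)

/-- Sums of families. -/
theorem Cost.sum (hn : ∀ e, (init e).length = n0) {A : Set (E → Word w)} {N : ℕ} {k : ℕ}
    (h0 : (0 : E → Word w) ∈ A) {f : Fin k → E → Word w}
    (h : ∀ i, Cost tab init n0 A {f i} N) :
    Cost tab init n0 A {∑ i, f i} (k * (N + 1)) := by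
  induction k with
  | zero =>
    refine (Cost.refl hn ?_).le (by simp)
    simpa using h0
  | succ k ih =>
    have h1 := ih (f := fun i => f i.castSucc) (fun i => h _)
    have h2 : Cost tab init n0 (A ∪ {∑ i : Fin k, f i.castSucc}) {f (Fin.last k)} N :=
      (h (Fin.last k)).mono hn Set.subset_union_left (subset_refl _)
    have h3 : Cost tab init n0 (A ∪ ({∑ i : Fin k, f i.castSucc} ∪ {f (Fin.last k)}))
        {∑ i : Fin k, f i.castSucc + f (Fin.last k)} 1 :=
      Cost.add hn (by simp) (by simp)
    have h4 := (h1.trans h2).trans h3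
    refine (h4.mono hn (subset_refl _) ?_).le (by ring_nf; omega)
    intro x hx
    rw [Set.mem_singleton_iff] at hx
    subst hx
    rw [Fin.sum_univ_castSucc]
    simp

end Avail

end Pool.Agent.OMV
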