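import Mathlib
import Pool.Agent.Work.MP_0f1f76_lc.Fast.Model

/-!
Definitions for the algebraic gadget behind the fast `F_2`-OMV algorithm.
-/

namespace Pool.Agent.OMV

open MvPolynomial

noncomputable section

/-- Substitution `X_i ↦ X_i + λ c_i` with `λ = X none`. -/
def dir {F : Type*} [Field F] {n : ℕ} (c : Fin n → F) :
    MvPolynomial (Fin n) F →ₐ[F] MvPolynomial (Option (Fin n)) F :=
  aeval (fun i => X (some i) + C (c i) * X none)

/-- `Φ` has degree at most `B` in direction `c`. -/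
def DirDeg {F : Type*} [Field F] {n : ℕ} (B : ℕ) (c : Fin n → F) (Φ : MvPolynomial (Fin n) F) :
    Prop :=
  ∀ δ ∈ (dir c Φ).support, δ none ≤ B

/-- the good event -/
def Good {F : Type*} [Field F] {K N : ℕ} (m B : ℕ) (Xs : Finset (Fin N))
    (p : Fin N → Fin K → F) (l₀ : Fin N) : Prop :=
  ∃ Ψ : MvPolynomial (Fin K) F, Ψ.IsHomogeneous m ∧ eval (p l₀) Ψ = 1 ∧
    (∀ k ∈ Xs, k ≠ l₀ → DirDeg 0 (p k) Ψ) ∧ ∀ k, k ≠ l₀ → DirDeg B (p k) Ψ

/-- linear form with coefficient vector `ℓ` -/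
def lform {F : Type*} [Field F] {n : ℕ} (ℓ : Fin n → F) : MvPolynomial (Fin n) F :=
  ∑ i, C (ℓ i) * X i

/-- the table function: the coefficient of `σ^{D-1}` in `Ψ(a + σ p₀)` -/
def Gfun {F : Type*} [Field F] {K : ℕ} (D : ℕ) (p₀ : Fin K → F) (Ψ : MvPolynomial (Fin K) F)
    (a : Fin K → F) : F :=
  (aeval (fun i => Polynomial.C (a i) + Polynomial.X * Polynomial.C (p₀ i)) Ψ :
    Polynomial F).coeff (D - 1)

end

end Pool.Agent.OMV
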