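import Mathlib
import Pool.Agent.Work.MP_0f1f76_lc.Fast.Defs

/-!
Existence of forms of degree `m` in `n` variables of degree at most `B` in each of `N`
prescribed directions, by a dimension count.
-/

namespace Pool.Agent.OMV

open MvPolynomial Finset

/-- the exponents of degree `m` in `n` variables -/
theorem mem_antidiag {ι : Type*} [Fintype ι] [DecidableEq ι] {m : ℕ} {δ : ι →₀ ℕ} :
    δ ∈ (univ : Finset ι).finsuppAntidiag m ↔ δ.degree = m := by
  rw [mem_finsuppAntidiag]
  constructor
  · rintro ⟨h, -⟩
    rw [Finsupp.degree_eq_sum]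
    exact h
  · intro h
    refine ⟨?_, by simp⟩
    rw [← h, Finsupp.degree_eq_sum]

/-- numerical inequality behind the dimension count -/
theorem choose_ratio (n m B : ℕ) (hB : B < m) :
    n ^ (B + 1) * (n + m - B - 1).choose (m - B - 1) ≤ m ^ (B + 1) * (n + m - 1).choose m := by
  induction B with
  | zero =>
    obtain ⟨m', rfl⟩ : ∃ m', m = m' + 1 := ⟨m - 1, by omega⟩
    have h := Nat.choose_succ_right_eq (n + m') m'
    have e1 : n + (m' + 1) - 0 - 1 = n + m' := by omega
    have e2 : m' + 1 - 0 - 1 = m' := by omega
    have e3 : n + (m' + 1) - 1 = n + m' := by omega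
    have e4 : n + m' - m' = n := by omega
    rw [e1, e2, e3]
    rw [e4] at h
    simp only [zero_add, pow_one]
    rw [mul_comm (m' + 1), h, mul_comm]
  | succ B ih =>
    have ih' := ih (by omega)
    obtain ⟨a, ha⟩ : ∃ a, m = a + B + 2 := ⟨m - B - 2, by omega⟩
    have e1 : n + m - (B + 1) - 1 = n + a := by omega
    have e2 : m - (B + 1) - 1 = a := by omega
    have e3 : n + m - B - 1 = n + a + 1 := by omega
    have e4 : m - B - 1 = a + 1 := by omega
    rw [e3, e4] at ih'
    rw [e1, e2]
    have h := Nat.add_one_mul_choose_eq (n + a) a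
    have h5 : n * (n + a).choose a ≤ m * (n + a + 1).choose (a + 1) := by
      calc n * (n + a).choose a ≤ (n + a + 1) * (n + a).choose a :=
            Nat.mul_le_mul_right _ (by omega)
        _ = (n + a + 1).choose (a + 1) * (a + 1) := h
        _ ≤ m * (n + a + 1).choose (a + 1) := by
            rw [mul_comm]
            exact Nat.mul_le_mul_right _ (by omega)
    calc n ^ (B + 1 + 1) * (n + a).choose a = n ^ (B + 1) * (n * (n + a).choose a) := by ring
      _ ≤ n ^ (B + 1) * (m * (n + a + 1).choose (a + 1)) := Nat.mul_le_mul_left _ h5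
      _ = m * (n ^ (B + 1) * (n + a + 1).choose (a + 1)) := by ring
      _ ≤ m * (m ^ (B + 1) * (n + m - 1).choose m) := Nat.mul_le_mul_left _ ih'
      _ = m ^ (B + 1 + 1) * (n + m - 1).choose m := by ring

theorem card_high (n m B : ℕ) (hB : B < m) :
    (((univ : Finset (Option (Fin n))).finsuppAntidiag m).filter (fun δ => B < δ none)).card ≤
      (n + m - B - 1).choose (m - B - 1) := by
  classical
  have h1 : (((univ : Finset (Option (Fin n))).finsuppAntidiag m).filter
      (fun δ => B < δ none)).card ≤
      ((univ : Finset (Option (Fin n))).finsuppAntidiag (m - B - 1)).card := by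
    apply Finset.card_le_card_of_injOn (fun δ => δ - Finsupp.single none (B + 1))
    · intro δ hδ
      simp only [coe_filter, Set.mem_ofPred_eq, mem_antidiag] at hδ
      simp only [mem_coe, mem_antidiag]
      have h2 : δ - Finsupp.single none (B + 1) + Finsupp.single none (B + 1) = δ := by
        apply tsub_add_cancel_of_le
        rw [Finsupp.single_le_iff]
        exact hδ.2
      have h3 := congrArg Finsupp.degree h2
      rw [Finsupp.degree.map_add, Finsupp.degree_single, hδ.1] at h3
      omega
    · intro δ hδ δ' hδ' h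
      simp only [coe_filter, Set.mem_ofPred_eq, mem_antidiag] at hδ hδ'
      have h2 : δ - Finsupp.single none (B + 1) + Finsupp.single none (B + 1) = δ := by
        apply tsub_add_cancel_of_le
        rw [Finsupp.single_le_iff]
        exact hδ.2
      have h3 : δ' - Finsupp.single none (B + 1) + Finsupp.single none (B + 1) = δ' := by
        apply tsub_add_cancel_of_le
        rw [Finsupp.single_le_iff]
        exact hδ'.2
      simp only at h
      rw [← h2, ← h3, h]
  refine h1.trans ?_
  rw [Finset.card_finsuppAntidiag_nat_eq_choose]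
  simp only [card_univ, Fintype.card_option, Fintype.card_fin]
  have : n + 1 + (m - B - 1) - 1 = n + m - B - 1 := by omega
  rw [this]

theorem exists_form {F : Type*} [Field F] {n m B N : ℕ} (hB : B < m)
    (h : N * m ^ (B + 1) < n ^ (B + 1)) (c : Fin N → Fin n → F) :
    ∃ Φ : MvPolynomial (Fin n) F, Φ ≠ 0 ∧ Φ.IsHomogeneous m ∧ ∀ k, DirDeg B (c k) Φ := by
  classical
  -- unknown coefficients and conditions
  let U := (univ : Finset (Fin n)).finsuppAntidiag m
  let W := ((univ : Finset (Option (Fin n))).finsuppAntidiag m).filter (fun δ => B < δ none)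
  let toPoly : (U → F) →ₗ[F] MvPolynomial (Fin n) F :=
    { toFun := fun a => ∑ u : U, monomial (u : Fin n →₀ ℕ) (a u)
      map_add' := by intro a b; simp [Finset.sum_add_distrib]
      map_smul' := by
        intro r a
        simp only [Pi.smul_apply, smul_eq_mul, RingHom.id_apply, Finset.smul_sum]
        refine Finset.sum_congr rfl fun u _ => ?_
        rw [smul_monomial, smul_eq_mul] }
  have hcoeff : ∀ (a : U → F) (u : U), coeff (u : Fin n →₀ ℕ) (toPoly a) = a u := by
    intro a u
    simp only [toPoly, LinearMap.coe_mk, AddHom.coe_mk, coeff_sum, coeff_monomial]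
    rw [Finset.sum_eq_single u]
    · simp
    · intro b _ hb
      rw [if_neg]
      intro hc
      exact hb (Subtype.ext hc)
    · simp
  let Λ : (U → F) →ₗ[F] (Fin N × W → F) :=
    LinearMap.pi (fun kw => (MvPolynomial.lcoeff F (kw.2 : Option (Fin n) →₀ ℕ)).comp
      ((dir (c kw.1)).toLinearMap.comp toPoly))
  have hcardU : Fintype.card U = (n + m - 1).choose m := by
    rw [Fintype.card_coe, Finset.card_finsuppAntidiag_nat_eq_choose]
    simp
  have hcardW : Fintype.card W ≤ (n + m - B - 1).choose (m - B - 1) := by
    rw [Fintype.card_coe]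
    exact card_high n m B hB
  have hlt : N * (n + m - B - 1).choose (m - B - 1) < (n + m - 1).choose m := by
    have h1 := choose_ratio n m B hB
    have hpos : 0 < (n + m - B - 1).choose (m - B - 1) := Nat.choose_pos (by omega)
    have h2 : m ^ (B + 1) * (N * (n + m - B - 1).choose (m - B - 1)) <
        m ^ (B + 1) * (n + m - 1).choose m := by
      calc m ^ (B + 1) * (N * (n + m - B - 1).choose (m - B - 1)) =
            (N * m ^ (B + 1)) * (n + m - B - 1).choose (m - B - 1) := by ring
        _ < n ^ (B + 1) * (n + m - B - 1).choose (m - B - 1) := Nat.mul_lt_mul_of_pos_right h hpos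
        _ ≤ _ := h1
    exact Nat.lt_of_mul_lt_mul_left h2
  have hker : LinearMap.ker Λ ≠ ⊥ := by
    apply LinearMap.ker_ne_bot_of_finrank_lt
    rw [Module.finrank_fintype_fun_eq_card, Module.finrank_fintype_fun_eq_card, Fintype.card_prod,
      Fintype.card_fin, hcardU]
    exact lt_of_le_of_lt (Nat.mul_le_mul_left _ hcardW) hlt
  obtain ⟨a, haΛ, ha0⟩ := (Submodule.ne_bot_iff _).1 hker
  have hhom : (toPoly a).IsHomogeneous m := by
    apply IsHomogeneous.sum
    intro u _
    apply isHomogeneous_monomial
    exact mem_antidiag.1 u.2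
  refine ⟨toPoly a, ?_, hhom, ?_⟩
  · intro h0
    apply ha0
    funext u
    rw [← hcoeff a u, h0]
    simp
  · intro k δ hδ
    by_contra hcon
    push Not at hcon
    have hhom' : (dir (c k) (toPoly a)).IsHomogeneous m := by
      have := hhom.aeval (fun i => (X (some i) + C (c k i) * X none : MvPolynomial (Option (Fin n)) F))
        (n := 1) ?_
      · rw [one_mul] at this
        exact this
      · intro i
        apply IsHomogeneous.add (isHomogeneous_X _ _)
        exact isHomogeneous_C_mul_X _ _
    have hdeg : δ.degree = m := by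
      by_contra hne
      exact (mem_support_iff.1 hδ) (hhom'.coeff_eq_zero hne)
    have hmem : δ ∈ W := by
      simp only [W, Finset.mem_filter, mem_antidiag]
      exact ⟨hdeg, hcon⟩
    have h3 : Λ a (k, ⟨δ, hmem⟩) = 0 := by
      rw [LinearMap.mem_ker.1 haΛ]; rfl
    apply mem_support_iff.1 hδ
    exact h3

end Pool.Agent.OMV
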