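import Mathlib
import Pool.Agent.Work.MP_0f1f76_lc.Fast.Dim

/-!
The expansion of the table function `Gfun` at a point `∑ y_l p_l`.
-/

namespace Pool.Agent.OMV

open MvPolynomial Finset

/-- In characteristic two only the exponents `D-1` and `2D-1` contribute (`D = 2^b`). -/
theorem coeff_add_pow {F : Type*} [Field F] [CharP F 2] (b : ℕ) (y : F) (δ : ℕ)
    (hδ : δ ≤ 2 * 2 ^ b - 1) :
    ((Polynomial.C y + Polynomial.X) ^ δ : Polynomial F).coeff (2 ^ b - 1) =
      if δ = 2 ^ b - 1 then 1 else if δ = 2 * 2 ^ b - 1 then y ^ 2 ^ b else 0 := by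
  have hpos : 0 < 2 ^ b := by positivity
  have key : ∀ ε : ℕ, ε ≤ 2 ^ b - 1 →
      ((Polynomial.C y + Polynomial.X) ^ ε : Polynomial F).coeff (2 ^ b - 1) =
      if ε = 2 ^ b - 1 then 1 else 0 := by
    intro ε hε
    have hdeg : ((Polynomial.C y + Polynomial.X) ^ ε : Polynomial F).natDegree = ε := by
      rw [Polynomial.natDegree_pow, add_comm, Polynomial.natDegree_X_add_C, mul_one]
    have hmon : ((Polynomial.C y + Polynomial.X) ^ ε : Polynomial F).Monic := by
      rw [add_comm]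
      exact (Polynomial.monic_X_add_C y).pow ε
    split_ifs with h
    · have := hmon.coeff_natDegree
      rw [hdeg, h] at this
      exact this ▸ (by rw [h])
    · apply Polynomial.coeff_eq_zero_of_natDegree_lt
      rw [hdeg]; omega
  by_cases h1 : δ ≤ 2 ^ b - 1
  · rw [key δ h1]
    split_ifs with h2 h3
    · rfl
    · omega
    · rfl
  · push Not at h1
    obtain ⟨ε, rfl⟩ : ∃ ε, δ = 2 ^ b + ε := ⟨δ - 2 ^ b, by omega⟩
    have hchar : CharP (Polynomial F) 2 := inferInstance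
    have h2 : ((Polynomial.C y + Polynomial.X) ^ (2 ^ b) : Polynomial F) =
        Polynomial.C (y ^ 2 ^ b) + Polynomial.X ^ 2 ^ b := by
      rw [add_pow_char_pow, Polynomial.C_pow]
    rw [pow_add, h2, add_mul, Polynomial.coeff_add, Polynomial.coeff_C_mul,
      Polynomial.coeff_X_pow_mul', if_neg (by omega), add_zero, key ε (by omega),
      if_neg (by omega : ¬ (2 ^ b + ε = 2 ^ b - 1))]
    by_cases h3 : ε = 2 ^ b - 1
    · rw [if_pos h3, if_pos (by omega), mul_one]
    · rw [if_neg h3, if_neg (by omega), mul_zero]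

/-- the pull-back of a form to the space of combinations `∑ y_l p_l` -/
noncomputable def hat {F : Type*} [Field F] {K N : ℕ} (p : Fin N → Fin K → F)
    (Ψ : MvPolynomial (Fin K) F) : MvPolynomial (Fin N) F :=
  aeval (fun i => ∑ l, C (p l i) * X l) Ψ

theorem hat_hom {F : Type*} [Field F] {K N m : ℕ} (p : Fin N → Fin K → F)
    {Ψ : MvPolynomial (Fin K) F} (hΨ : Ψ.IsHomogeneous m) : (hat p Ψ).IsHomogeneous m := by
  have := hΨ.aeval (fun i => (∑ l, C (p l i) * X l : MvPolynomial (Fin N) F)) (n := 1) ?_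
  · rw [one_mul] at this
    exact this
  · intro i
    apply IsHomogeneous.sum
    intro l _
    exact isHomogeneous_C_mul_X _ _

theorem hat_degree {F : Type*} [Field F] {K N B : ℕ} (p : Fin N → Fin K → F)
    {Ψ : MvPolynomial (Fin K) F} {k : Fin N} (h : DirDeg B (p k) Ψ) :
    ∀ δ ∈ (hat p Ψ).support, δ k ≤ B := by
  classical
  intro δ hδ
  refine le_trans (monomial_le_degreeOf k hδ) ?_
  let g : Option (Fin K) → MvPolynomial (Fin N) F := fun o =>
    match o with
    | none => X k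
    | some i => ∑ l ∈ univ.erase k, C (p l i) * X l
  have hg : hat p Ψ = aeval g (dir (p k) Ψ) := by
    unfold hat dir
    rw [← AlgHom.comp_apply, comp_aeval]
    congr 2
    funext i
    simp only [map_add, map_mul, aeval_X, algHom_C, algebraMap_eq, g]
    rw [← Finset.sum_erase_add _ _ (mem_univ k)]
  have hsome : ∀ i, degreeOf k (g (some i)) = 0 := by
    intro i
    have : degreeOf k (g (some i)) ≤ 0 := by
      simp only [g]
      refine (degreeOf_sum_le _ _ _).trans ?_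
      apply Finset.sup_le
      intro l hl
      refine (degreeOf_C_mul_le _ _ _).trans ?_
      rw [degreeOf_X, if_neg]
      exact fun h => (Finset.mem_erase.1 hl).1 h.symm
    omega
  have hnone : degreeOf k (g none) ≤ 1 := by
    simp only [g]
    rw [degreeOf_X]
    split_ifs <;> omega
  rw [hg, aeval_def, eval₂_eq]
  refine (degreeOf_sum_le _ _ _).trans ?_
  apply Finset.sup_le
  intro δ' hδ'
  rw [algebraMap_eq]
  refine (degreeOf_C_mul_le _ _ _).trans ?_
  refine (degreeOf_prod_le _ _ _).trans ?_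
  calc ∑ i ∈ δ'.support, degreeOf k (g i ^ δ' i) ≤ ∑ i ∈ δ'.support, δ' i * degreeOf k (g i) := by
        apply Finset.sum_le_sum
        intro i _
        exact degreeOf_pow_le _ _ _
    _ ≤ ∑ i : Option (Fin K), δ' i * degreeOf k (g i) := by
        apply Finset.sum_le_sum_of_subset
        exact subset_univ _
    _ = δ' none * degreeOf k (g none) := by
        rw [Fintype.sum_option]
        simp [hsome]
    _ ≤ δ' none * 1 := Nat.mul_le_mul_left _ hnone
    _ = δ' none := mul_one _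
    _ ≤ B := h δ' hδ'

theorem eval_hat {F : Type*} [Field F] {K N : ℕ} (p : Fin N → Fin K → F)
    (Ψ : MvPolynomial (Fin K) F) (l₀ : Fin N) :
    eval (Pi.single l₀ 1) (hat p Ψ) = eval (p l₀) Ψ := by
  classical
  unfold hat
  rw [← coe_aeval_eq_eval, ← coe_aeval_eq_eval]
  simp only [RingHom.coe_coe]
  rw [← AlgHom.comp_apply, comp_aeval]
  congr 2
  funext i
  rw [map_sum, Finset.sum_eq_single l₀]
  · simp
  · intro l _ hl
    simp [hl]
  · simp

theorem Gfun_eq {F : Type*} [Field F] {K N : ℕ} (D : ℕ) (p : Fin N → Fin K → F)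
    (Ψ : MvPolynomial (Fin K) F) (l₀ : Fin N) (y : Fin N → F) :
    Gfun D (p l₀) Ψ (fun i => ∑ l, y l * p l i) =
      ∑ δ ∈ (hat p Ψ).support, coeff δ (hat p Ψ) *
        ((∏ l ∈ univ.erase l₀, y l ^ δ l) *
          ((Polynomial.C (y l₀) + Polynomial.X) ^ δ l₀ : Polynomial F).coeff (D - 1)) := by
  classical
  unfold Gfun
  let g : Fin N → Polynomial F := fun l =>
    if l = l₀ then Polynomial.C (y l) + Polynomial.X else Polynomial.C (y l)
  have h1 : (aeval (fun i => Polynomial.C (∑ l, y l * p l i) +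
      Polynomial.X * Polynomial.C (p l₀ i)) Ψ : Polynomial F) = aeval g (hat p Ψ) := by
    unfold hat
    rw [← AlgHom.comp_apply, comp_aeval]
    congr 2
    funext i
    have h20 : (aeval g) (∑ l, C (p l i) * X l) =
        ∑ l, Polynomial.C (p l i) *
        (if l = l₀ then Polynomial.C (y l) + Polynomial.X else Polynomial.C (y l)) := by
      rw [map_sum]
      simp only [map_mul, algHom_C, aeval_X, Polynomial.algebraMap_eq, g]
    rw [h20, map_sum, ← Finset.sum_erase_add _ _ (mem_univ l₀),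
      ← Finset.sum_erase_add (a := l₀) _
        (fun l => Polynomial.C (p l i) *
          (if l = l₀ then Polynomial.C (y l) + Polynomial.X else Polynomial.C (y l)))
        (mem_univ l₀), if_pos rfl]
    have h2 : ∑ x ∈ univ.erase l₀, Polynomial.C (p x i) *
        (if x = l₀ then Polynomial.C (y x) + Polynomial.X else Polynomial.C (y x)) =
        ∑ x ∈ univ.erase l₀, Polynomial.C (y x * p x i) := by
      apply Finset.sum_congr rfl
      intro l hl
      rw [if_neg (Finset.mem_erase.1 hl).1, Polynomial.C_mul, mul_comm]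
    rw [h2, Polynomial.C_mul]
    ring
  rw [h1, aeval_def, eval₂_eq, Polynomial.finsetSum_coeff]
  apply Finset.sum_congr rfl
  intro δ _
  rw [Polynomial.algebraMap_eq, Polynomial.coeff_C_mul]
  congr 1
  have h3 : ∏ i ∈ δ.support, g i ^ δ i = ∏ i, g i ^ δ i := by
    apply Finset.prod_subset (subset_univ _)
    intro i _ hi
    rw [Finsupp.notMem_support_iff.1 hi, pow_zero]
  rw [h3, ← Finset.prod_erase_mul _ _ (mem_univ l₀)]
  have h4 : ∏ x ∈ univ.erase l₀, g x ^ δ x = Polynomial.C (∏ l ∈ univ.erase l₀, y l ^ δ l) := by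
    rw [map_prod]
    apply Finset.prod_congr rfl
    intro l hl
    simp only [g]
    rw [if_neg (Finset.mem_erase.1 hl).1, Polynomial.C_pow]
  rw [h4, Polynomial.coeff_C_mul]
  simp only [g, if_true]

/-- The expansion of the table function for the target `l₀`. -/
theorem Gfun_expand {F : Type*} [Field F] [CharP F 2] {K N b : ℕ} (p : Fin N → Fin K → F)
    (Ψ : MvPolynomial (Fin K) F) (hΨ : Ψ.IsHomogeneous (2 * 2 ^ b - 1)) (l₀ : Fin N)
    (h1 : eval (p l₀) Ψ = 1) (y : Fin N → F) :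
    Gfun (2 ^ b) (p l₀) Ψ (fun i => ∑ l, y l * p l i) = y l₀ ^ 2 ^ b +
      ∑ δ ∈ (hat p Ψ).support.filter (fun δ => δ l₀ = 2 ^ b - 1), coeff δ (hat p Ψ) *
        (∏ l ∈ univ.erase l₀, y l ^ δ l) := by
  classical
  have hpos : 0 < 2 ^ b := by positivity
  have hhom := hat_hom p hΨ
  have hdeg : ∀ δ ∈ (hat p Ψ).support, δ.degree = 2 * 2 ^ b - 1 := by
    intro δ hδ
    by_contra hne
    exact (mem_support_iff.1 hδ) (hhom.coeff_eq_zero hne)
  have hle : ∀ δ ∈ (hat p Ψ).support, δ l₀ ≤ 2 * 2 ^ b - 1 := by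
    intro δ hδ
    rw [← hdeg δ hδ]
    exact Finsupp.le_degree _ _
  have hsing : ∀ δ ∈ (hat p Ψ).support, δ l₀ = 2 * 2 ^ b - 1 →
      δ = Finsupp.single l₀ (2 * 2 ^ b - 1) := by
    intro δ hδ h
    have h2 := hdeg δ hδ
    rw [Finsupp.degree_eq_sum, ← Finset.sum_erase_add _ _ (mem_univ l₀), h] at h2
    have h3 : ∑ i ∈ univ.erase l₀, δ i = 0 := by omega
    rw [Finset.sum_eq_zero_iff] at h3
    ext i
    by_cases hi : i = l₀
    · rw [hi, h, Finsupp.single_eq_same]
    · rw [h3 i (Finset.mem_erase.2 ⟨hi, mem_univ i⟩), Finsupp.single_eq_of_ne hi]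
  rw [Gfun_eq]
  have hsplit : ∀ δ ∈ (hat p Ψ).support, coeff δ (hat p Ψ) *
        ((∏ l ∈ univ.erase l₀, y l ^ δ l) *
          ((Polynomial.C (y l₀) + Polynomial.X) ^ δ l₀ : Polynomial F).coeff (2 ^ b - 1)) =
      (if δ = Finsupp.single l₀ (2 * 2 ^ b - 1) then coeff δ (hat p Ψ) * y l₀ ^ 2 ^ b else 0) +
      (if δ l₀ = 2 ^ b - 1 then coeff δ (hat p Ψ) * (∏ l ∈ univ.erase l₀, y l ^ δ l) else 0) := by
    intro δ hδ
    rw [coeff_add_pow b _ _ (hle δ hδ)]
    by_cases h2 : δ l₀ = 2 ^ b - 1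
    · rw [if_pos h2, if_pos h2, if_neg, zero_add, mul_one]
      intro h3
      rw [h3, Finsupp.single_eq_same] at h2
      omega
    · rw [if_neg h2, if_neg h2, add_zero]
      by_cases h3 : δ l₀ = 2 * 2 ^ b - 1
      · rw [if_pos h3, if_pos (hsing δ hδ h3)]
        congr 1
        have h4 : ∏ l ∈ univ.erase l₀, y l ^ δ l = 1 := by
          apply Finset.prod_eq_one
          intro l hl
          rw [hsing δ hδ h3, Finsupp.single_eq_of_ne (Finset.mem_erase.1 hl).1, pow_zero]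
        rw [h4, one_mul]
      · rw [if_neg h3, if_neg, mul_zero, mul_zero]
        intro h4
        rw [h4, Finsupp.single_eq_same] at h3
        exact h3 rfl
  rw [Finset.sum_congr rfl hsplit, Finset.sum_add_distrib]
  rw [Finset.sum_filter (fun δ : Fin N →₀ ℕ => δ l₀ = 2 ^ b - 1)]
  congr 1
  · -- the coefficient of the pure power is `Ψ (p l₀) = 1`
    have h5 : coeff (Finsupp.single l₀ (2 * 2 ^ b - 1)) (hat p Ψ) = 1 := by
      rw [← h1, ← eval_hat, eval_eq]
      rw [Finset.sum_eq_single (Finsupp.single l₀ (2 * 2 ^ b - 1))]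
      · have : ∏ i ∈ (Finsupp.single l₀ (2 * 2 ^ b - 1)).support,
            (Pi.single l₀ 1 : Fin N → F) i ^ (Finsupp.single l₀ (2 * 2 ^ b - 1)) i = 1 := by
          apply Finset.prod_eq_one
          intro i _
          by_cases hi : i = l₀
          · rw [hi]; simp
          · rw [Finsupp.single_eq_of_ne hi, pow_zero]
        rw [this, mul_one]
      · intro δ hδ hne
        have hlt : δ l₀ ≠ 2 * 2 ^ b - 1 := fun h => hne (hsing δ hδ h)
        have : ∃ i, i ≠ l₀ ∧ δ i ≠ 0 := by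
          by_contra hcon
          push Not at hcon
          apply hlt
          have h2 := hdeg δ hδ
          rw [Finsupp.degree_eq_sum, Finset.sum_eq_single l₀] at h2
          · exact h2
          · intro i _ hi; exact hcon i hi
          · simp
        obtain ⟨i, hi, hi2⟩ := this
        rw [Finset.prod_eq_zero (Finsupp.mem_support_iff.2 hi2), mul_zero]
        rw [Pi.single_eq_of_ne hi, zero_pow hi2]
      · intro h
        rw [notMem_support_iff.1 h, zero_mul]
    rw [Finset.sum_ite_eq']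
    split_ifs with h6
    · rw [h5, one_mul]
    · rw [notMem_support_iff.1 h6] at h5
      exact absurd h5 zero_ne_one

theorem lform_hom {F : Type*} [Field F] {n : ℕ} (ℓ : Fin n → F) :
    (lform ℓ).IsHomogeneous 1 := by
  unfold lform
  apply IsHomogeneous.sum
  intro l _
  exact isHomogeneous_C_mul_X _ _

theorem expand {F : Type*} [Field F] [CharP F 2] {K N d b B M : ℕ}
    (ℓ : Fin N → Fin (d + 1) → F) (Xs : Finset (Fin N)) (p : Fin N → Fin K → F) (l₀ : Fin N)
    (Ψ : MvPolynomial (Fin K) F) (hΨ : Ψ.IsHomogeneous (2 * 2 ^ b - 1)) (h1 : eval (p l₀) Ψ = 1)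
    (h0 : ∀ k ∈ Xs, k ≠ l₀ → DirDeg 0 (p k) Ψ) (hBk : ∀ k, k ≠ l₀ → DirDeg B (p k) Ψ)
    (ψ : MvPolynomial (Fin (d + 1)) F) (hψ : ψ.IsHomogeneous (M - B * Xsᶜ.card))
    (hM : B * Xsᶜ.card ≤ M) (x : Fin N → F) :
    ∃ P : MvPolynomial (Fin (d + 1)) F, P.IsHomogeneous (M - 2 ^ b) ∧
      ∀ v : Fin (d + 1) → F, (∀ l, eval v (lform (ℓ l)) ≠ 0) →
        eval v ((∏ l ∈ Xsᶜ, lform (ℓ l) ^ B) * ψ) *
          Gfun (2 ^ b) (p l₀) Ψ (fun i => ∑ l, (eval v (lform (ℓ l)))⁻¹ * x l * p l i) =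
        eval v ((∏ l ∈ Xsᶜ, lform (ℓ l) ^ B) * ψ) * (eval v (lform (ℓ l₀)))⁻¹ ^ 2 ^ b
          * x l₀ ^ 2 ^ b + eval v P := by
  classical
  have hpos : 0 < 2 ^ b := by positivity
  have hhom := hat_hom p hΨ
  have hdeg : ∀ δ ∈ (hat p Ψ).support, δ.degree = 2 * 2 ^ b - 1 := by
    intro δ hδ
    by_contra hne
    exact (mem_support_iff.1 hδ) (hhom.coeff_eq_zero hne)
  -- the exponents away from `l₀`
  let ε : (Fin N →₀ ℕ) → Fin N → ℕ := fun δ l => if l = l₀ then 0 else δ l
  let Sup := (hat p Ψ).support.filter (fun δ => δ l₀ = 2 ^ b - 1)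
  have hεB : ∀ δ ∈ Sup, ∀ l, ε δ l ≤ B := by
    intro δ hδ l
    simp only [ε]
    split_ifs with h
    · omega
    · exact hat_degree p (hBk l h) δ (Finset.mem_filter.1 hδ).1
  have hε0 : ∀ δ ∈ Sup, ∀ l ∈ Xs, ε δ l = 0 := by
    intro δ hδ l hl
    simp only [ε]
    split_ifs with h
    · rfl
    · have := hat_degree p (h0 l hl h) δ (Finset.mem_filter.1 hδ).1
      omega
  have hεsum : ∀ δ ∈ Sup, ∑ l ∈ Xsᶜ, ε δ l = 2 ^ b := by
    intro δ hδ
    have h2 := hdeg δ (Finset.mem_filter.1 hδ).1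
    rw [Finsupp.degree_eq_sum, ← Finset.sum_erase_add _ _ (mem_univ l₀),
      (Finset.mem_filter.1 hδ).2] at h2
    have h3 : ∑ l, ε δ l = ∑ l ∈ univ.erase l₀, δ l := by
      rw [← Finset.sum_erase_add _ _ (mem_univ l₀)]
      simp only [ε, if_true, add_zero]
      apply Finset.sum_congr rfl
      intro l hl
      rw [if_neg (Finset.mem_erase.1 hl).1]
    have h4 : ∑ l, ε δ l = ∑ l ∈ Xsᶜ, ε δ l := by
      rw [← Finset.sum_add_sum_compl Xs, Finset.sum_eq_zero (hε0 δ hδ), zero_add]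
    omega
  refine ⟨∑ δ ∈ Sup, C (coeff δ (hat p Ψ) * ∏ l ∈ univ.erase l₀, x l ^ δ l) *
    ((∏ l ∈ Xsᶜ, lform (ℓ l) ^ (B - ε δ l)) * ψ), ?_, ?_⟩
  · apply IsHomogeneous.sum
    intro δ hδ
    apply IsHomogeneous.C_mul
    have h5 : (∏ l ∈ Xsᶜ, lform (ℓ l) ^ (B - ε δ l)).IsHomogeneous
        (∑ l ∈ Xsᶜ, (B - ε δ l)) := by
      apply IsHomogeneous.prod
      intro l _
      have := (lform_hom (ℓ l)).pow (B - ε δ l)
      rwa [one_mul] at this
    have h6 : ∑ l ∈ Xsᶜ, (B - ε δ l) + 2 ^ b = B * Xsᶜ.card := by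
      rw [← hεsum δ hδ, ← Finset.sum_add_distrib]
      rw [Finset.sum_congr rfl (fun l _ => Nat.sub_add_cancel (hεB δ hδ l)), Finset.sum_const,
        smul_eq_mul, mul_comm]
    have h7 := h5.mul hψ
    have h8 : ∑ l ∈ Xsᶜ, (B - ε δ l) + (M - B * Xsᶜ.card) = M - 2 ^ b := by omega
    rwa [h8] at h7
  · intro v hv
    have hG := Gfun_expand p Ψ hΨ l₀ h1 (fun l => (eval v (lform (ℓ l)))⁻¹ * x l)
    rw [hG, mul_add, mul_pow]
    congr 1
    · ring
    · rw [Finset.mul_sum, map_sum]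
      apply Finset.sum_congr rfl
      intro δ hδ
      have h8 : eval v (C (coeff δ (hat p Ψ) * ∏ l ∈ univ.erase l₀, x l ^ δ l) *
          ((∏ l ∈ Xsᶜ, lform (ℓ l) ^ (B - ε δ l)) * ψ)) =
          (coeff δ (hat p Ψ) * ∏ l ∈ univ.erase l₀, x l ^ δ l) *
          ((∏ l ∈ Xsᶜ, eval v (lform (ℓ l) ^ (B - ε δ l))) * eval v ψ) := by
        rw [(eval v).map_mul, (eval v).map_mul, eval_C, map_prod]
      rw [h8, (eval v).map_mul, map_prod]
      have h9 : ∏ l ∈ univ.erase l₀, ((eval v (lform (ℓ l)))⁻¹ * x l) ^ δ l =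
          (∏ l ∈ univ.erase l₀, x l ^ δ l) * ∏ l ∈ Xsᶜ, ((eval v (lform (ℓ l)))⁻¹) ^ ε δ l := by
        have h10 : ∏ l ∈ Xsᶜ, ((eval v (lform (ℓ l)))⁻¹) ^ ε δ l =
            ∏ l ∈ univ.erase l₀, ((eval v (lform (ℓ l)))⁻¹) ^ δ l := by
          have h11 : ∏ l ∈ Xsᶜ, ((eval v (lform (ℓ l)))⁻¹) ^ ε δ l =
              ∏ l, ((eval v (lform (ℓ l)))⁻¹) ^ ε δ l := by
            rw [← Finset.prod_mul_prod_compl Xs]
            rw [Finset.prod_eq_one (s := Xs), one_mul]
            intro l hl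
            rw [hε0 δ hδ l hl, pow_zero]
          rw [h11, ← Finset.prod_erase_mul _ _ (mem_univ l₀)]
          simp only [ε, if_true, pow_zero, mul_one]
          apply Finset.prod_congr rfl
          intro l hl
          rw [if_neg (Finset.mem_erase.1 hl).1]
        rw [h10, ← Finset.prod_mul_distrib]
        apply Finset.prod_congr rfl
        intro l _
        rw [mul_pow, mul_comm]
      have h12 : ∏ l ∈ Xsᶜ, eval v (lform (ℓ l) ^ (B - ε δ l)) =
          (∏ l ∈ Xsᶜ, eval v (lform (ℓ l) ^ B)) *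
            ∏ l ∈ Xsᶜ, ((eval v (lform (ℓ l)))⁻¹) ^ ε δ l := by
        rw [← Finset.prod_mul_distrib]
        apply Finset.prod_congr rfl
        intro l _
        rw [map_pow, map_pow, pow_sub₀ _ (hv l) (hεB δ hδ l), inv_pow]
      rw [h9, h12]
      ring

end Pool.Agent.OMV
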