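import Mathlib
import Pool.Agent.Work.MP_0f1f76_lc.Fast.Defs
import Pool.Agent.Work.MP_0f1f76_lc.Fast.Dim

/-!
Module PSI: for fixed points `p k` (`k ≠ l₀`) there is a form `Ψ` in the directions wanted, and
by Schwartz-Zippel it is non-zero at most points `p l₀`.
-/

namespace Pool.Agent.OMV

open MvPolynomial

noncomputable section

variable {F : Type*} [Field F]

/-- matrix of a linear map as linear forms -/
def pull {K n : ℕ} (π : (Fin K → F) →ₗ[F] (Fin n → F)) (j : Fin n) :
    MvPolynomial (Fin K) F :=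
  ∑ i, C (π (Pi.single i 1) j) * X i

theorem map_expand {K n : ℕ} (π : (Fin K → F) →ₗ[F] (Fin n → F)) (y : Fin K → F)
    (j : Fin n) : ∑ i, π (Pi.single i 1) j * y i = π y j := by
  have h := congrFun (π.pi_apply_eq_sum_univ y) j
  rw [h, Finset.sum_apply]
  refine Finset.sum_congr rfl fun i _ => ?_
  have h2 : (fun j' : Fin K => if i = j' then (1 : F) else 0) = Pi.single i 1 := by
    funext j'
    simp [Pi.single_apply, eq_comm]
  rw [h2, Pi.smul_apply, smul_eq_mul, mul_comm]

theorem eval_pull {K n : ℕ} (π : (Fin K → F) →ₗ[F] (Fin n → F)) (y : Fin K → F)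
    (Φ : MvPolynomial (Fin n) F) : eval y (aeval (pull π) Φ) = eval (π y) Φ := by
  have h : (aeval y : MvPolynomial (Fin K) F →ₐ[F] F).comp (aeval (pull π)) =
      (aeval (π y) : MvPolynomial (Fin n) F →ₐ[F] F) := by
    apply algHom_ext
    intro j
    simp only [AlgHom.comp_apply, aeval_X, pull, map_sum, map_mul]
    simp only [aeval_C, Algebra.algebraMap_self, RingHom.id_apply]
    exact map_expand π y j
  have := congrArg (fun f => f Φ) h
  simpa [aeval_eq_eval] using this

theorem pull_ne_zero {K n : ℕ} (π : (Fin K → F) →ₗ[F] (Fin n → F))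
    (hπ : Function.Surjective π) (Φ : MvPolynomial (Fin n) F) (hΦ : Φ ≠ 0) :
    aeval (pull π) Φ ≠ 0 := by
  obtain ⟨s, hs⟩ := π.exists_rightInverse_of_surjective (LinearMap.range_eq_top.2 hπ)
  intro h0
  apply hΦ
  have h : (aeval (pull s) : MvPolynomial (Fin K) F →ₐ[F] _).comp (aeval (pull π)) =
      AlgHom.id F (MvPolynomial (Fin n) F) := by
    apply algHom_ext
    intro j
    simp only [AlgHom.comp_apply, aeval_X, pull, map_sum, map_mul, AlgHom.id_apply]
    simp only [algebraMap_eq, aeval_C]
    simp only [Finset.mul_sum]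
    rw [Finset.sum_comm]
    have h2 : ∀ j' : Fin n, ∑ i : Fin K, C (π (Pi.single i 1) j) * (C (s (Pi.single j' 1) i) * X j')
        = C (σ := Fin n) (if j' = j then (1 : F) else 0) * X j' := by
      intro j'
      have h3 := map_expand π (s (Pi.single j' 1)) j
      have h4 : π (s (Pi.single j' 1)) = Pi.single j' 1 := by
        have := congrArg (fun f => f (Pi.single j' 1)) hs
        simpa using this
      rw [h4, Pi.single_apply] at h3
      have h5 : (if j = j' then (1:F) else 0) = if j' = j then 1 else 0 := by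
        simp [eq_comm]
      rw [← h5, ← h3, map_sum, Finset.sum_mul]
      refine Finset.sum_congr rfl fun i _ => ?_
      rw [map_mul]; ring
    rw [Finset.sum_congr rfl fun j' _ => h2 j']
    simp
  have := congrArg (fun f => f Φ) h
  simp only [AlgHom.comp_apply, h0, map_zero, AlgHom.id_apply] at this
  exact this.symm

theorem pull_homogeneous {K n m : ℕ} (π : (Fin K → F) →ₗ[F] (Fin n → F))
    (Φ : MvPolynomial (Fin n) F) (hΦ : Φ.IsHomogeneous m) :
    (aeval (pull π) Φ).IsHomogeneous m := by
  have := hΦ.aeval (pull π) (n := 1) (fun j => by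
    apply IsHomogeneous.sum
    intro i _
    simpa using (isHomogeneous_C_mul_X (R := F) (σ := Fin K) _ i))
  simpa using this

theorem dirDeg_iff {n : ℕ} (B : ℕ) (c : Fin n → F) (Φ : MvPolynomial (Fin n) F) :
    DirDeg B c Φ ↔ degreeOf none (dir c Φ) ≤ B := by
  rw [degreeOf_le_iff]
  rfl

theorem dir_pull {K n : ℕ} (π : (Fin K → F) →ₗ[F] (Fin n → F)) (c : Fin K → F)
    (Φ : MvPolynomial (Fin n) F) :
    dir c (aeval (pull π) Φ) =
      aeval (fun o : Option (Fin n) => o.elim (X none) (fun j => rename some (pull π j)))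
        (dir (π c) Φ) := by
  have h : (dir c).comp (aeval (pull π)) =
      (aeval (fun o : Option (Fin n) => o.elim (X none) (fun j => rename some (pull π j)))).comp
        (dir (F := F) (π c)) := by
    apply algHom_ext
    intro j
    simp only [AlgHom.comp_apply, aeval_X, dir, map_add, map_mul, aeval_C, algebraMap_eq,
      Option.elim]
    simp only [pull, map_sum, map_mul, aeval_C, algebraMap_eq, aeval_X, rename_C, rename_X]
    simp only [mul_add, Finset.sum_add_distrib]
    congr 1
    rw [← map_expand π c j, map_sum, Finset.sum_mul]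
    refine Finset.sum_congr rfl fun i _ => ?_
    rw [map_mul]; ring
  exact congrArg (fun f => f Φ) h

theorem degreeOf_rename_none {n : ℕ} (Φ : MvPolynomial (Fin n) F) :
    degreeOf none (rename (some : Fin n → Option (Fin n)) Φ) = 0 := by
  classical
  apply Nat.le_zero.1
  rw [degreeOf_le_iff]
  intro δ hδ
  rw [support_rename_of_injective (Option.some_injective (Fin n))] at hδ
  obtain ⟨u, -, hu⟩ := Finset.mem_image.1 hδ
  rw [← hu]
  rw [Finsupp.mapDomain_of_notMem_range]
  simp

theorem DirDeg.pull {K n B : ℕ} (π : (Fin K → F) →ₗ[F] (Fin n → F)) (c : Fin K → F)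
    (Φ : MvPolynomial (Fin n) F) (h : DirDeg B (π c) Φ) :
    DirDeg B c (aeval (pull π) Φ) := by
  rw [dirDeg_iff, dir_pull]
  unfold DirDeg at h
  generalize dir (π c) Φ = Q at h ⊢
  rw [aeval_def, eval₂_eq]
  refine (degreeOf_sum_le _ _ _).trans (Finset.sup_le fun δ hδ => ?_)
  refine (degreeOf_C_mul_le _ _ _).trans ?_
  refine (degreeOf_prod_le _ _ _).trans ?_
  have h1 : ∀ o ∈ δ.support, degreeOf none ((fun o : Option (Fin n) => o.elim
      (X none : MvPolynomial (Option (Fin K)) F) (fun j => rename some (Pool.Agent.OMV.pull π j))) o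
        ^ δ o) ≤ if o = none then δ none else 0 := by
    intro o _
    refine (degreeOf_pow_le _ _ _).trans ?_
    rcases o with _ | j
    · simp [degreeOf_X_self]
    · simp [degreeOf_rename_none]
  refine (Finset.sum_le_sum h1).trans ?_
  rw [Finset.sum_ite_eq']
  split_ifs
  · exact h δ hδ
  · exact Nat.zero_le _

theorem aeval_unique_rename {n : ℕ} (Φ : MvPolynomial (Fin n) F) :
    aeval (fun i => X (some i) + C ((0 : Fin n → F) i) * X none :
      Fin n → MvPolynomial (Option (Fin n)) F) Φ = rename some Φ := by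
  have h : (aeval (fun i => X (some i) + C ((0 : Fin n → F) i) * X none :
      Fin n → MvPolynomial (Option (Fin n)) F)) = rename some := by
    apply algHom_ext
    intro i
    simp
  rw [h]

theorem DirDeg.of_zero {n B : ℕ} (Φ : MvPolynomial (Fin n) F) :
    DirDeg B (0 : Fin n → F) Φ := by
  rw [dirDeg_iff]
  have : dir (0 : Fin n → F) Φ = rename some Φ := by
    unfold dir
    rw [← aeval_unique_rename Φ]
  rw [this, degreeOf_rename_none]
  exact Nat.zero_le _

/-- the surjection killing a small subspace -/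
theorem exists_surj {K n d : ℕ} (hK : d + n ≤ K) (V : Submodule F (Fin K → F))
    (hV : Module.finrank F V ≤ d) :
    ∃ π : (Fin K → F) →ₗ[F] (Fin n → F), Function.Surjective π ∧ ∀ v ∈ V, π v = 0 := by
  have h1 : Module.finrank F ((Fin K → F) ⧸ V) + Module.finrank F V = K := by
    rw [Submodule.finrank_quotient_add_finrank, Module.finrank_fin_fun]
  have h2 : n ≤ Module.finrank F ((Fin K → F) ⧸ V) := by omega
  let e := (Module.finBasis F ((Fin K → F) ⧸ V)).equivFun
  refine ⟨(LinearMap.funLeft F F (Fin.castLE h2)).comp (e.toLinearMap.comp V.mkQ), ?_, ?_⟩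
  · rw [LinearMap.coe_comp, LinearMap.coe_comp]
    exact (LinearMap.funLeft_surjective_of_injective _ _ _ (Fin.castLE_injective h2)).comp
      (e.surjective.comp V.mkQ_surjective)
  · intro v hv
    simp only [LinearMap.comp_apply]
    rw [(Submodule.Quotient.mk_eq_zero V).2 hv |> fun h => (h : V.mkQ v = 0)]
    simp

/-- the statement of module DIM -/
def FormsExist (F : Type*) [Field F] (n m B N : ℕ) : Prop :=
  ∀ c : Fin N → Fin n → F,
    ∃ Φ : MvPolynomial (Fin n) F, Φ ≠ 0 ∧ Φ.IsHomogeneous m ∧ ∀ k, DirDeg B (c k) Φ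

theorem exists_psi {K N n d m B : ℕ} (hform : FormsExist F n m B N)
    (hK : d + n ≤ K) (Xs : Finset (Fin N))
    (hX : Xs.card ≤ d) (l₀ : Fin N) (p : Fin N → Fin K → F) :
    ∃ Ψ : MvPolynomial (Fin K) F, Ψ ≠ 0 ∧ Ψ.IsHomogeneous m ∧
      ∀ y : Fin K → F, eval y Ψ ≠ 0 → Good m B Xs (Function.update p l₀ y) l₀ := by
  classical
  let V : Submodule F (Fin K → F) := Submodule.span F ((Xs.image p : Finset (Fin K → F)) : Set _)
  have hV : Module.finrank F V ≤ d :=
    (finrank_span_finset_le_card _).trans (Finset.card_image_le.trans hX)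
  obtain ⟨π, hπ, hπV⟩ := exists_surj hK V hV
  obtain ⟨Φ, hΦ0, hΦh, hΦd⟩ := hform (fun k => if k = l₀ then 0 else π (p k))
  refine ⟨aeval (pull π) Φ, pull_ne_zero π hπ Φ hΦ0, pull_homogeneous π Φ hΦh, ?_⟩
  intro y hy
  have hdd : ∀ (B' : ℕ) (c : Fin K → F) (a : F), DirDeg B' c (aeval (pull π) Φ) →
      DirDeg B' c (C a * aeval (pull π) Φ) := by
    intro B' c a hd
    rw [dirDeg_iff] at hd ⊢
    refine le_trans ?_ hd
    unfold dir
    rw [map_mul, aeval_C, algebraMap_eq]
    exact degreeOf_C_mul_le (aeval (fun i => X (some i) + C (c i) * X none)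
      (aeval (pull π) Φ) : MvPolynomial (Option (Fin K)) F) none a
  refine ⟨C (eval y (aeval (pull π) Φ))⁻¹ * aeval (pull π) Φ, ?_, ?_, ?_, ?_⟩
  · have := (isHomogeneous_C (Fin K) (eval y (aeval (pull π) Φ))⁻¹).mul
      (pull_homogeneous π Φ hΦh)
    simpa using this
  · rw [Function.update_self, map_mul, eval_C, inv_mul_cancel₀ hy]
  · intro k hk hkl
    rw [Function.update_of_ne hkl]
    apply hdd
    apply DirDeg.pull
    rw [hπV (p k) (Submodule.subset_span (by
      simpa using ⟨k, hk, rfl⟩))]
    exact DirDeg.of_zero Φ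
  · intro k hkl
    rw [Function.update_of_ne hkl]
    apply hdd
    apply DirDeg.pull
    have := hΦd k
    rwa [if_neg hkl] at this

theorem card_zero_le [Fintype F] {K m : ℕ} (Ψ : MvPolynomial (Fin K) F) (h0 : Ψ ≠ 0)
    (hm : Ψ.IsHomogeneous m) :
    Fintype.card F * Nat.card {y : Fin K → F // eval y Ψ = 0} ≤ m * Fintype.card F ^ K := by
  classical
  have h := schwartz_zippel_totalDegree h0 (Finset.univ : Finset F)
  rw [hm.totalDegree h0] at h
  have hF : (0 : ℚ≥0) < (Fintype.card F : ℚ≥0) := by
    exact_mod_cast Fintype.card_pos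
  have hc : (Finset.filter (fun f : Fin K → F => eval f Ψ = 0)
      (Fintype.piFinset fun _ => (Finset.univ : Finset F))).card =
      Nat.card {y : Fin K → F // eval y Ψ = 0} := by
    rw [Nat.card_eq_fintype_card, Fintype.card_subtype]
    simp only [Fintype.piFinset_univ]
  rw [hc, Finset.card_univ, div_le_div_iff₀ (by positivity) hF] at h
  rw [mul_comm] at h
  exact_mod_cast h

/-- Module PSI, from module DIM -/
theorem card_bad_le_of {F : Type*} [Field F] [Fintype F] {K N n d m B : ℕ}
    (hform : FormsExist F n m B N) (hK : d + n ≤ K) (Xs : Finset (Fin N))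
    (hX : Xs.card ≤ d) (l₀ : Fin N) :
    Fintype.card F * Nat.card {p : Fin N → Fin K → F // ¬ Good m B Xs p l₀} ≤
      m * Nat.card (Fin N → Fin K → F) := by
  classical
  let Y := Fin K → F
  let G := {j : Fin N // j ≠ l₀} → Y
  let e : (Fin N → Y) ≃ Y × G := Equiv.funSplitAt l₀ Y
  have hsymm : ∀ (y : Y) (g : G) (k : Fin N),
      e.symm (y, g) k = if h : k = l₀ then y else g ⟨k, h⟩ := by
    intro y g k
    by_cases hk : k = l₀
    · subst hk
      simp [e, Equiv.funSplitAt, Equiv.piSplitAt]
    · rw [dif_neg hk]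
      simp only [e, Equiv.funSplitAt, Equiv.piSplitAt, Equiv.coe_fn_symm_mk]
      rw [dif_neg hk]
  have key : ∀ g : G, Fintype.card F * Nat.card {y : Y // ¬ Good m B Xs (e.symm (y, g)) l₀} ≤
      m * Fintype.card F ^ K := by
    intro g
    obtain ⟨Ψ, hΨ0, hΨh, hΨ⟩ := exists_psi hform hK Xs hX l₀ (e.symm (0, g))
    refine le_trans (Nat.mul_le_mul_left _ ?_) (card_zero_le Ψ hΨ0 hΨh)
    refine Nat.card_le_card_of_injective
      (fun y : {y : Y // ¬ Good m B Xs (e.symm (y, g)) l₀} =>
        (⟨y.1, by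
          by_contra hne
          apply y.2
          have := hΨ y.1 hne
          convert this using 1
          funext k
          by_cases hk : k = l₀
          · subst hk
            rw [Function.update_self, hsymm, dif_pos rfl]
          · rw [Function.update_of_ne hk, hsymm, hsymm, dif_neg hk, dif_neg hk]⟩ : {y : Fin K → F // eval y Ψ = 0})) ?_
    intro a b hab
    simpa [Subtype.ext_iff] using hab
  have hcard : Nat.card {p : Fin N → Fin K → F // ¬ Good m B Xs p l₀} ≤
      ∑ g : G, Nat.card {y : Y // ¬ Good m B Xs (e.symm (y, g)) l₀} := by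
    rw [← Nat.card_sigma]
    let f : {p : Fin N → Fin K → F // ¬ Good m B Xs p l₀} →
        (Σ g : G, {y : Y // ¬ Good m B Xs (e.symm (y, g)) l₀}) :=
      fun p => ⟨(e p.1).2, ⟨(e p.1).1, by simpa using p.2⟩⟩
    let g : (Σ g : G, {y : Y // ¬ Good m B Xs (e.symm (y, g)) l₀}) →
        {p : Fin N → Fin K → F // ¬ Good m B Xs p l₀} :=
      fun q => ⟨e.symm (q.2.1, q.1), q.2.2⟩
    have hgf : Function.LeftInverse g f := fun p => by simp [f, g]
    exact Nat.card_le_card_of_injective f hgf.injective
  refine (Nat.mul_le_mul_left _ hcard).trans ?_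
  rw [Finset.mul_sum]
  refine (Finset.sum_le_sum fun g _ => key g).trans ?_
  have hG : Nat.card (Fin N → Fin K → F) = Fintype.card G * Fintype.card F ^ K := by
    rw [Nat.card_congr e, Nat.card_prod, Nat.card_eq_fintype_card, Nat.card_eq_fintype_card,
      mul_comm]
    congr 1
    simp [Y]
  rw [Finset.sum_const, Finset.card_univ, smul_eq_mul, hG]
  apply le_of_eq
  ring

/-- Module PSI -/
theorem card_bad_le {F : Type*} [Field F] [Fintype F] {K N n d m B : ℕ} (hB : B < m)
    (h : N * m ^ (B + 1) < n ^ (B + 1)) (hK : d + n ≤ K) (Xs : Finset (Fin N))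
    (hX : Xs.card ≤ d) (l₀ : Fin N) :
    Fintype.card F * Nat.card {p : Fin N → Fin K → F // ¬ Good m B Xs p l₀} ≤
      m * Nat.card (Fin N → Fin K → F) :=
  card_bad_le_of (fun c => exists_form hB h c) hK Xs hX l₀

end

end Pool.Agent.OMV
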