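import Pool.Agent.Work.MP_0f1f76_lc.Fast.Defs

/-!
Module SPAN: homogeneous polynomials are spanned by products with high powers of the linear
forms of a general position family.
-/

namespace Pool.Agent.OMV

open MvPolynomial

noncomputable section

lemma lform_homog {F : Type*} [Field F] {n : ℕ} (ℓ : Fin n → F) :
    (lform ℓ).IsHomogeneous 1 := by
  unfold lform
  apply IsHomogeneous.sum
  intro i _
  exact isHomogeneous_C_mul_X _ _

lemma lform_sum {F : Type*} [Field F] {n : ℕ} {ι : Type*} (s : Finset ι) (c : ι → F)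
    (ℓ : ι → Fin n → F) :
    lform (∑ k ∈ s, c k • ℓ k) = ∑ k ∈ s, C (c k) * lform (ℓ k) := by
  unfold lform
  simp only [Finset.sum_apply, Pi.smul_apply, smul_eq_mul, map_sum, map_mul, Finset.mul_sum,
    Finset.sum_mul]
  rw [Finset.sum_comm]
  refine Finset.sum_congr rfl fun k _ => Finset.sum_congr rfl fun i _ => ?_
  ring

lemma lform_single {F : Type*} [Field F] {n : ℕ} (i : Fin n) :
    lform (Pi.single i (1 : F)) = X i := by
  unfold lform
  rw [Finset.sum_eq_single i]
  · simp
  · intro j _ hj
    rw [Pi.single_eq_of_ne hj]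
    simp
  · simp

/-- A homogeneous polynomial expanded in the coordinates given by spanning linear forms. -/
lemma expand_forms {F : Type*} [Field F] {n N m : ℕ} (ℓ : Fin N → Fin n → F)
    (Y : Finset (Fin N)) (hY : Submodule.span F (ℓ '' (Y : Set (Fin N))) = ⊤)
    (ψ : MvPolynomial (Fin n) F) (hψ : ψ.IsHomogeneous m) :
    ψ ∈ Submodule.span F {φ | ∃ α : Y → ℕ, ∑ k, α k = m ∧
      φ = ∏ k : Y, lform (ℓ k) ^ α k} := by
  classical
  have h1 : ∀ i : Fin n, ∃ c : Y → F, X i = ∑ k : Y, C (c k) * lform (ℓ k) := by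
    intro i
    have h2 : (Pi.single i (1 : F) : Fin n → F) ∈ Submodule.span F (ℓ '' (Y : Set (Fin N))) := by
      rw [hY]
      exact Submodule.mem_top
    rw [Fintype.mem_span_image_iff_exists_fun] at h2
    obtain ⟨c, hc⟩ := h2
    refine ⟨fun k => c k, ?_⟩
    rw [← lform_single, ← hc]
    exact lform_sum Finset.univ _ _
  choose c hc using h1
  set χ : MvPolynomial Y F := aeval (fun i => ∑ k : Y, C (c i k) * X k) ψ with hχ
  have hχh : χ.IsHomogeneous m := by
    have := hψ.aeval (S := F) (fun i => ∑ k : Y, C (c i k) * X k) (n := 1) (fun i => by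
      apply IsHomogeneous.sum
      intro k _
      exact isHomogeneous_C_mul_X _ _)
    rwa [one_mul] at this
  have hψ' : ψ = aeval (fun k : Y => lform (ℓ k)) χ := by
    rw [hχ]
    have : (aeval (fun k : Y => lform (ℓ k)) : MvPolynomial Y F →ₐ[F] MvPolynomial (Fin n) F).comp
        (aeval (fun i => ∑ k : Y, C (c i k) * X k)) = AlgHom.id F (MvPolynomial (Fin n) F) := by
      apply MvPolynomial.algHom_ext
      intro i
      rw [AlgHom.comp_apply, aeval_X, map_sum, AlgHom.id_apply, hc i]
      refine Finset.sum_congr rfl fun k _ => ?_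
      rw [map_mul, aeval_X, aeval_C]
      rfl
    have h3 := congrArg (fun f => f ψ) this
    simpa using h3.symm
  rw [hψ', χ.as_sum, map_sum]
  apply Submodule.sum_mem
  intro α hα
  rw [aeval_monomial]
  rw [← Algebra.smul_def]
  apply Submodule.smul_mem
  apply Submodule.subset_span
  refine ⟨fun k => α k, ?_, ?_⟩
  · have := hχh (mem_support_iff.1 hα)
    rw [← this, Finsupp.weight_apply, Finsupp.sum_fintype]
    · simp
    · simp
  · rw [Finsupp.prod_fintype]
    intro k
    rw [pow_zero]

/-- the spanning set after processing the forms in `S`. -/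
def GSet {F : Type*} [Field F] {d N : ℕ} (ℓ : Fin N → Fin (d + 1) → F) (B M : ℕ)
    (S : Finset (Fin N)) : Set (MvPolynomial (Fin (d + 1)) F) :=
  {φ | ∃ Xs ⊆ S, Xs.card ≤ d ∧ ∃ ψ : MvPolynomial (Fin (d + 1)) F,
    ψ.IsHomogeneous (M - B * (S \ Xs).card) ∧ B * (S \ Xs).card ≤ M ∧
      φ = (∏ l ∈ S \ Xs, lform (ℓ l) ^ B) * ψ}

lemma prod_homog {F : Type*} [Field F] {n N : ℕ} (ℓ : Fin N → Fin n → F)
    (Y : Finset (Fin N)) (α : Y → ℕ) :
    (∏ k : Y, lform (ℓ k) ^ α k).IsHomogeneous (∑ k, α k) := by
  apply IsHomogeneous.prod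
  intro k _
  simpa using (lform_homog (ℓ k)).pow (α k)

lemma GSet_step {F : Type*} [Field F] {d N B M : ℕ} (ℓ : Fin N → Fin (d + 1) → F)
    (hℓ : ∀ Y : Finset (Fin N), Y.card = d + 1 →
      Submodule.span F (ℓ '' (Y : Set (Fin N))) = ⊤) (S : Finset (Fin N)) (l₀ : Fin N)
    (hl : l₀ ∉ S) (hM : B * (S.card + 1) ≤ M + d) :
    GSet ℓ B M S ⊆ Submodule.span F (GSet ℓ B M (insert l₀ S)) := by
  rintro φ ⟨Xs, hXs, hcard, ψ, hψ, hBM, rfl⟩
  have hl' : l₀ ∉ Xs := fun h => hl (hXs h)
  by_cases hlt : Xs.card < d
  · apply Submodule.subset_span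
    have e : insert l₀ S \ insert l₀ Xs = S \ Xs := by
      ext l
      simp only [Finset.mem_sdiff, Finset.mem_insert, not_or]
      constructor
      · rintro ⟨h1 | h1, h2, h3⟩
        · exact absurd h1 h2
        · exact ⟨h1, h3⟩
      · rintro ⟨h1, h2⟩
        exact ⟨Or.inr h1, fun h => hl (h ▸ h1), h2⟩
    refine ⟨insert l₀ Xs, Finset.insert_subset_insert _ hXs, ?_, ψ, ?_, ?_, ?_⟩
    · rw [Finset.card_insert_of_notMem hl']
      omega
    · rwa [e]
    · rwa [e]
    · rw [e]
  · have hXd : Xs.card = d := by omega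
    have hYc : (insert l₀ Xs).card = d + 1 := by
      rw [Finset.card_insert_of_notMem hl', hXd]
    have hmem := expand_forms ℓ (insert l₀ Xs) (hℓ _ hYc) ψ hψ
    refine Submodule.span_induction (p := fun ψ _ =>
      (∏ l ∈ S \ Xs, lform (ℓ l) ^ B) * ψ ∈ Submodule.span F (GSet ℓ B M (insert l₀ S)))
      ?_ ?_ ?_ ?_ hmem
    · rintro _ ⟨α, hα, rfl⟩
      -- pigeonhole
      have hcS : (S \ Xs).card + d = S.card := by
        rw [← hXd]
        exact Finset.card_sdiff_add_card_eq_card hXs
      obtain ⟨k, hk⟩ : ∃ k : (insert l₀ Xs : Finset (Fin N)), B ≤ α k := by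
        by_contra hcon
        push Not at hcon
        have h1 : ∑ k : (insert l₀ Xs : Finset (Fin N)), (α k + 1) ≤
            ∑ k : (insert l₀ Xs : Finset (Fin N)), B :=
          Finset.sum_le_sum fun k _ => hcon k
        rw [Finset.sum_add_distrib, hα, Finset.sum_const, Finset.sum_const, Finset.card_univ,
          Fintype.card_coe, hYc] at h1
        simp only [smul_eq_mul, mul_one] at h1
        have h2 : B * S.card = B * (S \ Xs).card + B * d := by rw [← mul_add, hcS]
        have h3 : (d + 1) * B = B * d + B := by ring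
        have h4 : B * (S.card + 1) = B * S.card + B := by ring
        omega
      have hα' : ∑ k', Function.update α k (α k - B) k' + B = M - B * (S \ Xs).card := by
        rw [← hα, ← Finset.add_sum_erase Finset.univ α (Finset.mem_univ k),
          ← Finset.add_sum_erase Finset.univ (Function.update α k (α k - B)) (Finset.mem_univ k),
          Function.update_self]
        have : ∑ x ∈ Finset.univ.erase k, Function.update α k (α k - B) x =
            ∑ x ∈ Finset.univ.erase k, α x := by
          refine Finset.sum_congr rfl fun x hx => ?_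
          rw [Function.update_of_ne (Finset.ne_of_mem_erase hx)]
        rw [this]
        omega
      have hkY : (k : Fin N) ∈ insert l₀ Xs := k.2
      have e : insert l₀ S \ (insert l₀ Xs).erase k = insert (k : Fin N) (S \ Xs) := by
        ext l
        simp only [Finset.mem_sdiff, Finset.mem_insert, Finset.mem_erase, not_and, not_or]
        constructor
        · rintro ⟨h1, h2⟩
          by_cases h3 : l = k
          · exact Or.inl h3
          · have h4 := h2 h3
            right
            exact ⟨h1.resolve_left h4.1, h4.2⟩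
        · rintro (h1 | ⟨h1, h2⟩)
          · refine ⟨?_, fun h => absurd h1 h⟩
            rw [h1]
            rw [Finset.mem_insert] at hkY
            exact hkY.imp id (fun h => hXs h)
          · exact ⟨Or.inr h1, fun _ => ⟨fun h => hl (h ▸ h1), h2⟩⟩
      have hkn : (k : Fin N) ∉ S \ Xs := by
        rw [Finset.mem_sdiff]
        rintro ⟨h1, h2⟩
        rw [Finset.mem_insert] at hkY
        rcases hkY with h | h
        · exact hl (h ▸ h1)
        · exact h2 h
      have hcd : (insert l₀ S \ (insert l₀ Xs).erase k).card = (S \ Xs).card + 1 := by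
        rw [e, Finset.card_insert_of_notMem hkn]
      have hmul : B * ((S \ Xs).card + 1) = B * (S \ Xs).card + B := by ring
      apply Submodule.subset_span
      refine ⟨(insert l₀ Xs).erase k, ?_, ?_,
        ∏ k' : (insert l₀ Xs : Finset (Fin N)), lform (ℓ k') ^ Function.update α k (α k - B) k',
        ?_, ?_, ?_⟩
      · exact (Finset.erase_subset _ _).trans (Finset.insert_subset_insert _ hXs)
      · rw [Finset.card_erase_of_mem hkY, hYc]
        omega
      · rw [hcd, hmul]
        have := prod_homog ℓ (insert l₀ Xs) (Function.update α k (α k - B))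
        have e2 : M - (B * (S \ Xs).card + B) = ∑ k', Function.update α k (α k - B) k' := by
          omega
        rwa [e2]
      · rw [hcd, hmul]
        omega
      · rw [e, Finset.prod_insert hkn,
          ← Finset.mul_prod_erase Finset.univ (fun k' : (insert l₀ Xs : Finset (Fin N)) =>
            lform (ℓ k') ^ α k') (Finset.mem_univ k),
          ← Finset.mul_prod_erase Finset.univ (fun k' : (insert l₀ Xs : Finset (Fin N)) =>
            lform (ℓ k') ^ Function.update α k (α k - B) k') (Finset.mem_univ k),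
          Function.update_self]
        have h1 : ∏ x ∈ Finset.univ.erase k, lform (ℓ x) ^ Function.update α k (α k - B) x =
            ∏ x ∈ Finset.univ.erase k, lform (ℓ x) ^ α x := by
          refine Finset.prod_congr rfl fun x hx => ?_
          rw [Function.update_of_ne (Finset.ne_of_mem_erase hx)]
        have h2 : lform (ℓ k) ^ α k = lform (ℓ k) ^ B * lform (ℓ k) ^ (α k - B) := by
          rw [← pow_add]
          congr 1
          omega
        rw [h1, h2]
        ring
    · simp
    · intro x y _ _ hx hy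
      rw [mul_add]
      exact Submodule.add_mem _ hx hy
    · intro a x _ hx
      rw [mul_smul_comm]
      exact Submodule.smul_mem _ _ hx

lemma GSet_span {F : Type*} [Field F] {d N B M : ℕ} (ℓ : Fin N → Fin (d + 1) → F)
    (hℓ : ∀ Y : Finset (Fin N), Y.card = d + 1 →
      Submodule.span F (ℓ '' (Y : Set (Fin N))) = ⊤) (S : Finset (Fin N))
    (hM : B * S.card ≤ M + d) :
    (homogeneousSubmodule (Fin (d + 1)) F M) ≤ Submodule.span F (GSet ℓ B M S) := by
  induction S using Finset.induction_on with
  | empty =>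
    intro φ hφ
    apply Submodule.subset_span
    refine ⟨∅, le_rfl, by simp, φ, ?_, by simp, by simp⟩
    simpa using hφ
  | insert a S ha ih =>
    rw [Finset.card_insert_of_notMem ha] at hM
    have h1 := ih (by
      have : B * (S.card + 1) = B * S.card + B := by ring
      omega)
    exact h1.trans (Submodule.span_le.2 (GSet_step ℓ hℓ S a ha hM))

/-- Module SPAN -/
theorem span_products {F : Type*} [Field F] {d N B M : ℕ} (ℓ : Fin N → Fin (d + 1) → F)
    (hℓ : ∀ Y : Finset (Fin N), Y.card = d + 1 →
      Submodule.span F (ℓ '' (Y : Set (Fin N))) = ⊤) (hM : B * N ≤ M + d) :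
    (homogeneousSubmodule (Fin (d + 1)) F M) ≤ Submodule.span F
      {φ | ∃ Xs : Finset (Fin N), Xs.card ≤ d ∧ ∃ ψ : MvPolynomial (Fin (d + 1)) F,
        ψ.IsHomogeneous (M - B * Xsᶜ.card) ∧ B * Xsᶜ.card ≤ M ∧
        φ = (∏ l ∈ Xsᶜ, lform (ℓ l) ^ B) * ψ} := by
  refine (GSet_span (B := B) (M := M) ℓ hℓ Finset.univ (by simpa using hM)).trans
    (Submodule.span_mono ?_)
  rintro φ ⟨Xs, -, h1, ψ, h2, h3, h4⟩
  rw [← Finset.compl_eq_univ_sdiff] at h2 h3 h4
  exact ⟨Xs, h1, ψ, h2, h3, h4⟩

end

end Pool.Agent.OMV
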