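import Mathlib
import Pool.Agent.Work.MP_0f1f76_lc.Fast.Expand
import Pool.Agent.Work.MP_0f1f76_lc.Fast.Psi
import Pool.Agent.Work.MP_0f1f76_lc.Fast.Span

/-!
The gadget over a finite field of characteristic two.
-/

namespace Pool.Agent.OMV

open MvPolynomial Finset

theorem finrank_homog {F : Type*} [Field F] (n m : ℕ) :
    Module.finrank F (homogeneousSubmodule (Fin n) F m) = (n + m - 1).choose m := by
  classical
  rw [homogeneousSubmodule_eq_finsupp_supported]
  have hset : {d : Fin n →₀ ℕ | d.degree = m} =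
      ((univ : Finset (Fin n)).finsuppAntidiag m : Set (Fin n →₀ ℕ)) := by
    ext d
    simp only [Set.mem_ofPred_eq, Finset.mem_coe, mem_antidiag]
  rw [hset]
  have e := (basisRestrictSupport F
    ((univ : Finset (Fin n)).finsuppAntidiag m : Set (Fin n →₀ ℕ)))
  have h1 := Module.finrank_eq_card_basis e
  rw [restrictSupport] at h1
  rw [h1]
  simp [Finset.card_finsuppAntidiag_nat_eq_choose]

instance {F : Type*} [Field F] (n m : ℕ) :
    FiniteDimensional F (homogeneousSubmodule (Fin n) F m) :=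
  Module.Finite.iff_fg.2 (homogeneousSubmodule_fg (σ := Fin n) (R := F) m)

/-- the numerical fact `2 C(dD-D, d) ≤ C(dD, d)` -/
theorem two_choose_le {d D : ℕ} (hd : 1 ≤ d) :
    2 * (d * D - D).choose d ≤ (d * D).choose d := by
  obtain ⟨e, rfl⟩ : ∃ e, d = e + 1 := ⟨d - 1, by omega⟩
  have h0 : (e + 1) * D - D = e * D := by
    rw [add_mul, one_mul]; omega
  rw [h0]
  -- descending factorials
  have h1 : ∀ k, k ≤ e + 1 → (e + 1) ^ k * (e * D).descFactorial k ≤
      e ^ k * ((e + 1) * D).descFactorial k := by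
    intro k
    induction k with
    | zero => intro _; simp
    | succ k ih =>
      intro hk
      have ih' := ih (by omega)
      rw [Nat.descFactorial_succ, Nat.descFactorial_succ, pow_succ, pow_succ]
      have h2 : (e + 1) * (e * D - k) ≤ e * ((e + 1) * D - k) := by
        rw [Nat.mul_sub, Nat.mul_sub]
        have : (e + 1) * (e * D) = e * ((e + 1) * D) := by ring
        rw [this]
        have : e * k ≤ (e + 1) * k := Nat.mul_le_mul_right _ (by omega)
        omega
      calc (e + 1) ^ k * (e + 1) * ((e * D - k) * (e * D).descFactorial k)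
          = ((e + 1) * (e * D - k)) * ((e + 1) ^ k * (e * D).descFactorial k) := by ring
        _ ≤ (e * ((e + 1) * D - k)) * (e ^ k * ((e + 1) * D).descFactorial k) :=
            Nat.mul_le_mul h2 ih'
        _ = e ^ k * e * (((e + 1) * D - k) * ((e + 1) * D).descFactorial k) := by ring
  have h3 := h1 (e + 1) le_rfl
  have h4 : 2 * e ^ (e + 1) ≤ (e + 1) ^ (e + 1) := by
    have hb : ∀ k : ℕ, e ^ (k + 1) + (k + 1) * e ^ k ≤ (e + 1) ^ (k + 1) := by
      intro k
      induction k with
      | zero => simp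
      | succ k ih =>
        calc e ^ (k + 1 + 1) + (k + 1 + 1) * e ^ (k + 1)
            ≤ (e ^ (k + 1) + (k + 1) * e ^ k) * (e + 1) := by
              have : (e ^ (k + 1) + (k + 1) * e ^ k) * (e + 1) =
                e ^ (k + 1 + 1) + (k + 1 + 1) * e ^ (k + 1) + (k + 1) * e ^ k := by ring
              rw [this]; omega
          _ ≤ (e + 1) ^ (k + 1) * (e + 1) := Nat.mul_le_mul_right _ ih
          _ = (e + 1) ^ (k + 1 + 1) := by ring
    have := hb e
    have h5 : e ^ (e + 1) ≤ (e + 1) * e ^ e := by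
      rw [pow_succ, mul_comm]
      exact Nat.mul_le_mul_right _ (by omega)
    omega
  have h5 : (e + 1) ^ (e + 1) * (2 * (e * D).descFactorial (e + 1)) ≤
      (e + 1) ^ (e + 1) * ((e + 1) * D).descFactorial (e + 1) := by
    calc (e + 1) ^ (e + 1) * (2 * (e * D).descFactorial (e + 1))
        = 2 * ((e + 1) ^ (e + 1) * (e * D).descFactorial (e + 1)) := by ring
      _ ≤ 2 * (e ^ (e + 1) * ((e + 1) * D).descFactorial (e + 1)) := Nat.mul_le_mul_left _ h3
      _ = (2 * e ^ (e + 1)) * ((e + 1) * D).descFactorial (e + 1) := by ring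
      _ ≤ _ := Nat.mul_le_mul_right _ h4
  have h6 : 2 * (e * D).descFactorial (e + 1) ≤ ((e + 1) * D).descFactorial (e + 1) :=
    Nat.le_of_mul_le_mul_left h5 (by positivity)
  rw [Nat.descFactorial_eq_factorial_mul_choose, Nat.descFactorial_eq_factorial_mul_choose] at h6
  have h7 : (e + 1).factorial * (2 * (e * D).choose (e + 1)) ≤
      (e + 1).factorial * ((e + 1) * D).choose (e + 1) := by
    calc _ = 2 * ((e + 1).factorial * (e * D).choose (e + 1)) := by ring
      _ ≤ _ := h6
  exact Nat.le_of_mul_le_mul_left h7 (Nat.factorial_pos _)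

/-- Vandermonde: `N ≤ |F|` linear forms in `d+1` variables in general position. -/
theorem exists_general_forms {F : Type*} [Field F] [Fintype F] {d N : ℕ}
    (h : N ≤ Fintype.card F) : ∃ ℓ : Fin N → Fin (d + 1) → F, (∀ l, ℓ l ≠ 0) ∧
      ∀ Y : Finset (Fin N), Y.card = d + 1 →
        Submodule.span F (ℓ '' (Y : Set (Fin N))) = ⊤ := by
  classical
  obtain ⟨θ⟩ : Nonempty (Fin N ↪ F) := by
    apply Function.Embedding.nonempty_of_card_le
    simpa using h
  refine ⟨fun l i => θ l ^ (i : ℕ), ?_, ?_⟩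
  · intro l h0
    have := congrFun h0 0
    simp at this
  intro Y hY
  let em := Y.orderEmbOfFin hY
  have hdet : (Matrix.vandermonde (fun j : Fin (d + 1) => θ (em j))).det ≠ 0 := by
    rw [Matrix.det_vandermonde_ne_zero_iff]
    intro i j hij
    exact em.injective (θ.injective hij)
  have hli := Matrix.linearIndependent_rows_of_det_ne_zero hdet
  have hspan := hli.span_eq_top_of_card_eq_finrank' (by simp)
  have hsub : Set.range (Matrix.row (Matrix.vandermonde (fun j : Fin (d + 1) => θ (em j)))) ⊆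
      (fun l (i : Fin (d + 1)) => θ l ^ (i : ℕ)) '' (Y : Set (Fin N)) := by
    rintro _ ⟨j, rfl⟩
    refine ⟨em j, Y.orderEmbOfFin_mem hY j, ?_⟩
    funext i
    simp [Matrix.vandermonde, Matrix.row]
  rw [eq_top_iff, ← hspan]
  exact Submodule.span_mono hsub

/-- a linearly independent family of `finrank H` members of a spanning set -/
theorem exists_basis_family {F V : Type*} [Field F] [AddCommGroup V] [Module F V]
    (H : Submodule F V) [FiniteDimensional F H] (S : Set V) (h1 : H ≤ Submodule.span F S)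
    (h2 : S ⊆ H) (t₀ : ℕ) (ht₀ : t₀ = Module.finrank F H) : ∃ φ : Fin t₀ → V, (∀ i, φ i ∈ S) ∧
      LinearIndependent F φ := by
  classical
  subst ht₀
  obtain ⟨b, hbS, hspan, hli⟩ := exists_linearIndependent F S
  have hH : Submodule.span F b = H := by
    rw [hspan]
    exact le_antisymm (Submodule.span_le.2 h2) h1
  have hfin : Finite b := by
    let f : b → H := fun x => ⟨x, h2 (hbS x.2)⟩
    have : LinearIndependent F f := by
      apply LinearIndependent.of_comp H.subtype
      exact hli
    exact this.finite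
  have := Fintype.ofFinite b
  have hcard : Fintype.card b = Module.finrank F H := by
    have h3 := finrank_span_eq_card hli
    rw [Subtype.range_coe, hH] at h3
    exact h3.symm
  let e : Fin (Module.finrank F H) ≃ b := (finCongr hcard.symm).trans (Fintype.equivFin b).symm
  refine ⟨fun i => e i, fun i => hbS (e i).2, ?_⟩
  exact hli.comp _ e.injective

/-- one choice of the points serves most members of the family -/
theorem exists_good {F : Type*} [Field F] [Fintype F] {K N n d m B t₀ : ℕ} (hB : B < m)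
    (h : N * m ^ (B + 1) < n ^ (B + 1)) (hK : d + n ≤ K) (Xs : Fin t₀ → Finset (Fin N))
    (hX : ∀ i, (Xs i).card ≤ d) (hq : 8 * (N * m) ≤ Fintype.card F) :
    ∃ (p : Fin N → Fin K → F) (G : Finset (Fin t₀)),
      7 * t₀ ≤ 8 * G.card ∧ ∀ i ∈ G, ∀ l₀, Good m B (Xs i) p l₀ := by
  classical
  let bad : (Fin N → Fin K → F) → Finset (Fin t₀) := fun p =>
    univ.filter (fun i => ¬ ∀ l₀, Good m B (Xs i) p l₀)
  have hPpos : 0 < Fintype.card (Fin N → Fin K → F) := Fintype.card_pos
  have hqpos : 0 < Fintype.card F := Fintype.card_pos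
  have key : ∃ p, 8 * (bad p).card ≤ t₀ := by
    by_contra hcon
    push Not at hcon
    have h1 : (t₀ + 1) * Fintype.card (Fin N → Fin K → F) ≤ ∑ p, 8 * (bad p).card := by
      calc (t₀ + 1) * Fintype.card (Fin N → Fin K → F) =
          ∑ p : (Fin N → Fin K → F), (t₀ + 1) := by
            rw [Finset.sum_const, smul_eq_mul, mul_comm]; rfl
        _ ≤ _ := Finset.sum_le_sum fun p _ => hcon p
    have h2 : ∀ p, (bad p).card ≤ ∑ i : Fin t₀, ∑ l₀ : Fin N,
        if ¬ Good m B (Xs i) p l₀ then 1 else 0 := by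
      intro p
      rw [Finset.card_filter]
      apply Finset.sum_le_sum
      intro i _
      by_cases h3 : ∀ l₀, Good m B (Xs i) p l₀
      · rw [if_neg (not_not.2 h3)]
        exact Nat.zero_le _
      · rw [if_pos h3]
        push Not at h3
        obtain ⟨l₀, hl₀⟩ := h3
        calc 1 = (if ¬ Good m B (Xs i) p l₀ then 1 else 0) := by rw [if_pos hl₀]
          _ ≤ _ := Finset.single_le_sum
            (f := fun l₀ => if ¬ Good m B (Xs i) p l₀ then 1 else 0)
            (fun _ _ => Nat.zero_le _) (mem_univ l₀)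
    have h3 : Fintype.card F * ∑ p, 8 * (bad p).card ≤
        8 * (t₀ * (N * (m * Fintype.card (Fin N → Fin K → F)))) := by
      calc Fintype.card F * ∑ p, 8 * (bad p).card
          ≤ Fintype.card F * ∑ p : (Fin N → Fin K → F), 8 * ∑ i : Fin t₀, ∑ l₀ : Fin N,
            (if ¬ Good m B (Xs i) p l₀ then 1 else 0) := by
            apply Nat.mul_le_mul_left
            apply Finset.sum_le_sum
            intro p _
            exact Nat.mul_le_mul_left _ (h2 p)
        _ = 8 * ∑ i : Fin t₀, ∑ l₀ : Fin N, Fintype.card F *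
            ∑ p : (Fin N → Fin K → F), (if ¬ Good m B (Xs i) p l₀ then 1 else 0) := by
            rw [← Finset.mul_sum]
            rw [Finset.sum_comm]
            simp_rw [Finset.sum_comm (s := (univ : Finset (Fin N → Fin K → F)))
              (t := (univ : Finset (Fin N)))]
            simp_rw [← Finset.mul_sum]
            ring
        _ ≤ 8 * ∑ i : Fin t₀, ∑ l₀ : Fin N, m * Fintype.card (Fin N → Fin K → F) := by
            apply Nat.mul_le_mul_left
            apply Finset.sum_le_sum
            intro i _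
            apply Finset.sum_le_sum
            intro l₀ _
            have h4 := card_bad_le (F := F) hB h hK (Xs i) (hX i) l₀
            rw [Nat.card_eq_fintype_card, Nat.card_eq_fintype_card, Fintype.card_subtype,
              Finset.card_filter] at h4
            exact h4
        _ = _ := by simp
    have h5 : Fintype.card F * ((t₀ + 1) * Fintype.card (Fin N → Fin K → F)) ≤
        Fintype.card F * (t₀ * Fintype.card (Fin N → Fin K → F)) := by
      calc Fintype.card F * ((t₀ + 1) * Fintype.card (Fin N → Fin K → F))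
          ≤ Fintype.card F * ∑ p, 8 * (bad p).card := Nat.mul_le_mul_left _ h1
        _ ≤ 8 * (t₀ * (N * (m * Fintype.card (Fin N → Fin K → F)))) := h3
        _ = (8 * (N * m)) * (t₀ * Fintype.card (Fin N → Fin K → F)) := by ring
        _ ≤ _ := Nat.mul_le_mul_right _ hq
    have h6 := Nat.le_of_mul_le_mul_left h5 hqpos
    have h7 := Nat.le_of_mul_le_mul_right h6 hPpos
    omega
  obtain ⟨p, hp⟩ := key
  refine ⟨p, (bad p)ᶜ, ?_, ?_⟩
  · rw [Finset.card_compl, Fintype.card_fin]
    have : (bad p).card ≤ t₀ := by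
      have := Finset.card_le_univ (bad p)
      simpa using this
    omega
  · intro i hi
    simp only [bad, Finset.mem_compl, Finset.mem_filter, Finset.mem_univ, true_and,
      not_not] at hi
    exact hi

/-- Labels: a family of `g` linearly independent forms restricts to an arbitrary function space
on `g` suitable labels. -/
theorem exists_labels {F : Type*} [Field F] [Fintype F] {d N M g : ℕ}
    (ℓ : Fin N → Fin (d + 1) → F) (hℓ : ∀ l, lform (ℓ l) ≠ 0)
    (φ : Fin g → MvPolynomial (Fin (d + 1)) F) (hφ : LinearIndependent F φ)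
    (hhom : ∀ i, (φ i).IsHomogeneous M) (hq : M + N ≤ Fintype.card F) :
    ∃ v : Fin g → Fin (d + 1) → F, (∀ c l, eval (v c) (lform (ℓ l)) ≠ 0) ∧
      ∀ ψ : Fin g → F, ∃ a : Fin g → F, ∀ c, ∑ i, a i * eval (v c) (φ i) = ψ c := by
  classical
  let Ω : Set (Fin (d + 1) → F) := {v | ∀ l, eval v (lform (ℓ l)) ≠ 0}
  let R : Ω → (Fin g → F) := fun v i => eval v.1 (φ i)
  -- the rows span
  have hspan : Submodule.span F (Set.range R) = ⊤ := by
    by_contra hne
    obtain ⟨f, hf0, hf⟩ := Submodule.exists_le_ker_of_lt_top _ (lt_top_iff_ne_top.2 hne)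
    have hfR : ∀ v : Ω, f (R v) = 0 := by
      intro v
      exact hf (Submodule.subset_span ⟨v, rfl⟩)
    -- coordinates of `f`
    let a : Fin g → F := fun i => f (Pi.single i 1)
    have hfa : ∀ x : Fin g → F, f x = ∑ i, a i * x i := by
      intro x
      conv_lhs => rw [pi_eq_sum_univ' x]
      rw [map_sum]
      apply Finset.sum_congr rfl
      intro i _
      rw [map_smul, smul_eq_mul, mul_comm]
    let Q : MvPolynomial (Fin (d + 1)) F := ∑ i, a i • φ i
    have hQhom : Q.IsHomogeneous M := by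
      apply IsHomogeneous.sum
      intro i _
      rw [smul_eq_C_mul]
      exact (hhom i).C_mul _
    have hQeval : ∀ v ∈ Ω, eval v Q = 0 := by
      intro v hv
      have := hfR ⟨v, hv⟩
      rw [hfa] at this
      simp only [Q, map_sum, smul_eval]
      exact this
    have hQ0 : Q = 0 := by
      have h1 : Q * ∏ l, lform (ℓ l) = 0 := by
        have hh : (Q * ∏ l, lform (ℓ l)).IsHomogeneous (M + N) := by
          apply hQhom.mul
          have := IsHomogeneous.prod (univ : Finset (Fin N)) (fun l => lform (ℓ l)) (fun _ => 1)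
            (fun l _ => lform_hom (ℓ l))
          simpa using this
        apply hh.eq_zero_of_forall_eval_eq_zero_of_le_card
        · intro v
          rw [map_mul, map_prod]
          by_cases hv : v ∈ Ω
          · rw [hQeval v hv, zero_mul]
          · simp only [Ω, Set.mem_ofPred_eq, not_forall, not_not] at hv
            obtain ⟨l, hl⟩ := hv
            rw [Finset.prod_eq_zero (mem_univ l) hl, mul_zero]
        · rw [Cardinal.mk_fintype]
          exact_mod_cast hq
      rcases mul_eq_zero.1 h1 with h2 | h2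
      · exact h2
      · exfalso
        rw [Finset.prod_eq_zero_iff] at h2
        obtain ⟨l, _, hl⟩ := h2
        exact hℓ l hl
    have ha0 : ∀ i, a i = 0 := Fintype.linearIndependent_iff.1 hφ a hQ0
    apply hf0
    ext i
    simp only [LinearMap.coe_comp, LinearMap.coe_single, Function.comp_apply]
    exact ha0 i
  -- extract a basis
  obtain ⟨κ, a, ha, hspan', hli⟩ := exists_linearIndependent' F R
  rw [hspan] at hspan'
  let bas := Module.Basis.mk hli hspan'.ge
  have hfin : Finite κ := hli.finite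
  have := Fintype.ofFinite κ
  have hcard : Fintype.card κ = g := by
    have := Module.finrank_eq_card_basis bas
    rw [Module.finrank_fintype_fun_eq_card, Fintype.card_fin] at this
    exact this.symm
  let e : Fin g ≃ κ := (finCongr hcard.symm).trans (Fintype.equivFin κ).symm
  refine ⟨fun c => (a (e c)).1, fun c l => (a (e c)).2 l, ?_⟩
  intro ψ
  let f : (Fin g → F) →ₗ[F] F := bas.constr F (fun k => ψ (e.symm k))
  refine ⟨fun i => f (Pi.single i 1), ?_⟩
  intro c
  have hfR : f (R (a (e c))) = ψ c := by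
    have h1 : bas (e c) = R (a (e c)) := by
      simp [bas]
    rw [← h1, Module.Basis.constr_basis, Equiv.symm_apply_apply]
  rw [← hfR]
  conv_rhs => rw [pi_eq_sum_univ' (R (a (e c)))]
  rw [map_sum]
  apply Finset.sum_congr rfl
  intro i _
  rw [map_smul, smul_eq_mul, mul_comm]

theorem lform_ne_zero {F : Type*} [Field F] {n : ℕ} {ℓ : Fin n → F} (h : ℓ ≠ 0) :
    lform ℓ ≠ 0 := by
  classical
  intro h0
  apply h
  funext i
  have h1 : coeff (Finsupp.single i 1) (lform ℓ) = ℓ i := by
    unfold lform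
    rw [coeff_sum, Finset.sum_eq_single i]
    · rw [coeff_C_mul, coeff_X_same, mul_one]
    · intro j _ hj
      rw [coeff_C_mul, coeff_X, if_neg, mul_zero]
      intro h2
      exact hj (Finsupp.single_left_injective one_ne_zero h2)
    · simp
  rw [← h1, h0, coeff_zero]
  rfl

/-- the decoder with a prescribed kernel -/
theorem exists_decoder {F : Type*} [Field F] {g : ℕ} (Cd : Submodule F (Fin g → F)) :
    ∃ r, r + Module.finrank F Cd = g ∧ ∃ H : (Fin g → F) →ₗ[F] (Fin r → F),
      Function.Surjective H ∧ ∀ z ∈ Cd, H z = 0 := by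
  have hr := Submodule.finrank_quotient_add_finrank Cd
  rw [Module.finrank_fintype_fun_eq_card, Fintype.card_fin] at hr
  let eq : ((Fin g → F) ⧸ Cd) ≃ₗ[F] (Fin (Module.finrank F ((Fin g → F) ⧸ Cd)) → F) :=
    LinearEquiv.ofFinrankEq _ _ (by rw [Module.finrank_fintype_fun_eq_card, Fintype.card_fin])
  refine ⟨_, hr, eq.toLinearMap.comp Cd.mkQ,
    eq.surjective.comp (Submodule.mkQ_surjective Cd), ?_⟩
  intro z hz
  simp only [LinearMap.coe_comp, Function.comp_apply, Submodule.mkQ_apply,
    (Submodule.Quotient.mk_eq_zero Cd).2 hz, map_zero]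

/-- The gadget over a field of characteristic two. -/
theorem field_gadget {F : Type*} [Field F] [Fintype F] [CharP F 2] {K N n d b B : ℕ}
    (hd : 2 ≤ d) (hB : B < 2 * 2 ^ b - 1) (hB1 : 1 ≤ B)
    (hn : N * (2 * 2 ^ b - 1) ^ (B + 1) < n ^ (B + 1)) (hK : d + n ≤ K)
    (hN : B * N ≤ d * 2 ^ b) (_hN1 : 1 ≤ N) (hq : 16 * N * 2 ^ b ≤ Fintype.card F)
    (hq2 : d * 2 ^ b + N < Fintype.card F) :
    ∃ (t r : ℕ), 0 < r ∧ r ≤ t ∧ t ≤ 3 * r ∧ t ≤ (d * 2 ^ b).choose d ∧
      ∃ (A : Fin t → (Fin N → F) →ₗ[F] (Fin K → F)) (H : (Fin t → F) →ₗ[F] (Fin r → F)),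
        ∀ μ : Fin r → Fin N → F, ∃ T : Fin t → (Fin K → F) → F,
          ∀ x : Fin N → F, H (fun c => T c (A c x)) = fun ρ => ∑ l, μ ρ l * x l ^ 2 ^ b := by
  classical
  obtain ⟨D, hD⟩ : ∃ D, D = 2 ^ b := ⟨_, rfl⟩
  have hD2 : 2 ≤ D := by omega
  obtain ⟨M, hM⟩ : ∃ M, M = d * D - d := ⟨_, rfl⟩
  have hdD : 2 * d ≤ d * D := by rw [mul_comm]; exact Nat.mul_le_mul_left _ hD2
  have hdD' : 2 * D ≤ d * D := Nat.mul_le_mul_right _ hd
  have hMd : M + d = d * D := by omega
  have hMD : D ≤ M := by
    have : d + D ≤ d * D := by nlinarith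
    omega
  rw [← hD] at hB hn hN hq hq2
  -- general forms
  obtain ⟨ℓ, hℓne, hℓ⟩ := exists_general_forms (F := F) (d := d) (N := N) (by omega)
  -- spanning family
  let S : Set (MvPolynomial (Fin (d + 1)) F) :=
      {φ | ∃ Xs : Finset (Fin N), Xs.card ≤ d ∧ ∃ ψ : MvPolynomial (Fin (d + 1)) F,
        ψ.IsHomogeneous (M - B * Xsᶜ.card) ∧ B * Xsᶜ.card ≤ M ∧
        φ = (∏ l ∈ Xsᶜ, lform (ℓ l) ^ B) * ψ}
  have hS1 : homogeneousSubmodule (Fin (d + 1)) F M ≤ Submodule.span F S :=
    span_products ℓ hℓ (by rw [hMd]; exact hN)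
  have hS2 : S ⊆ homogeneousSubmodule (Fin (d + 1)) F M := by
    rintro φ ⟨Xs, hXs, ψ, hψ, hle, rfl⟩
    rw [SetLike.mem_coe, mem_homogeneousSubmodule]
    have h1 : (∏ l ∈ Xsᶜ, lform (ℓ l) ^ B).IsHomogeneous (∑ l ∈ Xsᶜ, B) := by
      apply IsHomogeneous.prod
      intro l _
      have := (lform_hom (ℓ l)).pow B
      rwa [one_mul] at this
    have h2 := h1.mul hψ
    rw [Finset.sum_const, smul_eq_mul, mul_comm _ B] at h2
    have h3 : B * Xsᶜ.card + (M - B * Xsᶜ.card) = M := by omega
    rwa [h3] at h2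
  obtain ⟨t₀, ht₀⟩ : ∃ t₀, t₀ = Module.finrank F (homogeneousSubmodule (Fin (d + 1)) F M) :=
    ⟨_, rfl⟩
  obtain ⟨φ, hφS, hφli⟩ := exists_basis_family _ S hS1 hS2 t₀ ht₀
  choose Xs hXs ψ hψ hle hφ using hφS
  have ht₀' : t₀ = (d * D).choose d := by
    rw [ht₀, finrank_homog]
    have h1 : d + 1 + M - 1 = d * D := by omega
    rw [h1, ← hMd]
    exact Nat.choose_symm_add
  -- good points
  obtain ⟨p, G, hGcard, hG⟩ := exists_good (F := F) (t₀ := t₀) hB hn hK Xs hXs (by
      have h1 : 8 * (N * (2 * D - 1)) ≤ 8 * (N * (2 * D)) := by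
        apply Nat.mul_le_mul_left
        apply Nat.mul_le_mul_left
        omega
      calc 8 * (N * (2 * D - 1)) ≤ 8 * (N * (2 * D)) := h1
        _ = 16 * N * D := by ring
        _ ≤ _ := hq)
  -- enumerate the good members
  obtain ⟨g, hg⟩ : ∃ g, g = G.card := ⟨_, rfl⟩
  obtain ⟨em, hemG, heminj⟩ : ∃ em : Fin g → Fin t₀, (∀ i, em i ∈ G) ∧
      Function.Injective em := by
    subst hg
    exact ⟨fun i => (G.equivFin.symm i : Fin t₀), fun i => (G.equivFin.symm i).2,
      fun i j hij => G.equivFin.symm.injective (Subtype.ext hij)⟩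
  have hφ'li : LinearIndependent F (fun i => φ (em i)) := hφli.comp em heminj
  have hφ'hom : ∀ i, (φ (em i)).IsHomogeneous M := by
    intro i
    have : φ (em i) ∈ S := ⟨Xs (em i), hXs _, ψ (em i), hψ _, hle _, hφ _⟩
    exact hS2 this
  have hgt : g ≤ t₀ := by
    have := Finset.card_le_univ G
    rw [Fintype.card_fin] at this
    omega
  rw [← hg] at hGcard
  have hℓ0 : ∀ l, lform (ℓ l) ≠ 0 := fun l => lform_ne_zero (hℓne l)
  obtain ⟨v, hv, hvint⟩ := exists_labels ℓ hℓ0 (fun i => φ (em i)) hφ'li hφ'hom (by omega)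
  -- the code
  let ev : MvPolynomial (Fin (d + 1)) F →ₗ[F] (Fin g → F) :=
    LinearMap.pi (fun c => (aeval (v c)).toLinearMap)
  let Cd : Submodule F (Fin g → F) := (homogeneousSubmodule (Fin (d + 1)) F (M - D)).map ev
  have hCd : Module.finrank F Cd ≤ (d * D - D).choose d := by
    refine (Submodule.finrank_map_le _ _).trans ?_
    rw [finrank_homog]
    have h1 : d + 1 + (M - D) - 1 = M - D + d := by omega
    have h2 : d * D - D = M - D + d := by omega
    rw [h1, h2]
    exact (Nat.choose_symm_add).le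
  obtain ⟨r, hr, H, hHsurj, hHCd⟩ := exists_decoder Cd
  have ht₀pos : 0 < t₀ := by
    rw [ht₀']
    apply Nat.choose_pos
    omega
  have hnum : g ≤ 3 * r := by
    have h1 := two_choose_le (d := d) (D := D) (by omega)
    rw [← ht₀'] at h1
    omega
  have hrpos : 0 < r := by
    omega
  refine ⟨g, r, hrpos, by omega, hnum, by rw [← hD, ← ht₀']; exact hgt, ?_⟩
  -- addresses
  let A : Fin g → (Fin N → F) →ₗ[F] (Fin K → F) := fun c =>
    LinearMap.pi (fun i => ∑ l, ((eval (v c) (lform (ℓ l)))⁻¹ * p l i) • LinearMap.proj l)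
  have hA : ∀ c x, A c x = fun i => ∑ l, (eval (v c) (lform (ℓ l)))⁻¹ * x l * p l i := by
    intro c x
    funext i
    simp only [A, LinearMap.pi_apply, LinearMap.coe_sum, Finset.sum_apply, LinearMap.smul_apply,
      LinearMap.proj_apply, smul_eq_mul]
    apply Finset.sum_congr rfl
    intro l _
    ring
  refine ⟨A, H, ?_⟩
  intro μ
  -- preimages of the rows
  have hψex : ∀ l : Fin N, ∃ z : Fin g → F, H z = fun ρ => μ ρ l := fun l => hHsurj _
  choose z hz using hψex
  have haex : ∀ l : Fin N, ∃ a : Fin g → F, ∀ c, ∑ i, a i * eval (v c) (φ (em i)) =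
      z l c * eval (v c) (lform (ℓ l)) ^ D := fun l => hvint _
  choose a ha using haex
  -- the forms Ψ
  have hΨex : ∀ (i : Fin g) (l : Fin N), Good (2 * D - 1) B (Xs (em i)) p l :=
    fun i l => hG (em i) (hemG i) l
  choose Ψ hΨhom hΨ1 hΨ0 hΨB using hΨex
  refine ⟨fun c y => ∑ l, ∑ i, a l i * eval (v c) (φ (em i)) * Gfun D (p l) (Ψ i l) y, ?_⟩
  intro x
  -- expansion
  have hexp : ∀ (i : Fin g) (l : Fin N), ∃ P : MvPolynomial (Fin (d + 1)) F,
      P.IsHomogeneous (M - D) ∧ ∀ c : Fin g,
        eval (v c) (φ (em i)) * Gfun D (p l) (Ψ i l) (A c x) =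
        eval (v c) (φ (em i)) * (eval (v c) (lform (ℓ l)))⁻¹ ^ D * x l ^ D + eval (v c) P := by
    intro i l
    obtain ⟨P, hP, hPe⟩ := expand (b := b) ℓ (Xs (em i)) p l (Ψ i l)
      (by rw [← hD]; exact hΨhom i l) (hΨ1 i l) (hΨ0 i l) (hΨB i l) (ψ (em i)) (hψ (em i))
      (hle (em i)) x
    rw [← hD] at hP hPe
    refine ⟨P, hP, fun c => ?_⟩
    have h1 := hPe (v c) (hv c)
    rw [← hφ (em i)] at h1
    rw [hA]
    exact h1
  choose P hPhom hPe using hexp
  have hval : (fun c => ∑ l, ∑ i, a l i * eval (v c) (φ (em i)) * Gfun D (p l) (Ψ i l) (A c x)) =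
      (∑ l, x l ^ D • z l) + ev (∑ l, ∑ i, a l i • P i l) := by
    funext c
    rw [Pi.add_apply, Finset.sum_apply]
    have h1 : ev (∑ l, ∑ i, a l i • P i l) c = ∑ l, ∑ i, a l i * eval (v c) (P i l) := by
      simp only [ev, LinearMap.pi_apply, AlgHom.toLinearMap_apply, map_sum, map_smul, smul_eq_mul]
      rfl
    rw [h1, ← Finset.sum_add_distrib]
    apply Finset.sum_congr rfl
    intro l _
    have h2 : ∑ i, a l i * eval (v c) (φ (em i)) * Gfun D (p l) (Ψ i l) (A c x) =
        (∑ i, a l i * eval (v c) (φ (em i))) * ((eval (v c) (lform (ℓ l)))⁻¹ ^ D * x l ^ D) +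
        ∑ i, a l i * eval (v c) (P i l) := by
      rw [Finset.sum_mul, ← Finset.sum_add_distrib]
      apply Finset.sum_congr rfl
      intro i _
      rw [mul_assoc, hPe i l c]
      ring
    rw [h2, ha l c]
    congr 1
    simp only [Pi.smul_apply, smul_eq_mul]
    have h3 : eval (v c) (lform (ℓ l)) ^ D * (eval (v c) (lform (ℓ l)))⁻¹ ^ D = 1 := by
      rw [← mul_pow, mul_inv_cancel₀ (hv c l), one_pow]
    calc z l c * eval (v c) (lform (ℓ l)) ^ D *
          ((eval (v c) (lform (ℓ l)))⁻¹ ^ D * x l ^ D)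
        = z l c * (eval (v c) (lform (ℓ l)) ^ D * (eval (v c) (lform (ℓ l)))⁻¹ ^ D) *
          x l ^ D := by ring
      _ = x l ^ D * z l c := by rw [h3]; ring
  have hmem : ev (∑ l, ∑ i, a l i • P i l) ∈ Cd := by
    refine ⟨_, ?_, rfl⟩
    apply Submodule.sum_mem
    intro l _
    apply Submodule.sum_mem
    intro i _
    apply Submodule.smul_mem
    exact hPhom i l
  rw [hval, map_add, hHCd _ hmem, add_zero, map_sum]
  funext ρ
  rw [Finset.sum_apply]
  apply Finset.sum_congr rfl
  intro l _
  rw [map_smul, hz l, Pi.smul_apply, smul_eq_mul, ← hD, mul_comm]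

end Pool.Agent.OMV
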