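import Pool.Agent.Work.MP_0f1f76_lc.Fast.ParamOf
import Pool.Agent.Work.MP_0f1f76_lc.Fast.FieldGadget

namespace Pool.Agent.OMV

/-- Module PARAM (from `field_gadget` and `xorGadget_of_field`).
Parameters: `B = 2^β`, `b = c*B - 1`, `D = 2^b`, `d = n = 2^(c*(B+2))`, `K = 2*d`,
`N = 2^(2*c*B+2*c-1-β)` (so `B*N = d*D`), `e = 3*c*B+2*c+2`, `F = GaloisField 2 e`,
`m = N*e`, `s = K*e`, number of one-bit tables `t*e`. -/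
theorem gadget_family (β : ℕ) : ∃ c₀ : ℕ, ∀ c ≥ c₀, ∃ (r m s t : ℕ) (_ : XorGadget r m s t),
    0 < r ∧ 0 < m ∧ r ≤ t ∧
    s = 2 ^ (c * (2 ^ β + 2) + 1) * (3 * c * 2 ^ β + 2 * c + 2) ∧
    m * 2 ^ β * 2 = 2 ^ (c * (2 ^ β + 2)) * 2 ^ (c * 2 ^ β) * (3 * c * 2 ^ β + 2 * c + 2) ∧
    t ≤ 2 ^ (2 ^ (c * (2 ^ β + 2)) * (2 * c * (2 ^ β + 2)) + 3 * c * (2 ^ β + 2)) ∧
    t * s * 2 ^ (c * 2 ^ β) ≤ r * m * (12 * 2 ^ β * (3 * c * 2 ^ β + 2 * c + 2)) :=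
  gadget_family_of (fun _ _ _ _ => field_gadget) β

end Pool.Agent.OMV
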