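import Pool.Agent.Work.MP_0f1f76_lc.Fast.Avail

/-!
From an XOR-gadget to a straight-line program for `n × n` OMV over `F_2`.
-/

namespace Pool.Agent.OMV

open Finset

namespace Prog

/-- The tables of a gadget can be chosen linearly in the matrix. -/
theorem exists_linear {r m s t : ℕ} (g : XorGadget r m s t) :
    ∃ TL : Matrix (Fin r) (Fin m) (ZMod 2) →ₗ[ZMod 2] (Fin t → (Fin s → ZMod 2) → ZMod 2),
      ∀ M x, g.dec (fun c => TL M c (g.addr c x)) = M.mulVec x := by
  classical
  choose T hT using fun (ρ : Fin r) (j : Fin m) => g.univ (Matrix.single ρ j 1)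
  refine ⟨∑ ρ, ∑ j, (Matrix.entryLinearMap (ZMod 2) (ZMod 2) ρ j).smulRight (T ρ j), ?_⟩
  intro M x
  have h1 : (fun c => (∑ ρ, ∑ j, (Matrix.entryLinearMap (ZMod 2) (ZMod 2) ρ j).smulRight (T ρ j))
      M c (g.addr c x)) = ∑ ρ, ∑ j, M ρ j • (fun c => T ρ j c (g.addr c x)) := by
    funext c
    simp [LinearMap.sum_apply, Finset.sum_apply]
  rw [h1, map_sum]
  have h2 : M = ∑ ρ, ∑ j, M ρ j • Matrix.single ρ j (1 : ZMod 2) := by
    conv_lhs => rw [Matrix.matrix_eq_sum_single M]
    simp
  conv_rhs => rw [h2]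
  rw [Matrix.sum_mulVec]
  refine Finset.sum_congr rfl (fun ρ _ => ?_)
  rw [map_sum, Matrix.sum_mulVec]
  refine Finset.sum_congr rfl (fun j _ => ?_)
  rw [map_smul, hT, Matrix.smul_mulVec]

/-- Sum over a product range. -/
theorem sum_range_mul' {α : Type*} [AddCommMonoid α] (f : ℕ → α) (a b : ℕ) :
    ∑ q ∈ range (a * b), f q = ∑ i ∈ range a, ∑ j ∈ range b, f (i * b + j) := by
  induction a with
  | zero => simp
  | succ a ih => rw [Nat.succ_mul, Finset.sum_range_add, ih, Finset.sum_range_succ]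

theorem sum_range_extend {α : Type*} [AddCommMonoid α] (f : ℕ → α) {a b : ℕ} (h : a ≤ b)
    (hf : ∀ q, a ≤ q → f q = 0) : ∑ q ∈ range b, f q = ∑ q ∈ range a, f q := by
  symm
  refine Finset.sum_subset (Finset.range_subset_range.2 h) ?_
  intro x _ hx
  exact hf x (by simpa using hx)

section Tables

variable {r m s t : ℕ} (g : XorGadget r m s t) {n : ℕ} (w u : ℕ)

/-- Extension by zero of a vector. -/
def ext0 (x : Fin n → ZMod 2) (q : ℕ) : ZMod 2 := if h : q < n then x ⟨q, h⟩ else 0

/-- Extension by zero of a matrix. -/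
def extM (M : Matrix (Fin n) (Fin n) (ZMod 2)) (R q : ℕ) : ZMod 2 :=
  if h : R < n ∧ q < n then M ⟨R, h.1⟩ ⟨q, h.2⟩ else 0

/-- The `k`-th input word. -/
def inp (x : Fin n → ZMod 2) (k : ℕ) : Word w := fun b => ext0 x (k * w + b)

/-- The contribution of the word number `κ` of a super-group to its column group `i`. -/
def spread (m κ i : ℕ) (W : Word w) : Fin m → ZMod 2 := fun j =>
  if h : κ * w ≤ i * m + j ∧ i * m + j < κ * w + w then W ⟨i * m + j - κ * w, by omega⟩ else 0

/-- The fixed (matrix independent) tables computing address words. -/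
def baseTab (c : Fin t) (κ : ℕ) (W : Word w) : Word w := fun β =>
  if h : (β : ℕ) % s < s then g.addr c (spread w m κ (β / s) W) ⟨β % s, h⟩ else 0

/-- The `i`-th part of an address word. -/
def part (s i : ℕ) (A : Word w) : Fin s → ZMod 2 := fun p =>
  if h : i * s + p < w then A ⟨i * s + p, h⟩ else 0

/-- The column group `i` of the super-group `γ`. -/
def colv (m : ℕ) (x : Fin n → ZMod 2) (γ i : ℕ) : Fin m → ZMod 2 := fun j =>
  if i * m + j < u * w then ext0 x (γ * (u * w) + (i * m + j)) else 0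

/-- The address word of the label `c` and the super-group `γ`. -/
def addrWord (c : Fin t) (γ : ℕ) (x : Fin n → ZMod 2) : Word w :=
  ∑ κ : Fin u, baseTab g w c κ (inp w x (γ * u + κ))

theorem sum_spread (hw : 0 < w) (x : Fin n → ZMod 2) (γ i : ℕ) :
    ∑ κ : Fin u, spread w m κ i (inp w x (γ * u + κ)) = colv w u m x γ i := by
  funext j
  rw [Finset.sum_apply]
  set q := i * m + (j : ℕ) with hq
  have h1 : ∀ κ : Fin u, spread w m κ i (inp w x (γ * u + κ)) j =
      if (κ : ℕ) = q / w then ext0 x (γ * (u * w) + q) else 0 := by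
    intro κ
    by_cases hk : (κ : ℕ) = q / w
    · have h2 : (κ : ℕ) * w ≤ q ∧ q < κ * w + w := by
        rw [hk]
        have h3 := Nat.div_add_mod q w
        have h4 := Nat.mod_lt q hw
        rw [Nat.mul_comm] at h3
        omega
      rw [if_pos hk]
      unfold spread
      rw [dif_pos h2]
      unfold inp
      congr 1
      have h3 : (γ * u + (κ : ℕ)) * w = γ * (u * w) + κ * w := by ring
      simp only [h3]
      omega
    · rw [if_neg hk]
      unfold spread
      rw [dif_neg]
      rintro ⟨h2, h3⟩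
      apply hk
      symm
      refine Nat.div_eq_of_lt_le h2 ?_
      have : ((κ : ℕ) + 1) * w = κ * w + w := by ring
      rw [this]
      exact h3
  rw [Finset.sum_congr rfl (fun κ _ => h1 κ)]
  unfold colv
  by_cases hlt : q < u * w
  · rw [if_pos hlt]
    have h2 : q / w < u := by rw [Nat.div_lt_iff_lt_mul hw]; exact hlt
    rw [Finset.sum_eq_single (⟨q / w, h2⟩ : Fin u)]
    · simp [hq]
    · intro b _ hb
      rw [if_neg]
      intro h3
      apply hb
      ext
      exact h3
    · simp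
  · rw [if_neg hlt]
    refine Finset.sum_eq_zero (fun κ _ => ?_)
    rw [if_neg]
    intro h3
    apply hlt
    have h4 : q / w < u := by rw [← h3]; exact κ.2
    rwa [Nat.div_lt_iff_lt_mul hw] at h4

theorem part_addrWord (hw : 0 < w) {L : ℕ} (hL : s * L ≤ w) (c : Fin t) (γ : ℕ)
    (x : Fin n → ZMod 2) {i : ℕ} (hi : i < L) :
    part w s i (addrWord g w u c γ x) = g.addr c (colv w u m x γ i) := by
  funext p
  have hp := p.2
  have hs : 0 < s := by omega
  have h1 : i * s + (p : ℕ) < w := by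
    have h2 : (i + 1) * s ≤ L * s := Nat.mul_le_mul_right s hi
    have h3 : (i + 1) * s = i * s + s := by ring
    have h4 : L * s = s * L := by ring
    omega
  have hd : (i * s + (p : ℕ)) / s = i := by
    rw [Nat.add_comm, Nat.add_mul_div_right _ _ hs, Nat.div_eq_of_lt hp, zero_add]
  have hm : (i * s + (p : ℕ)) % s = p := by
    rw [Nat.add_comm, Nat.add_mul_mod_self_right, Nat.mod_eq_of_lt hp]
  unfold part
  rw [dif_pos h1]
  unfold addrWord
  rw [Finset.sum_apply]
  have h5 : ∀ κ : Fin u, baseTab g w c κ (inp w x (γ * u + κ)) ⟨i * s + p, h1⟩ =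
      g.addr c (spread w m κ i (inp w x (γ * u + κ))) p := by
    intro κ
    unfold baseTab
    have h6 : (i * s + (p : ℕ)) % s < s := by rw [hm]; exact hp
    rw [dif_pos h6]
    simp only [hd]
    exact congrArg _ (Fin.ext hm)
  rw [Finset.sum_congr rfl (fun κ _ => h5 κ), ← sum_spread w u hw x γ i, map_sum,
    Finset.sum_apply]

/-- The submatrix for the row group `jj`, bit `b`, super-group `γ`, column group `i`. -/
def sub (r m : ℕ) (M : Matrix (Fin n) (Fin n) (ZMod 2)) (jj γ i b : ℕ) :
    Matrix (Fin r) (Fin m) (ZMod 2) := fun ρ j =>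
  if i * m + j < u * w then extM M ((jj * r + ρ) * w + b) (γ * (u * w) + (i * m + j)) else 0

theorem sub_add (M M' : Matrix (Fin n) (Fin n) (ZMod 2)) (jj γ i b : ℕ) :
    sub w u r m (M + M') jj γ i b = sub w u r m M jj γ i b + sub w u r m M' jj γ i b := by
  ext ρ j
  simp only [sub, extM, Matrix.add_apply]
  split_ifs <;> simp

theorem sub_smul (a : ZMod 2) (M : Matrix (Fin n) (Fin n) (ZMod 2)) (jj γ i b : ℕ) :
    sub w u r m (a • M) jj γ i b = a • sub w u r m M jj γ i b := by
  ext ρ j
  simp only [sub, extM, Matrix.smul_apply]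
  split_ifs <;> simp

/-- The matrix dependent tables. -/
def preTab (TL : Matrix (Fin r) (Fin m) (ZMod 2) →ₗ[ZMod 2] (Fin t → (Fin s → ZMod 2) → ZMod 2))
    (L : ℕ) (M : Matrix (Fin n) (Fin n) (ZMod 2)) (c : Fin t) (γ jj : ℕ) (A : Word w) :
    Word w := fun b => ∑ i ∈ range L, TL (sub w u r m M jj γ i b) c (part w s i A)

theorem preTab_add (TL : Matrix (Fin r) (Fin m) (ZMod 2) →ₗ[ZMod 2]
    (Fin t → (Fin s → ZMod 2) → ZMod 2)) (L : ℕ) (M M' : Matrix (Fin n) (Fin n) (ZMod 2))
    (c : Fin t) (γ jj : ℕ) (A : Word w) :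
    preTab w u TL L (M + M') c γ jj A = preTab w u TL L M c γ jj A +
      preTab w u TL L M' c γ jj A := by
  funext b
  simp only [preTab, sub_add, map_add, Pi.add_apply, Finset.sum_add_distrib]

theorem preTab_smul (TL : Matrix (Fin r) (Fin m) (ZMod 2) →ₗ[ZMod 2]
    (Fin t → (Fin s → ZMod 2) → ZMod 2)) (L : ℕ) (a : ZMod 2)
    (M : Matrix (Fin n) (Fin n) (ZMod 2)) (c : Fin t) (γ jj : ℕ) (A : Word w) :
    preTab w u TL L (a • M) c γ jj A = a • preTab w u TL L M c γ jj A := by
  funext b
  simp only [preTab, sub_smul, map_smul, Pi.smul_apply, Finset.smul_sum]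

/-- Coefficients of the decoder. -/
def decc (ρ : Fin r) (c : Fin t) : ZMod 2 := g.dec (fun c' => if c = c' then 1 else 0) ρ

theorem dec_eq (v : Fin t → ZMod 2) (ρ : Fin r) : g.dec v ρ = ∑ c, decc g ρ c * v c := by
  rw [LinearMap.pi_apply_eq_sum_univ g.dec v, Finset.sum_apply]
  refine Finset.sum_congr rfl (fun c _ => ?_)
  simp [decc, mul_comm]

/-- The value of the output word. -/
theorem out_eq (TL : Matrix (Fin r) (Fin m) (ZMod 2) →ₗ[ZMod 2]
      (Fin t → (Fin s → ZMod 2) → ZMod 2))
    (hTL : ∀ M x, g.dec (fun c => TL M c (g.addr c x)) = M.mulVec x)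
    (hw : 0 < w) {L G : ℕ} (hL : s * L ≤ w) (hum : u * w ≤ L * m) (hG : n ≤ G * (u * w))
    (M : Matrix (Fin n) (Fin n) (ZMod 2)) (x : Fin n → ZMod 2) (jj : ℕ) (ρ : Fin r)
    (b : Fin w) :
    (∑ c, decc g ρ c • ∑ γ ∈ range G, preTab w u TL L M c γ jj (addrWord g w u c γ x)) b =
      ∑ q ∈ range n, extM M ((jj * r + ρ) * w + b) q * ext0 x q := by
  set R := (jj * r + (ρ : ℕ)) * w + (b : ℕ) with hR
  have h1 : (∑ c, decc g ρ c • ∑ γ ∈ range G, preTab w u TL L M c γ jj
      (addrWord g w u c γ x)) b =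
      ∑ γ ∈ range G, ∑ i ∈ range L, ∑ c, decc g ρ c * TL (sub w u r m M jj γ i b) c
        (g.addr c (colv w u m x γ i)) := by
    rw [Finset.sum_apply]
    simp only [Pi.smul_apply, Finset.sum_apply, smul_eq_mul, preTab]
    have h2 : ∀ c : Fin t, decc g ρ c * ∑ γ ∈ range G, ∑ i ∈ range L,
        TL (sub w u r m M jj γ i b) c (part w s i (addrWord g w u c γ x)) =
        ∑ γ ∈ range G, ∑ i ∈ range L, decc g ρ c * TL (sub w u r m M jj γ i b) c
          (g.addr c (colv w u m x γ i)) := by
      intro c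
      rw [Finset.mul_sum]
      refine Finset.sum_congr rfl (fun γ _ => ?_)
      rw [Finset.mul_sum]
      refine Finset.sum_congr rfl (fun i hi => ?_)
      rw [part_addrWord g w u hw hL c γ x (Finset.mem_range.1 hi)]
    rw [Finset.sum_congr rfl (fun c _ => h2 c), Finset.sum_comm]
    refine Finset.sum_congr rfl (fun γ _ => ?_)
    rw [Finset.sum_comm]
  rw [h1]
  have h3 : ∀ γ i, ∑ c, decc g ρ c * TL (sub w u r m M jj γ i b) c
      (g.addr c (colv w u m x γ i)) =
      ∑ j ∈ range m, (if i * m + j < u * w then extM M R (γ * (u * w) + (i * m + j)) *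
        ext0 x (γ * (u * w) + (i * m + j)) else 0) := by
    intro γ i
    rw [← dec_eq g (fun c => TL (sub w u r m M jj γ i b) c (g.addr c (colv w u m x γ i))) ρ,
      hTL, Finset.sum_range]
    unfold Matrix.mulVec
    unfold dotProduct
    refine Finset.sum_congr rfl (fun j _ => ?_)
    simp only [sub, colv]
    split_ifs <;> simp [hR]
  simp only [h3]
  have h4 : ∀ γ, ∑ i ∈ range L, ∑ j ∈ range m, (if i * m + j < u * w then
      extM M R (γ * (u * w) + (i * m + j)) * ext0 x (γ * (u * w) + (i * m + j)) else 0) =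
      ∑ q ∈ range (u * w), extM M R (γ * (u * w) + q) * ext0 x (γ * (u * w) + q) := by
    intro γ
    rw [← sum_range_mul' (fun q => if q < u * w then
      extM M R (γ * (u * w) + q) * ext0 x (γ * (u * w) + q) else 0) L m]
    rw [sum_range_extend _ hum (fun q hq => by simp only [if_neg (not_lt.2 hq)])]
    refine Finset.sum_congr rfl (fun q hq => ?_)
    rw [if_pos (Finset.mem_range.1 hq)]
  rw [Finset.sum_congr rfl (fun γ _ => h4 γ),
    ← sum_range_mul' (fun q => extM M R q * ext0 x q) G (u * w)]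
  refine sum_range_extend _ hG (fun q hq => ?_)
  have : ext0 x q = 0 := by unfold ext0; rw [dif_neg (by omega)]
  rw [this, mul_zero]

end Tables

theorem packed_getD {n : ℕ} (w : ℕ) (x : Fin n → ZMod 2) {k : ℕ}
    (hk : k < (n + w - 1) / w) : (packed w x).getD k 0 = inp w x k := by
  unfold packed
  rw [List.getD_eq_getElem _ _ (by simpa using hk)]
  simp only [List.getElem_map, List.getElem_range]
  rfl

theorem packed_length {n : ℕ} (w : ℕ) (x : Fin n → ZMod 2) :
    (packed w x).length = (n + w - 1) / w := by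
  simp [packed]

theorem inp_eq_zero {n : ℕ} {w : ℕ} (hw : 0 < w) (x : Fin n → ZMod 2) {k : ℕ}
    (hk : ¬ k < (n + w - 1) / w) : inp w x k = 0 := by
  funext b
  unfold inp ext0
  rw [dif_neg]
  · rfl
  · intro h
    apply hk
    rw [Nat.lt_div_iff_mul_lt hw] 
    omega

end Prog

open Prog in
/-- From an XOR-gadget to a straight-line program for `n × n` OMV.
`L` column groups are merged into one address (`s*L ≤ w`), `u` input words hold the `L` column
groups of one super-group (`u*w ≤ L*m`), there are `G` super-groups and `J` row groups of `r*w`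
rows each. -/
theorem program_of_gadget {r m s t : ℕ} (g : XorGadget r m s t) {n w L u G J : ℕ}
    (hw : 0 < w) (hr : 0 < r) (hu : 0 < u) (hL : s * L ≤ w) (hum : u * w ≤ L * m)
    (hG : n ≤ G * (u * w)) (hJ : n ≤ J * (r * w)) :
    ∃ (S : ℕ) (P : List Instr) (out : ℕ → ℕ)
      (pre : Matrix (Fin n) (Fin n) (ZMod 2) →ₗ[ZMod 2] (Fin S → Word w → Word w))
      (base : Fin S → Word w → Word w),
      S ≤ t * u + t * G * J ∧
      P.length ≤ 2 * (t * G * u) + 2 * (t * G * J) + r * t * J + 1 ∧
      ∀ M, Computes P out (base + pre M) M := by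
  classical
  obtain ⟨TL, hTL⟩ := exists_linear g
  let eqv : (Fin t × Fin u) ⊕ ((Fin t × Fin G) × Fin J) ≃ Fin (t * u + t * G * J) :=
    (Equiv.sumCongr finProdFinEquiv
      ((Equiv.prodCongr finProdFinEquiv (Equiv.refl (Fin J))).trans finProdFinEquiv)).trans
      finSumFinEquiv
  let base : Fin (t * u + t * G * J) → Word w → Word w := fun k =>
    Sum.elim (fun p => baseTab g w p.1 p.2) (fun _ => 0) (eqv.symm k)
  let pre : Matrix (Fin n) (Fin n) (ZMod 2) →ₗ[ZMod 2]
      (Fin (t * u + t * G * J) → Word w → Word w) :=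
    { toFun := fun M k => Sum.elim (fun _ => 0)
        (fun p : (Fin t × Fin G) × Fin J => preTab w u TL L M p.1.1 p.1.2 p.2) (eqv.symm k)
      map_add' := by
        intro M M'
        funext k
        simp only [Pi.add_apply]
        cases eqv.symm k with
        | inl p => simp
        | inr p => funext A; simp [preTab_add]
      map_smul' := by
        intro a M
        funext k
        simp only [Pi.smul_apply]
        cases eqv.symm k with
        | inl p => simp
        | inr p => funext A; simp [preTab_smul] }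
  let E := Matrix (Fin n) (Fin n) (ZMod 2) × (Fin n → ZMod 2)
  let tab : E → Fin (t * u + t * G * J) → Word w → Word w := fun e => base + pre e.1
  let init : E → List (Word w) := fun e => packed w e.2
  let n0 := (n + w - 1) / w
  have hn : ∀ e : E, (init e).length = n0 := fun e => packed_length w e.2
  have htab1 : ∀ (e : E) (c : Fin t) (κ : Fin u) (A : Word w),
      tab e (eqv (Sum.inl (c, κ))) A = baseTab g w c κ A := by
    intro e c κ A
    simp [tab, base, pre]
  have htab2 : ∀ (e : E) (c : Fin t) (γ : Fin G) (jj : Fin J) (A : Word w),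
      tab e (eqv (Sum.inr ((c, γ), jj))) A = preTab w u TL L e.1 c γ jj A := by
    intro e c γ jj A
    simp [tab, base, pre]
  -- the functions
  let inF : ℕ → E → Word w := fun k e => inp w e.2 k
  let adF : Fin t → Fin G → E → Word w := fun c γ e => addrWord g w u c γ e.2
  let yF : Fin J → Fin t → E → Word w := fun jj c e =>
    ∑ γ ∈ range G, preTab w u TL L e.1 c γ jj (addrWord g w u c γ e.2)
  let oF : Fin J → Fin r → E → Word w := fun jj ρ e => ∑ c, decc g ρ c • yF jj c e
  let A0 : Set (E → Word w) := {f | ∃ k < n0, f = inF k}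
  have hA0 : AllAvail tab init n0 [] A0 := by
    rintro f ⟨k, hk, rfl⟩
    exact ⟨k, by simpa using hk, fun e => packed_getD w e.2 hk⟩
  let A1 : Set (E → Word w) := A0 ∪ {0}
  have hinF : ∀ k, inF k ∈ A1 := by
    intro k
    by_cases hk : k < n0
    · exact Or.inl ⟨k, hk, rfl⟩
    · refine Or.inr ?_
      rw [Set.mem_singleton_iff]
      funext e
      exact inp_eq_zero hw e.2 hk
  have c1 : Cost tab init n0 A0 {0} 1 := Cost.zero hn A0
  let B2 : Set (E → Word w) := ⋃ c, ⋃ γ, {adF c γ}
  have c2 : Cost tab init n0 A1 B2 (t * (G * (u * (1 + 1)))) := by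
    refine Cost.iUnion hn (fun c => Cost.iUnion hn (fun γ => ?_))
    have h1 : adF c γ = ∑ κ : Fin u, fun e => tab e (eqv (Sum.inl (c, κ)))
        (inF ((γ : ℕ) * u + κ) e) := by
      funext e
      simp only [adF, addrWord, Finset.sum_apply, htab1, inF]
      
    rw [h1]
    exact Cost.sum hn (Or.inr rfl) (fun κ => Cost.look hn (hinF _) _)
  let B3 : Set (E → Word w) := ⋃ jj, ⋃ c, {yF jj c}
  have c3 : Cost tab init n0 (A1 ∪ B2) B3 (J * (t * (G * (1 + 1)))) := by
    refine Cost.iUnion hn (fun jj => Cost.iUnion hn (fun c => ?_))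
    have h1 : yF jj c = ∑ γ : Fin G, fun e => tab e (eqv (Sum.inr ((c, γ), jj)))
        (adF c γ e) := by
      funext e
      simp only [yF, adF, Finset.sum_apply, htab2]
      rw [Finset.sum_range]
    rw [h1]
    refine Cost.sum hn (Or.inl (Or.inr rfl)) (fun γ => Cost.look hn ?_ _)
    exact Or.inr (Set.mem_iUnion.2 ⟨c, Set.mem_iUnion.2 ⟨γ, rfl⟩⟩)
  let B4 : Set (E → Word w) := ⋃ jj, ⋃ ρ, {oF jj ρ}
  have c4 : Cost tab init n0 (A1 ∪ B2 ∪ B3) B4 (J * (r * (t * (0 + 1)))) := by
    refine Cost.iUnion hn (fun jj => Cost.iUnion hn (fun ρ => ?_))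
    have h1 : oF jj ρ = ∑ c : Fin t, fun e => decc g ρ c • yF jj c e := by
      funext e
      simp only [oF, Finset.sum_apply]
    rw [h1]
    refine Cost.sum hn (Or.inl (Or.inl (Or.inr rfl))) (fun c => Cost.refl hn ?_)
    rw [Set.singleton_subset_iff]
    rcases (by decide : ∀ z : ZMod 2, z = 0 ∨ z = 1) (decc g ρ c) with h0 | h0
    · refine Or.inl (Or.inl (Or.inr ?_))
      rw [h0, Set.mem_singleton_iff]
      funext e
      simp
    · refine Or.inr (Set.mem_iUnion.2 ⟨jj, Set.mem_iUnion.2 ⟨c, ?_⟩⟩)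
      rw [h0, Set.mem_singleton_iff]
      funext e
      simp
  have c5 : Cost tab init n0 A0 B4 (1 + (t * (G * (u * (1 + 1)))) +
      (J * (t * (G * (1 + 1)))) + (J * (r * (t * (0 + 1))))) := by
    have h12 := c1.trans c2
    have h13 : Cost tab init n0 A0 (({0} ∪ B2) ∪ B3) _ :=
      h12.trans (by rw [← Set.union_assoc]; exact c3)
    have h14 : Cost tab init n0 A0 ((({0} ∪ B2) ∪ B3) ∪ B4) _ :=
      h13.trans (by rw [← Set.union_assoc, ← Set.union_assoc]; exact c4)
    exact h14.mono hn (subset_refl _) Set.subset_union_right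
  obtain ⟨Q, hQ, hav⟩ := c5 [] hA0
  have hout : ∀ (jj : Fin J) (ρ : Fin r), ∃ i, Avail tab init n0 ([] ++ Q) i (oF jj ρ) := by
    intro jj ρ
    exact hav _ (Or.inr (Set.mem_iUnion.2 ⟨jj, Set.mem_iUnion.2 ⟨ρ, rfl⟩⟩))
  choose reg hreg using hout
  have hidx : ∀ q, q < J * r → q / r < J ∧ q % r < r := by
    intro q hq
    exact ⟨by rwa [Nat.div_lt_iff_lt_mul hr], Nat.mod_lt _ hr⟩
  let out : ℕ → ℕ := fun q => if h : q < J * r then
    reg ⟨q / r, (hidx q h).1⟩ ⟨q % r, (hidx q h).2⟩ else 0
  refine ⟨t * u + t * G * J, Q, out, pre, base, le_refl _, ?_, ?_⟩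
  · refine hQ.trans (le_of_eq ?_)
    ring
  · intro M x i b hb
    have hi := i.2
    have hq : (i : ℕ) / w < J * r := by
      rw [Nat.div_lt_iff_lt_mul hw]
      have : J * r * w = J * (r * w) := by ring
      omega
    have h1 : out ((i : ℕ) / w) = reg ⟨(i : ℕ) / w / r, (hidx _ hq).1⟩
        ⟨(i : ℕ) / w % r, (hidx _ hq).2⟩ := by
      simp only [out]
      rw [dif_pos hq]
    rw [h1]
    have h2 := (hreg ⟨(i : ℕ) / w / r, (hidx _ hq).1⟩ ⟨(i : ℕ) / w % r, (hidx _ hq).2⟩).2 (M, x)
    rw [List.nil_append] at h2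
    change ((run (tab (M, x)) (init (M, x)) Q).getD _ 0) b = _
    rw [h2]
    have h3 := out_eq g w u TL hTL hw hL hum hG M x ((i : ℕ) / w / r)
      ⟨(i : ℕ) / w % r, (hidx _ hq).2⟩ b
    change (∑ c, decc g _ c • ∑ γ ∈ range G, preTab w u TL L M c γ _
      (addrWord g w u c γ x)) b = _
    rw [h3]
    have h4 : (((i : ℕ) / w / r) * r + (i : ℕ) / w % r) * w + b = i := by
      rw [Nat.div_add_mod', hb, Nat.div_add_mod']
    rw [h4, Finset.sum_range]
    unfold Matrix.mulVec dotProduct
    refine Finset.sum_congr rfl (fun q _ => ?_)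
    simp [extM, ext0]

end Pool.Agent.OMV
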