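import Pool.Agent.Work.MP_0f1f76_lc.Fast.FinalCore
import Pool.Agent.Work.MP_0f1f76_lc.Fast.Param
import Pool.Agent.Work.MP_0f1f76_lc.Fast.Program

/-!
Module FINAL: the fast online matrix-vector multiplication over `F_2`.
-/

namespace Pool.Agent.OMV

theorem fast_omv (a : ℝ) (ha : a < 3) : ∃ n₀ : ℕ, ∀ n : ℕ, n₀ ≤ n →
    ∃ (S : ℕ) (P : List Instr) (out : ℕ → ℕ)
      (pre : Matrix (Fin n) (Fin n) (ZMod 2) →ₗ[ZMod 2]
        (Fin S → Word (Nat.clog 2 n) → Word (Nat.clog 2 n)))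
      (base : Fin S → Word (Nat.clog 2 n) → Word (Nat.clog 2 n)),
      S ≤ n ^ 2 ∧
      (P.length : ℝ) ≤ (n : ℝ) ^ 2 / (Real.logb 2 n) ^ a ∧
      ∀ M, Computes P out (base + pre M) M :=
  fast_omv_of gadget_family
    (by
      intro r m s t g n w L u G J hw hr hu hL hum hG hJ
      exact program_of_gadget g hw hr hu hL hum hG hJ) a ha

end Pool.Agent.OMV
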