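import Pool.Agent.Work.MP_0f1f76_lc.Fast.Model

/-!
Module FINAL: the choice of the parameters.
-/

namespace Pool.Agent.OMV

open Filter Topology

/-- The statement of module PARAM. -/
def GadgetFamily : Prop := ∀ β : ℕ, ∃ c₀ : ℕ, ∀ c ≥ c₀, ∃ (r m s t : ℕ) (_ : XorGadget r m s t),
    0 < r ∧ 0 < m ∧ r ≤ t ∧
    s = 2 ^ (c * (2 ^ β + 2) + 1) * (3 * c * 2 ^ β + 2 * c + 2) ∧
    m * 2 ^ β * 2 = 2 ^ (c * (2 ^ β + 2)) * 2 ^ (c * 2 ^ β) * (3 * c * 2 ^ β + 2 * c + 2) ∧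
    t ≤ 2 ^ (2 ^ (c * (2 ^ β + 2)) * (2 * c * (2 ^ β + 2)) + 3 * c * (2 ^ β + 2)) ∧
    t * s * 2 ^ (c * 2 ^ β) ≤ r * m * (12 * 2 ^ β * (3 * c * 2 ^ β + 2 * c + 2))

/-- The statement of the module PROGRAM. -/
def ProgramOfGadget : Prop :=
    ∀ {r m s t : ℕ} (_ : XorGadget r m s t) {n w L u G J : ℕ}
    (_ : 0 < w) (_ : 0 < r) (_ : 0 < u) (_ : s * L ≤ w) (_ : u * w ≤ L * m)
    (_ : n ≤ G * (u * w)) (_ : n ≤ J * (r * w)),
    ∃ (S : ℕ) (P : List Instr) (out : ℕ → ℕ)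
      (pre : Matrix (Fin n) (Fin n) (ZMod 2) →ₗ[ZMod 2] (Fin S → Word w → Word w))
      (base : Fin S → Word w → Word w),
      S ≤ t * u + t * G * J ∧
      P.length ≤ 2 * (t * G * u) + 2 * (t * G * J) + r * t * J + 1 ∧
      ∀ M, Computes P out (base + pre M) M

/-- The size scale of the gadget number `c`. -/
def Qf (B c : ℕ) : ℕ := 2 ^ (c * (B + 2)) * (6 * (c * (B + 2)))

lemma Qf_ge (B c : ℕ) : c ≤ Qf B c := by
  unfold Qf
  have h1 : 1 ≤ 2 ^ (c * (B + 2)) := Nat.one_le_two_pow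
  nlinarith [Nat.zero_le (c * B)]

lemma pick_c (B c₁ w : ℕ) (h : 16 * Qf B c₁ ≤ w) :
    ∃ c, c₁ ≤ c ∧ 16 * Qf B c ≤ w ∧ w < 16 * Qf B (c + 1) := by
  classical
  have hex : ∃ c, c₁ < c ∧ w < 16 * Qf B c := by
    refine ⟨w + c₁ + 1, by omega, ?_⟩
    have := Qf_ge B (w + c₁ + 1)
    omega
  obtain ⟨h1, h2⟩ := Nat.find_spec hex
  set c' := Nat.find hex with hc'
  refine ⟨c' - 1, by omega, ?_, ?_⟩
  · by_contra hcon
    push Not at hcon
    rcases Nat.lt_or_ge c₁ (c' - 1) with h3 | h3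
    · have := Nat.find_min hex (m := c' - 1) (by omega)
      exact this ⟨h3, hcon⟩
    · have : c' - 1 = c₁ := by omega
      rw [this] at hcon
      omega
  · rwa [Nat.sub_add_cancel (by omega)]

lemma big_w : ∃ w₀ : ℕ, ∀ w ≥ w₀, 14 * w ^ 3 * 2 ^ (w / 16) ≤ 2 ^ (w - 1) := by
  have h1 : ∀ v : ℕ, 25 ≤ v → 28 * (2 * v + 1) ^ 3 ≤ 2 ^ v := by
    intro v hv
    induction v, hv using Nat.le_induction with
    | base => norm_num
    | succ v hv ih =>
      rw [pow_succ 2 v]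
      have : 28 * (2 * (v + 1) + 1) ^ 3 ≤ 2 * (28 * (2 * v + 1) ^ 3) := by
        obtain ⟨z, rfl⟩ := Nat.exists_eq_add_of_le hv
        ring_nf
        nlinarith [Nat.zero_le z, Nat.zero_le (z ^ 2), Nat.zero_le (z ^ 3)]
      omega
  refine ⟨51, fun w hw => ?_⟩
  have h2 := h1 (w / 2) (by omega)
  have h3 : w ≤ 2 * (w / 2) + 1 := by omega
  have h4 : w ^ 3 ≤ (2 * (w / 2) + 1) ^ 3 := Nat.pow_le_pow_left h3 3
  have h5 : 2 * (14 * w ^ 3 * 2 ^ (w / 16)) ≤ 2 * 2 ^ (w - 1) := by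
    calc 2 * (14 * w ^ 3 * 2 ^ (w / 16)) = (28 * w ^ 3) * 2 ^ (w / 16) := by ring
      _ ≤ (28 * (2 * (w / 2) + 1) ^ 3) * 2 ^ (w / 16) := by gcongr
      _ ≤ 2 ^ (w / 2) * 2 ^ (w / 16) := by gcongr
      _ = 2 ^ (w / 2 + w / 16) := by rw [pow_add]
      _ ≤ 2 ^ w := Nat.pow_le_pow_right (by norm_num) (by omega)
      _ = 2 * 2 ^ (w - 1) := by
        rw [← pow_succ']
        congr 1
        omega
  omega

lemma rate (θ : ℝ) (hθ0 : 0 < θ) (hθ1 : θ < 1) (B : ℕ) (hB : θ * (B + 2) < B) :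
    ∃ c₁ : ℕ, ∀ c : ℕ, c₁ ≤ c →
      768 * (B : ℝ) * (3 * c * B + 2 * c + 2) * ((16 * Qf B (c + 1) : ℕ) : ℝ) ^ θ ≤
        2 ^ (c * B) := by
  set δ : ℝ := B - θ * (B + 2) with hδ
  have hδ0 : 0 < δ := by linarith
  set ρ : ℝ := 2 ^ δ with hρ
  have hρ1 : 1 < ρ := Real.one_lt_rpow (by norm_num) hδ0
  have hlim := tendsto_pow_const_div_const_pow_of_one_lt 2 hρ1
  set C : ℝ := 768 * B * (3 * B + 2) * (96 * (B + 2)) * 2 ^ ((B : ℝ) + 2) with hC
  have hC0 : 0 ≤ C := by positivity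
  have hev : ∀ᶠ c : ℕ in atTop, (c : ℝ) ^ 2 / ρ ^ c < 1 / (4 * (C + 1)) :=
    hlim.eventually_lt_const (by positivity)
  obtain ⟨c₁, hc₁⟩ := eventually_atTop.1 hev
  refine ⟨c₁ + 1, fun c hc => ?_⟩
  have h1 := hc₁ c (by omega)
  have hcpos : (1 : ℝ) ≤ c := by exact_mod_cast (by omega : 1 ≤ c)
  have hρc : 0 < ρ ^ c := by positivity
  rw [div_lt_div_iff₀ hρc (by positivity), one_mul] at h1
  have h2 : C * ((c : ℝ) + 1) ^ 2 ≤ ρ ^ c := by
    have : ((c : ℝ) + 1) ^ 2 ≤ 4 * (c : ℝ) ^ 2 := by nlinarith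
    nlinarith [sq_nonneg (c : ℝ), sq_nonneg ((c : ℝ) + 1)]
  have h3 : ((16 * Qf B (c + 1) : ℕ) : ℝ) =
      (96 * (((c : ℝ) + 1) * (B + 2))) * 2 ^ (((c : ℝ) + 1) * (B + 2)) := by
    unfold Qf
    push_cast
    rw [← Real.rpow_natCast 2]
    push_cast
    ring
  have h4 : ((16 * Qf B (c + 1) : ℕ) : ℝ) ^ θ ≤
      (96 * (((c : ℝ) + 1) * (B + 2))) * (2 ^ ((B : ℝ) + 2) * 2 ^ (c * (B + 2) * θ)) := by
    rw [h3, Real.mul_rpow (by positivity) (by positivity), ← Real.rpow_mul (by norm_num)]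
    apply mul_le_mul
    · have h5 : (1 : ℝ) ≤ 96 * (((c : ℝ) + 1) * (B + 2)) := by
        nlinarith [Nat.cast_nonneg (α := ℝ) B]
      calc (96 * (((c : ℝ) + 1) * (B + 2))) ^ θ ≤ (96 * (((c : ℝ) + 1) * (B + 2))) ^ (1 : ℝ) :=
            Real.rpow_le_rpow_of_exponent_le h5 hθ1.le
        _ = _ := Real.rpow_one _
    · rw [← Real.rpow_add (by norm_num)]
      apply Real.rpow_le_rpow_of_exponent_le (by norm_num)
      nlinarith [Nat.cast_nonneg (α := ℝ) B]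
    · positivity
    · positivity
  have h5 : ρ ^ c * 2 ^ ((c : ℝ) * (B + 2) * θ) = (2 : ℝ) ^ (c * B) := by
    rw [hρ, ← Real.rpow_natCast, ← Real.rpow_mul (by norm_num), ← Real.rpow_add (by norm_num),
      ← Real.rpow_natCast 2]
    congr 1
    rw [hδ]
    push_cast
    ring
  have h6 : (3 * (c : ℝ) * B + 2 * c + 2) ≤ (3 * B + 2) * (c + 1) := by
    nlinarith [Nat.cast_nonneg (α := ℝ) B]
  have hP : (0 : ℝ) < 2 ^ ((c : ℝ) * (B + 2) * θ) := by positivity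
  calc 768 * (B : ℝ) * (3 * c * B + 2 * c + 2) * ((16 * Qf B (c + 1) : ℕ) : ℝ) ^ θ
      ≤ 768 * (B : ℝ) * ((3 * B + 2) * (c + 1)) *
        ((96 * (((c : ℝ) + 1) * (B + 2))) * (2 ^ ((B : ℝ) + 2) * 2 ^ (c * (B + 2) * θ))) := by
        gcongr
    _ = (C * ((c : ℝ) + 1) ^ 2) * 2 ^ ((c : ℝ) * (B + 2) * θ) := by
        rw [hC]
        ring
    _ ≤ ρ ^ c * 2 ^ ((c : ℝ) * (B + 2) * θ) := by gcongr
    _ = _ := h5

/-- One size: the gadget becomes a program. -/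
lemma final_step (program_of_gadget : ProgramOfGadget) {r m s t n w : ℕ}
    (g : XorGadget r m s t) (hr : 0 < r) (hrt : r ≤ t)
    (hs : 0 < s) (hsw : 16 * s ≤ w) (ht : t ≤ 2 ^ (w / 16)) (hm1 : 2 * s ≤ m)
    (hm2 : m ≤ s * w) (hn1 : w * w ≤ n) (hn2 : w * 2 ^ (w / 16) ≤ n) (σ : ℝ)
    (hσ : (t : ℝ) * s * σ ≤ r * m) (hσ0 : 0 < σ) :
    ∃ (S : ℕ) (P : List Instr) (out : ℕ → ℕ)
      (pre : Matrix (Fin n) (Fin n) (ZMod 2) →ₗ[ZMod 2] (Fin S → Word w → Word w))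
      (base : Fin S → Word w → Word w),
      (S : ℝ) ≤ 2 ^ (w / 16) * n + 16 * n ^ 2 / (σ * w ^ 2) ∧
      (P.length : ℝ) ≤ 32 * n ^ 2 / (σ * w ^ 2) + 6 * 2 ^ (w / 16) * n + 1 ∧
      ∀ M, Computes P out (base + pre M) M := by
  have hw : 0 < w := by omega
  have ht0 : 0 < t := by omega
  set L := w / s with hL
  have hL1 : s * L ≤ w := Nat.mul_div_le w s
  have hL2 : w < s * (L + 1) := Nat.lt_mul_div_succ w hs
  have hLpos : 1 ≤ L := by
    rw [hL, Nat.one_le_div_iff hs]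
    omega
  have hL3 : w ≤ 2 * (s * L) := by nlinarith
  set u := L * m / w with hu
  have hu1 : w * u ≤ L * m := Nat.mul_div_le _ _
  have hu2 : L * m < w * (u + 1) := Nat.lt_mul_div_succ _ hw
  have hLm : w ≤ L * m := by nlinarith
  have hupos : 1 ≤ u := by
    rw [hu, Nat.one_le_div_iff hw]
    exact hLm
  have hu3 : L * m ≤ 2 * (w * u) := by nlinarith
  have hmu : m ≤ 4 * (s * u) := by
    have h1 : w * m ≤ w * (4 * (s * u)) := by
      calc w * m ≤ 2 * (s * L) * m := Nat.mul_le_mul_right _ hL3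
        _ = 2 * s * (L * m) := by ring
        _ ≤ 2 * s * (2 * (w * u)) := Nat.mul_le_mul_left _ hu3
        _ = w * (4 * (s * u)) := by ring
    exact Nat.le_of_mul_le_mul_left h1 hw
  have huw : u * w ≤ n := by
    calc u * w = w * u := mul_comm _ _
      _ ≤ L * m := hu1
      _ ≤ L * (s * w) := Nat.mul_le_mul_left _ hm2
      _ = (s * L) * w := by ring
      _ ≤ w * w := Nat.mul_le_mul_right _ hL1
      _ ≤ n := hn1
  have hrw : r * w ≤ n := by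
    calc r * w ≤ 2 ^ (w / 16) * w := Nat.mul_le_mul_right _ (hrt.trans ht)
      _ = w * 2 ^ (w / 16) := mul_comm _ _
      _ ≤ n := hn2
  have huw0 : 0 < u * w := Nat.mul_pos hupos hw
  have hrw0 : 0 < r * w := Nat.mul_pos hr hw
  have ceil : ∀ q : ℕ, 0 < q → q ≤ n → ∃ G : ℕ, n ≤ G * q ∧ G * q ≤ 2 * n := by
    intro q hq hqn
    refine ⟨(n + q - 1) / q, ?_, ?_⟩
    · have := Nat.lt_mul_div_succ (n + q - 1) hq
      have e : q * ((n + q - 1) / q + 1) = (n + q - 1) / q * q + q := by ring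
      omega
    · have := Nat.div_mul_le_self (n + q - 1) q
      omega
  obtain ⟨G, hG1, hG2⟩ := ceil (u * w) huw0 huw
  obtain ⟨J, hJ1, hJ2⟩ := ceil (r * w) hrw0 hrw
  obtain ⟨S, P, out, pre, base, hS, hP, hM⟩ := program_of_gadget g (n := n) (w := w) (L := L)
    (u := u) (G := G) (J := J) hw hr hupos hL1 (by rw [mul_comm]; exact hu1) hG1 hJ1
  refine ⟨S, P, out, pre, base, ?_, ?_, hM⟩
  all_goals
    have hw' : (0 : ℝ) < w := by exact_mod_cast hw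
    have hs' : (0 : ℝ) < s := by exact_mod_cast hs
    have ht' : (0 : ℝ) < t := by exact_mod_cast ht0
    have hr' : (0 : ℝ) < r := by exact_mod_cast hr
    have hu' : (0 : ℝ) < u := by exact_mod_cast hupos
    have hG' : (G : ℝ) * (u * w) ≤ 2 * n := by exact_mod_cast hG2
    have hJ' : (J : ℝ) * (r * w) ≤ 2 * n := by exact_mod_cast hJ2
    have hmu' : (m : ℝ) ≤ 4 * (s * u) := by exact_mod_cast hmu
    have ht2 : (t : ℝ) ≤ 2 ^ (w / 16) := by exact_mod_cast ht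
    have hGJ : (t : ℝ) * G * J ≤ 16 * n ^ 2 / (σ * w ^ 2) := by
      rw [le_div_iff₀ (by positivity)]
      have h1 : (G : ℝ) * (u * w) * (J * (r * w)) ≤ 2 * n * (2 * n) :=
        mul_le_mul hG' hJ' (by positivity) (by positivity)
      have h2 : (t : ℝ) * s * σ ≤ r * (4 * (s * u)) :=
        hσ.trans (mul_le_mul_of_nonneg_left hmu' hr'.le)
      have h3 : (t : ℝ) * σ ≤ 4 * (r * u) := by
        have : (s : ℝ) * (t * σ) ≤ s * (4 * (r * u)) := by nlinarith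
        exact le_of_mul_le_mul_left this hs'
      calc (t : ℝ) * G * J * (σ * (w : ℝ) ^ 2) = (t * σ) * (G * J * (w : ℝ) ^ 2) := by ring
        _ ≤ (4 * (r * u)) * (G * J * (w : ℝ) ^ 2) := by gcongr
        _ = 4 * (G * (u * w) * (J * (r * w))) := by ring
        _ ≤ 4 * (2 * (n : ℝ) * (2 * n)) := by gcongr
        _ = 16 * (n : ℝ) ^ 2 := by ring
    have hw1 : (1 : ℝ) ≤ w := by exact_mod_cast hw
  · have hS' : (S : ℝ) ≤ t * u + t * G * J := by exact_mod_cast hS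
    have h1 : (u : ℝ) ≤ n := by
      have : u ≤ n := by nlinarith
      exact_mod_cast this
    calc (S : ℝ) ≤ t * u + t * G * J := hS'
      _ ≤ 2 ^ (w / 16) * n + 16 * n ^ 2 / (σ * w ^ 2) := by
        apply add_le_add _ hGJ
        exact mul_le_mul ht2 h1 (by positivity) (by positivity)
  · have hP' : (P.length : ℝ) ≤ 2 * (t * G * u) + 2 * (t * G * J) + r * t * J + 1 := by
      exact_mod_cast hP
    have h1 : (G : ℝ) * u ≤ 2 * n := by
      have : (G : ℝ) * u ≤ G * (u * w) := by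
        have : (G : ℝ) * u * 1 ≤ G * u * w := by gcongr
        nlinarith
      linarith
    have h2 : (J : ℝ) * r ≤ 2 * n := by
      have : (J : ℝ) * r ≤ J * (r * w) := by
        have : (J : ℝ) * r * 1 ≤ J * r * w := by gcongr
        nlinarith
      linarith
    have h3 : (t : ℝ) * G * u ≤ 2 ^ (w / 16) * (2 * n) := by
      calc (t : ℝ) * G * u = t * (G * u) := by ring
        _ ≤ _ := mul_le_mul ht2 h1 (by positivity) (by positivity)
    have h4 : (r : ℝ) * t * J ≤ 2 ^ (w / 16) * (2 * n) := by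
      calc (r : ℝ) * t * J = t * (J * r) := by ring
        _ ≤ _ := mul_le_mul ht2 h2 (by positivity) (by positivity)
    calc (P.length : ℝ) ≤ 2 * (t * G * u) + 2 * (t * G * J) + r * t * J + 1 := hP'
      _ ≤ 2 * (2 ^ (w / 16) * (2 * n)) + 2 * (16 * n ^ 2 / (σ * w ^ 2)) +
          2 ^ (w / 16) * (2 * n) + 1 := by gcongr
      _ = _ := by ring

/-- Module FINAL: for `a < 3` and `w = clog 2 n`. -/
theorem fast_omv_of (gadget_family : GadgetFamily) (program_of_gadget : ProgramOfGadget)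
    (a : ℝ) (ha : a < 3) : ∃ n₀ : ℕ, ∀ n : ℕ, n₀ ≤ n →
    ∃ (S : ℕ) (P : List Instr) (out : ℕ → ℕ)
      (pre : Matrix (Fin n) (Fin n) (ZMod 2) →ₗ[ZMod 2]
        (Fin S → Word (Nat.clog 2 n) → Word (Nat.clog 2 n)))
      (base : Fin S → Word (Nat.clog 2 n) → Word (Nat.clog 2 n)),
      S ≤ n ^ 2 ∧
      (P.length : ℝ) ≤ (n : ℝ) ^ 2 / (Real.logb 2 n) ^ a ∧
      ∀ M, Computes P out (base + pre M) M := by
  set a' : ℝ := max a (5 / 2) with ha'
  have ha1 : a ≤ a' := le_max_left _ _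
  have ha2 : 5 / 2 ≤ a' := le_max_right _ _
  have ha3 : a' < 3 := max_lt ha (by norm_num)
  set θ : ℝ := a' - 2 with hθ
  have hθ0 : 0 < θ := by linarith
  have hθ1 : θ < 1 := by linarith
  obtain ⟨β, hβ⟩ := pow_unbounded_of_one_lt (2 * θ / (1 - θ)) (one_lt_two (α := ℝ))
  set B : ℕ := 2 ^ β with hB
  have hB1 : 1 ≤ B := Nat.one_le_two_pow
  have hBθ : θ * ((B : ℝ) + 2) < B := by
    have h1 : (B : ℝ) = 2 ^ β := by
      rw [hB]
      push_cast
      rfl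
    rw [h1]
    rw [div_lt_iff₀ (by linarith)] at hβ
    linarith
  obtain ⟨c₀, hc₀⟩ := gadget_family β
  obtain ⟨c₁, hc₁⟩ := rate θ hθ0 hθ1 B hBθ
  obtain ⟨w₀, hw₀⟩ := big_w
  set c₂ : ℕ := max c₀ (max c₁ 4) with hc₂
  refine ⟨2 ^ (max w₀ (16 * Qf B c₂) + 2), fun n hn => ?_⟩
  set w := Nat.clog 2 n with hw
  have hwW : max w₀ (16 * Qf B c₂) + 2 ≤ w := by
    have := Nat.clog_mono_right 2 hn
    rwa [Nat.clog_pow 2 _ (by norm_num)] at this
  have hw1 : w₀ ≤ w := by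
    have := le_max_left w₀ (16 * Qf B c₂)
    omega
  have hw2 : 16 * Qf B c₂ ≤ w := by
    have := le_max_right w₀ (16 * Qf B c₂)
    omega
  have hw3 : 2 ≤ w := by omega
  have hn2 : 2 ≤ n := by
    have h1 : 2 ^ 1 ≤ 2 ^ (max w₀ (16 * Qf B c₂) + 2) :=
      Nat.pow_le_pow_right (by norm_num) (by omega)
    omega
  have hnw : 2 ^ (w - 1) ≤ n := (Nat.pow_pred_clog_lt_self (by norm_num) (by omega)).le
  have hbig : 14 * w ^ 3 * 2 ^ (w / 16) ≤ n := (hw₀ w hw1).trans hnw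
  obtain ⟨c, hcc, hQ1, hQ2⟩ := pick_c B c₂ w hw2
  have hc_0 : c₀ ≤ c := (le_max_left _ _).trans hcc
  have hc_1 : c₁ ≤ c := ((le_max_left _ _).trans (le_max_right _ _)).trans hcc
  have hc_4 : 4 ≤ c := ((le_max_right _ _).trans (le_max_right _ _)).trans hcc
  obtain ⟨r, m, s, t, g, hr, hm, hrt, hs, hmB, ht, hts⟩ := hc₀ c hc_0
  rw [← hB] at hs hmB ht hts
  set E := c * (B + 2) with hE
  set e := 3 * c * B + 2 * c + 2 with he
  have hcB : c * B ≤ E := by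
    rw [hE]
    exact Nat.mul_le_mul_left _ (by omega)
  have he0 : 0 < e := by omega
  have hs' : s = 2 ^ E * (2 * e) := by
    rw [hs, pow_succ]
    ring
  have hs0 : 0 < s := by
    rw [hs']
    positivity
  have heE : 2 * e ≤ 6 * E := by
    rw [he, hE]
    nlinarith
  have hsQ : s ≤ Qf B c := by
    rw [hs']
    exact Nat.mul_le_mul_left _ heE
  have htQ : t ≤ 2 ^ (w / 16) := by
    refine ht.trans (Nat.pow_le_pow_right (by norm_num) ?_)
    have h1 : 1 ≤ 2 ^ E := Nat.one_le_two_pow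
    have h2 : 2 ^ E * (2 * c * (B + 2)) + 3 * c * (B + 2) ≤ Qf B c := by
      have e1 : 2 * c * (B + 2) = 2 * E := by
        rw [hE]
        ring
      have e2 : 3 * c * (B + 2) = 3 * E := by
        rw [hE]
        ring
      have e3 : Qf B c = 2 ^ E * (6 * E) := rfl
      rw [e1, e2, e3]
      nlinarith
    omega
  have h8 : 8 * B ≤ 2 ^ (c * B) := by
    have h1 : β + 3 ≤ c * B := by
      have h2 : β < 2 ^ β := Nat.lt_two_pow_self
      rw [← hB] at h2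
      nlinarith
    calc 8 * B = 2 ^ (β + 3) := by
          rw [pow_add, hB]
          ring
      _ ≤ _ := Nat.pow_le_pow_right (by norm_num) h1
  have hm1 : 2 * s ≤ m := by
    have h1 : (2 * s) * (B * 2) ≤ m * (B * 2) := by
      calc (2 * s) * (B * 2) = 2 ^ E * e * (8 * B) := by
            rw [hs']
            ring
        _ ≤ 2 ^ E * e * 2 ^ (c * B) := Nat.mul_le_mul_left _ h8
        _ = m * (B * 2) := by
            rw [← mul_assoc m, hmB]
            ring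
    exact Nat.le_of_mul_le_mul_right h1 (by omega)
  have hm2 : m ≤ s * w := by
    have h1 : 2 ^ (c * B) ≤ w := by
      have h2 : 2 ^ (c * B) ≤ 2 ^ E := Nat.pow_le_pow_right (by norm_num) hcB
      have h3 : 2 ^ E * 1 ≤ Qf B c := Nat.mul_le_mul_left _ (by omega)
      omega
    have h4 : m * 2 ≤ (s * 2 ^ (c * B)) * 2 := by
      calc m * 2 ≤ m * B * 2 := by nlinarith
        _ = 2 ^ E * 2 ^ (c * B) * e := hmB
        _ ≤ 2 ^ E * 2 ^ (c * B) * e * 4 := by omega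
        _ = (s * 2 ^ (c * B)) * 2 := by
            rw [hs']
            ring
    have h5 : m ≤ s * 2 ^ (c * B) := by omega
    exact h5.trans (Nat.mul_le_mul_left _ h1)
  have hone : 1 ≤ 2 ^ (w / 16) := Nat.one_le_two_pow
  have hww : w * w ≤ n := by
    calc w * w ≤ 14 * w ^ 3 * 2 ^ (w / 16) := by
          have : w * w ≤ 14 * w ^ 3 := by nlinarith [Nat.zero_le (w ^ 2)]
          nlinarith
      _ ≤ n := hbig
  have hw16 : w * 2 ^ (w / 16) ≤ n := by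
    refine le_trans ?_ hbig
    apply Nat.mul_le_mul_right
    nlinarith [Nat.zero_le (w ^ 2), Nat.zero_le (w ^ 3)]
  have hBr : (0 : ℝ) < B := by exact_mod_cast hB1
  have her : (0 : ℝ) < e := by exact_mod_cast he0
  have hnr : (0 : ℝ) < n := by exact_mod_cast (by omega : 0 < n)
  have hwr : (2 : ℝ) ≤ w := by exact_mod_cast hw3
  set σ : ℝ := 2 ^ (c * B) / (12 * B * e) with hσdef
  have hσ0 : 0 < σ := by positivity
  have hσ : (t : ℝ) * s * σ ≤ r * m := by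
    have h1 : (t : ℝ) * s * 2 ^ (c * B) ≤ r * m * (12 * B * e) := by exact_mod_cast hts
    rw [hσdef, ← mul_div_assoc, div_le_iff₀ (by positivity)]
    exact h1
  have hrate := hc₁ c hc_1
  have hσw : 64 * (w : ℝ) ^ θ ≤ σ := by
    rw [hσdef, le_div_iff₀ (by positivity)]
    have h1 : (w : ℝ) ^ θ ≤ ((16 * Qf B (c + 1) : ℕ) : ℝ) ^ θ := by
      apply Real.rpow_le_rpow (by positivity) _ hθ0.le
      exact_mod_cast hQ2.le
    have h2 : (e : ℝ) = 3 * c * B + 2 * c + 2 := by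
      rw [he]
      push_cast
      ring
    rw [← h2] at hrate
    calc 64 * (w : ℝ) ^ θ * (12 * B * e) = 768 * B * e * (w : ℝ) ^ θ := by ring
      _ ≤ 768 * B * e * ((16 * Qf B (c + 1) : ℕ) : ℝ) ^ θ := by gcongr
      _ ≤ _ := hrate
  obtain ⟨S, P, out, pre, base, hS, hP, hM⟩ := final_step program_of_gadget g hr hrt hs0
    (by omega) htQ hm1 hm2 hww hw16 σ hσ hσ0
  have hwa : (0 : ℝ) < (w : ℝ) ^ a' := by positivity
  have hwa3 : (w : ℝ) ^ a' ≤ (w : ℝ) ^ 3 := by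
    rw [← Real.rpow_natCast]
    apply Real.rpow_le_rpow_of_exponent_le (by linarith)
    push_cast
    linarith
  have hwa1 : 1 ≤ (w : ℝ) ^ a' := Real.one_le_rpow (by linarith) (by linarith)
  have key : (n : ℝ) ^ 2 / (σ * w ^ 2) ≤ n ^ 2 / (64 * (w : ℝ) ^ a') := by
    apply div_le_div_of_nonneg_left (by positivity) (by positivity)
    have h1 : (w : ℝ) ^ a' = (w : ℝ) ^ θ * w ^ 2 := by
      rw [← Real.rpow_natCast (w : ℝ) 2, ← Real.rpow_add (by linarith)]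
      congr 1
      rw [hθ]
      push_cast
      ring
    rw [h1]
    nlinarith [sq_nonneg (w : ℝ)]
  have hbig' : 14 * (w : ℝ) ^ 3 * 2 ^ (w / 16) ≤ n := by exact_mod_cast hbig
  refine ⟨S, P, out, pre, base, ?_, ?_, hM⟩
  · have h1 : (S : ℝ) ≤ (n : ℝ) ^ 2 := by
      have h2 : 16 * (n : ℝ) ^ 2 / (σ * w ^ 2) ≤ (n : ℝ) ^ 2 / 4 := by
        calc 16 * (n : ℝ) ^ 2 / (σ * w ^ 2) = 16 * ((n : ℝ) ^ 2 / (σ * w ^ 2)) := by ring
          _ ≤ 16 * (n ^ 2 / (64 * (w : ℝ) ^ a')) := by gcongr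
          _ ≤ 16 * (n ^ 2 / (64 * 1)) := by gcongr
          _ = _ := by ring
      have h3 : 2 ^ (w / 16) * (n : ℝ) ≤ (n : ℝ) ^ 2 / 4 := by
        have h4 : (1 : ℝ) ≤ (w : ℝ) ^ 3 := hwa1.trans hwa3
        have h5 : (0 : ℝ) < 2 ^ (w / 16) := by positivity
        have h6 : 4 * (2 : ℝ) ^ (w / 16) ≤ n := by nlinarith
        nlinarith
      calc (S : ℝ) ≤ 2 ^ (w / 16) * n + 16 * n ^ 2 / (σ * w ^ 2) := hS
        _ ≤ (n : ℝ) ^ 2 / 4 + (n : ℝ) ^ 2 / 4 := by gcongr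
        _ ≤ _ := by nlinarith
    exact_mod_cast h1
  · have h2 : 32 * (n : ℝ) ^ 2 / (σ * w ^ 2) ≤ (n : ℝ) ^ 2 / (2 * (w : ℝ) ^ a') := by
      calc 32 * (n : ℝ) ^ 2 / (σ * w ^ 2) = 32 * ((n : ℝ) ^ 2 / (σ * w ^ 2)) := by ring
        _ ≤ 32 * (n ^ 2 / (64 * (w : ℝ) ^ a')) := by gcongr
        _ = _ := by
            field_simp
            norm_num
    have h3 : 6 * 2 ^ (w / 16) * (n : ℝ) + 1 ≤ (n : ℝ) ^ 2 / (2 * (w : ℝ) ^ a') := by
      rw [le_div_iff₀ (by positivity)]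
      have h5 : (1 : ℝ) ≤ 2 ^ (w / 16) := by exact_mod_cast hone
      have h7 : (2 : ℝ) ≤ n := by exact_mod_cast hn2
      have h6 : 6 * 2 ^ (w / 16) * (n : ℝ) + 1 ≤ 7 * 2 ^ (w / 16) * n := by nlinarith
      calc (6 * 2 ^ (w / 16) * (n : ℝ) + 1) * (2 * (w : ℝ) ^ a')
          ≤ (7 * 2 ^ (w / 16) * n) * (2 * (w : ℝ) ^ 3) := by gcongr
        _ = (14 * (w : ℝ) ^ 3 * 2 ^ (w / 16)) * n := by ring
        _ ≤ n * n := by gcongr
        _ = n ^ 2 := by ring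
    have hlog1 : 1 ≤ Real.logb 2 n := by
      rw [Real.le_logb_iff_rpow_le (by norm_num) hnr, Real.rpow_one]
      exact_mod_cast hn2
    have hlogw : Real.logb 2 n ≤ w := by
      rw [Real.logb_le_iff_le_rpow (by norm_num) hnr, Real.rpow_natCast]
      exact_mod_cast Nat.le_pow_clog (by norm_num) n
    have hlog : Real.logb 2 n ^ a ≤ (w : ℝ) ^ a' := by
      calc Real.logb 2 n ^ a ≤ Real.logb 2 n ^ a' :=
            Real.rpow_le_rpow_of_exponent_le hlog1 ha1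
        _ ≤ _ := Real.rpow_le_rpow (by linarith) hlogw (by linarith)
    have hlogpos : 0 < Real.logb 2 n ^ a := Real.rpow_pos_of_pos (by linarith) _
    calc (P.length : ℝ) ≤ 32 * n ^ 2 / (σ * w ^ 2) + 6 * 2 ^ (w / 16) * n + 1 := hP
      _ = 32 * n ^ 2 / (σ * w ^ 2) + (6 * 2 ^ (w / 16) * n + 1) := by ring
      _ ≤ (n : ℝ) ^ 2 / (2 * (w : ℝ) ^ a') + (n : ℝ) ^ 2 / (2 * (w : ℝ) ^ a') :=
          add_le_add h2 h3
      _ = (n : ℝ) ^ 2 / (w : ℝ) ^ a' := by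
          field_simp
          norm_num
      _ ≤ _ := div_le_div_of_nonneg_left (by positivity) hlogpos hlog

end Pool.Agent.OMV
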