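import Pool.Agent.Work.MP_0f1f76_lc.Fast.ParamFine
import Pool.Agent.Work.MP_0f1f76_lc.Fast.Program
import Pool.Agent.Work.MP_0f1f76_lc.Fast.FinalCore

/-!
The sharper final bound `O(n² (log log n)³ / (log n)³)` per vector.
-/

namespace Pool.Agent.OMV

open Filter Topology

/-- size scale of the fine gadgets -/
def Qg (b : ℕ) : ℕ := 2 ^ (b + 3) * (3 * b + 5)

lemma Qg_ge (b : ℕ) : b ≤ Qg b := by
  unfold Qg
  have h1 : 1 ≤ 2 ^ (b + 3) := Nat.one_le_two_pow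
  nlinarith

lemma pick_b (b₁ w : ℕ) (h : 16 * Qg b₁ ≤ w) :
    ∃ b, b₁ ≤ b ∧ 16 * Qg b ≤ w ∧ w < 16 * Qg (b + 1) := by
  classical
  have hex : ∃ b, b₁ < b ∧ w < 16 * Qg b := by
    refine ⟨w + b₁ + 1, by omega, ?_⟩
    have := Qg_ge (w + b₁ + 1)
    omega
  obtain ⟨h1, h2⟩ := Nat.find_spec hex
  set b' := Nat.find hex with hb'
  refine ⟨b' - 1, by omega, ?_, ?_⟩
  · by_contra hcon
    push Not at hcon
    rcases Nat.lt_or_ge b₁ (b' - 1) with h3 | h3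
    · have := Nat.find_min hex (m := b' - 1) (by omega)
      exact this ⟨h3, hcon⟩
    · have : b' - 1 = b₁ := by omega
      rw [this] at hcon
      omega
  · rwa [Nat.sub_add_cancel (by omega)]

lemma pow_ge_lin (b : ℕ) (hb : 8 ≤ b) : 16 * (b + 1) ≤ 2 ^ b := by
  induction b, hb using Nat.le_induction with
  | base => norm_num
  | succ b hb ih =>
    rw [pow_succ]
    omega

/-- the bound in terms of the word length -/
theorem fast_omv_word : ∃ w₀ : ℕ, ∀ n w : ℕ, w₀ ≤ w → 2 ^ (w - 1) ≤ n →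
    ∃ (b : ℕ) (_ : 2 ^ b ≤ w) (S : ℕ) (P : List Instr) (out : ℕ → ℕ)
      (pre : Matrix (Fin n) (Fin n) (ZMod 2) →ₗ[ZMod 2] (Fin S → Word w → Word w))
      (base : Fin S → Word w → Word w),
      S ≤ n ^ 2 ∧
      (P.length : ℝ) ≤ 10 ^ 8 * (n : ℝ) ^ 2 * ((b : ℝ) + 1) ^ 3 / (w : ℝ) ^ 3 ∧
      ∀ M, Computes P out (base + pre M) M := by
  obtain ⟨w₀, hw₀⟩ := big_w
  refine ⟨max w₀ (16 * Qg 8) + 2, fun n w hwW hnw => ?_⟩
  have hw1 : w₀ ≤ w := by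
    have := le_max_left w₀ (16 * Qg 8)
    omega
  have hw2 : 16 * Qg 8 ≤ w := by
    have := le_max_right w₀ (16 * Qg 8)
    omega
  have hw3 : 2 ≤ w := by omega
  have hbig : 14 * w ^ 3 * 2 ^ (w / 16) ≤ n := (hw₀ w hw1).trans hnw
  obtain ⟨b, hb8, hQ1, hQ2⟩ := pick_b 8 w hw2
  obtain ⟨r, m, s, t, g, hr, hrt, hs, hmlow, hmup, ht, hts⟩ := gadget_fine b (by omega)
  obtain ⟨e, he⟩ : ∃ e, e = 3 * b + 5 := ⟨_, rfl⟩
  rw [← he] at hs hmlow hmup ht hts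
  have he0 : 0 < e := by omega
  have hQs : Qg b = s := by rw [hs, he]; rfl
  have h2b : 2 ^ (b + 3) = 8 * 2 ^ b := by rw [pow_add]; ring
  have h2b2 : 2 ^ (b + 2) = 4 * 2 ^ b := by rw [pow_add]; ring
  have h22b : 2 ^ (2 * b) = 2 ^ b * 2 ^ b := by rw [two_mul, pow_add]
  have hlin := pow_ge_lin b hb8
  have hpb : 0 < 2 ^ b := by positivity
  have hs0 : 0 < s := by rw [hs]; positivity
  have hbw : 2 ^ b ≤ w := by
    have h3 : 2 ^ b * 1 ≤ s := by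
      rw [hs, h2b]
      nlinarith
    omega
  have htQ : t ≤ 2 ^ (w / 16) := by
    refine ht.trans (Nat.pow_le_pow_right (by norm_num) ?_)
    have h2 : 2 ^ (b + 2) * (2 * b + 2) + e ≤ s := by
      rw [hs, h2b, h2b2, he]
      nlinarith
    omega
  have hm1 : 2 * s ≤ m := by
    have h1 : (2 * s) * (b + 1) ≤ m * (b + 1) := by
      calc (2 * s) * (b + 1) = (2 ^ b * e) * (16 * (b + 1)) := by
            rw [hs, h2b]
            ring
        _ ≤ (2 ^ b * e) * 2 ^ b := Nat.mul_le_mul_left _ hlin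
        _ = 2 ^ (2 * b) * e := by rw [h22b]; ring
        _ ≤ m * (b + 1) := hmlow
    exact Nat.le_of_mul_le_mul_right h1 (by omega)
  have hm2 : m ≤ s * w := by
    calc m ≤ 2 ^ (2 * b + 1) * e := hmup
      _ = (2 * 2 ^ b * e) * 2 ^ b := by rw [pow_succ, h22b]; ring
      _ ≤ s * w := by
        apply Nat.mul_le_mul _ hbw
        rw [hs, h2b]
        apply Nat.mul_le_mul_right
        omega
  have hone : 1 ≤ 2 ^ (w / 16) := Nat.one_le_two_pow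
  have hww : w * w ≤ n := by
    calc w * w ≤ 14 * w ^ 3 * 2 ^ (w / 16) := by
          have : w * w ≤ 14 * w ^ 3 := by nlinarith [Nat.zero_le (w ^ 2)]
          nlinarith
      _ ≤ n := hbig
  have hw16 : w * 2 ^ (w / 16) ≤ n := by
    refine le_trans ?_ hbig
    apply Nat.mul_le_mul_right
    nlinarith [Nat.zero_le (w ^ 2), Nat.zero_le (w ^ 3)]
  have hn0 : 0 < n := by
    have : 0 < 2 ^ (w - 1) := by positivity
    omega
  have her : (0 : ℝ) < e := by exact_mod_cast he0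
  have hnr : (0 : ℝ) < n := by exact_mod_cast hn0
  have hwr : (2 : ℝ) ≤ w := by exact_mod_cast hw3
  have hbr : (0 : ℝ) < (b : ℝ) + 1 := by positivity
  set σ : ℝ := 2 ^ b / (24 * (b + 1) * e) with hσdef
  have hσ0 : 0 < σ := by positivity
  have hσ : (t : ℝ) * s * σ ≤ r * m := by
    have h1 : (t : ℝ) * s * 2 ^ b ≤ r * m * (24 * (b + 1) * e) := by exact_mod_cast hts
    rw [hσdef, ← mul_div_assoc, div_le_iff₀ (by positivity)]
    exact h1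
  -- `1/σ ≤ const (b+1)^3 / w`
  have hσw : (w : ℝ) ≤ σ * (24 * 256 * 5 * 8 * (b + 1) ^ 3) := by
    have h1 : (w : ℝ) ≤ 256 * 2 ^ b * (3 * (b + 1) + 5) := by
      have : w ≤ 16 * Qg (b + 1) := hQ2.le
      have h2 : 16 * Qg (b + 1) = 256 * 2 ^ b * (3 * (b + 1) + 5) := by
        unfold Qg
        have : 2 ^ (b + 1 + 3) = 16 * 2 ^ b := by rw [pow_add, pow_add]; ring
        rw [this]; ring
      rw [h2] at this
      exact_mod_cast this
    have he5 : (e : ℝ) ≤ 5 * (b + 1) := by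
      rw [he]; push_cast; linarith [(Nat.cast_nonneg b : (0 : ℝ) ≤ b)]
    have h8 : (3 * ((b : ℝ) + 1) + 5) ≤ 8 * (b + 1) := by
      linarith [(Nat.cast_nonneg b : (0 : ℝ) ≤ b)]
    calc (w : ℝ) ≤ 256 * 2 ^ b * (3 * (b + 1) + 5) := h1
      _ ≤ 256 * 2 ^ b * (8 * (b + 1)) := by gcongr
      _ = 2 ^ b / (24 * (b + 1) * e) * (24 * 256 * 8 * (b + 1) ^ 2 * e) := by
          field_simp
      _ ≤ 2 ^ b / (24 * (b + 1) * e) * (24 * 256 * 8 * (b + 1) ^ 2 * (5 * (b + 1))) := by gcongr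
      _ = _ := by rw [hσdef]; ring
  obtain ⟨S, P, out, pre, base, hS, hP, hM⟩ := final_step (fun g => program_of_gadget g) g hr hrt
    hs0 (by omega) htQ hm1 hm2 hww hw16 σ hσ hσ0
  have hbig' : 14 * (w : ℝ) ^ 3 * 2 ^ (w / 16) ≤ n := by exact_mod_cast hbig
  have hw3pos : (0 : ℝ) < (w : ℝ) ^ 3 := by positivity
  have key : (n : ℝ) ^ 2 / (σ * w ^ 2) ≤
      n ^ 2 * (24 * 256 * 5 * 8 * ((b : ℝ) + 1) ^ 3) / (w : ℝ) ^ 3 := by
    rw [div_le_div_iff₀ (by positivity) hw3pos]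
    have h1 : (w : ℝ) ^ 3 ≤ (24 * 256 * 5 * 8 * ((b : ℝ) + 1) ^ 3) * (σ * w ^ 2) := by
      calc (w : ℝ) ^ 3 = w * w ^ 2 := by ring
        _ ≤ (σ * (24 * 256 * 5 * 8 * (b + 1) ^ 3)) * w ^ 2 := by gcongr
        _ = _ := by ring
    calc (n : ℝ) ^ 2 * (w : ℝ) ^ 3 ≤
          n ^ 2 * ((24 * 256 * 5 * 8 * ((b : ℝ) + 1) ^ 3) * (σ * w ^ 2)) := by gcongr
      _ = _ := by ring
  have hwb : 400 * ((b : ℝ) + 1) ≤ w := by
    have h1 : 400 * (b + 1) ≤ 16 * Qg b := by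
      have : Qg b = 8 * 2 ^ b * (3 * b + 5) := by unfold Qg; rw [h2b]
      rw [this]
      nlinarith
    exact_mod_cast h1.trans hQ1
  have hσw2 : 32 ≤ σ * (w : ℝ) ^ 2 := by
    have h1 : (w : ℝ) ^ 3 ≤ (24 * 256 * 5 * 8 * ((b : ℝ) + 1) ^ 3) * (σ * w ^ 2) := by
      calc (w : ℝ) ^ 3 = w * w ^ 2 := by ring
        _ ≤ (σ * (24 * 256 * 5 * 8 * (b + 1) ^ 3)) * w ^ 2 := by gcongr
        _ = _ := by ring
    have h2 : (400 * ((b : ℝ) + 1)) ^ 3 ≤ (w : ℝ) ^ 3 := by gcongr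
    have h3 : (24 * 256 * 5 * 8 * ((b : ℝ) + 1) ^ 3) * 32 ≤
        (24 * 256 * 5 * 8 * ((b : ℝ) + 1) ^ 3) * (σ * w ^ 2) := by
      refine le_trans ?_ (h2.trans h1)
      have : (0 : ℝ) < ((b : ℝ) + 1) ^ 3 := by positivity
      nlinarith
    exact le_of_mul_le_mul_left h3 (by positivity)
  have h7 : (6 : ℝ) * 2 ^ (w / 16) * n + 1 ≤ n ^ 2 / (2 * (w : ℝ) ^ 3) := by
    rw [le_div_iff₀ (by positivity)]
    have h5 : (1 : ℝ) ≤ 2 ^ (w / 16) := by exact_mod_cast hone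
    have h7 : (1 : ℝ) ≤ n := by exact_mod_cast hn0
    have h6 : 6 * 2 ^ (w / 16) * (n : ℝ) + 1 ≤ 7 * 2 ^ (w / 16) * n := by nlinarith
    calc (6 * 2 ^ (w / 16) * (n : ℝ) + 1) * (2 * (w : ℝ) ^ 3)
        ≤ (7 * 2 ^ (w / 16) * n) * (2 * (w : ℝ) ^ 3) := by gcongr
      _ = (14 * (w : ℝ) ^ 3 * 2 ^ (w / 16)) * n := by ring
      _ ≤ n * n := by gcongr
      _ = n ^ 2 := by ring
  have hw31 : (1 : ℝ) ≤ (w : ℝ) ^ 3 := by
    have : (1 : ℝ) ≤ w := by linarith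
    exact one_le_pow₀ this
  refine ⟨b, hbw, S, P, out, pre, base, ?_, ?_, hM⟩
  · have h1 : (S : ℝ) ≤ (n : ℝ) ^ 2 := by
      have h2 : 16 * (n : ℝ) ^ 2 / (σ * w ^ 2) ≤ (n : ℝ) ^ 2 / 2 := by
        rw [div_le_div_iff₀ (by positivity) (by norm_num)]
        nlinarith [sq_nonneg (n : ℝ)]
      have h3 : 2 ^ (w / 16) * (n : ℝ) ≤ (n : ℝ) ^ 2 / 2 := by
        have h8 : (n : ℝ) ^ 2 / (2 * (w : ℝ) ^ 3) ≤ (n : ℝ) ^ 2 / 2 := by
          apply div_le_div_of_nonneg_left (by positivity) (by norm_num)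
          linarith
        have h9 : (0 : ℝ) ≤ 2 ^ (w / 16) * (n : ℝ) := by positivity
        nlinarith
      linarith
    exact_mod_cast h1
  · have hb3 : (1 : ℝ) ≤ ((b : ℝ) + 1) ^ 3 := by
      apply one_le_pow₀
      linarith [(Nat.cast_nonneg b : (0 : ℝ) ≤ b)]
    have h8 : (n : ℝ) ^ 2 / (2 * (w : ℝ) ^ 3) ≤ n ^ 2 * ((b : ℝ) + 1) ^ 3 / (w : ℝ) ^ 3 := by
      rw [div_le_div_iff₀ (by positivity) hw3pos]
      have : (n : ℝ) ^ 2 * (w : ℝ) ^ 3 * 1 ≤ (n : ℝ) ^ 2 * (w : ℝ) ^ 3 * (((b : ℝ) + 1) ^ 3) := by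
        gcongr
      have h10 : (0 : ℝ) ≤ (n : ℝ) ^ 2 * (w : ℝ) ^ 3 * (((b : ℝ) + 1) ^ 3) := by positivity
      nlinarith
    have h9 : (0 : ℝ) ≤ n ^ 2 * ((b : ℝ) + 1) ^ 3 / (w : ℝ) ^ 3 := by positivity
    calc (P.length : ℝ) ≤ 32 * n ^ 2 / (σ * w ^ 2) + 6 * 2 ^ (w / 16) * n + 1 := hP
      _ = 32 * (n ^ 2 / (σ * w ^ 2)) + (6 * 2 ^ (w / 16) * n + 1) := by ring
      _ ≤ 32 * (n ^ 2 * (24 * 256 * 5 * 8 * ((b : ℝ) + 1) ^ 3) / (w : ℝ) ^ 3) +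
          n ^ 2 * ((b : ℝ) + 1) ^ 3 / (w : ℝ) ^ 3 := by
          apply add_le_add
          · gcongr
          · exact h7.trans h8
      _ = (32 * (24 * 256 * 5 * 8) + 1) * (n ^ 2 * ((b : ℝ) + 1) ^ 3 / (w : ℝ) ^ 3) := by ring
      _ ≤ 10 ^ 8 * (n ^ 2 * ((b : ℝ) + 1) ^ 3 / (w : ℝ) ^ 3) := by
          apply mul_le_mul_of_nonneg_right _ h9
          norm_num
      _ = _ := by ring

/-- Per vector `O(n² (log log n)³ / (log n)³)` word operations. -/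
theorem fast_omv_fine : ∃ (C : ℝ) (n₀ : ℕ), ∀ n : ℕ, n₀ ≤ n →
    ∃ (S : ℕ) (P : List Instr) (out : ℕ → ℕ)
      (pre : Matrix (Fin n) (Fin n) (ZMod 2) →ₗ[ZMod 2]
        (Fin S → Word (Nat.clog 2 n) → Word (Nat.clog 2 n)))
      (base : Fin S → Word (Nat.clog 2 n) → Word (Nat.clog 2 n)),
      S ≤ n ^ 2 ∧
      (P.length : ℝ) ≤ C * (n : ℝ) ^ 2 * (Real.log (Real.log n) / Real.log n) ^ 3 ∧
      ∀ M, Computes P out (base + pre M) M := by
  obtain ⟨w₀, hw₀⟩ := fast_omv_word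
  refine ⟨10 ^ 8 * 6 ^ 3, 2 ^ (w₀ + 10), fun n hn => ?_⟩
  set w := Nat.clog 2 n with hw
  have hwW : w₀ + 10 ≤ w := by
    have := Nat.clog_mono_right 2 hn
    rwa [Nat.clog_pow 2 _ (by norm_num)] at this
  have hn2 : 2 ^ 10 ≤ n := le_trans (Nat.pow_le_pow_right (by norm_num) (by omega)) hn
  have hnw : 2 ^ (w - 1) ≤ n := (Nat.pow_pred_clog_lt_self (by norm_num) (by omega)).le
  obtain ⟨b, hbw, S, P, out, pre, base, hS, hP, hM⟩ := hw₀ n w (by omega) hnw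
  refine ⟨S, P, out, pre, base, hS, hP.trans ?_, hM⟩
  have hnr : (0 : ℝ) < n := by exact_mod_cast (by omega : 0 < n)
  have hwpos : (0 : ℝ) < w := by exact_mod_cast (by omega : 0 < w)
  have hl2 : Real.log 2 < 0.6931471808 := Real.log_two_lt_d9
  have hl2' : 0.6931471803 < Real.log 2 := Real.log_two_gt_d9
  -- log n, between `(w-1) log 2` and `w`
  have hlo1 : Real.log n ≤ w * Real.log 2 := by
    have : (n : ℝ) ≤ 2 ^ w := by exact_mod_cast Nat.le_pow_clog (by norm_num) n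
    calc Real.log n ≤ Real.log (2 ^ w) := Real.log_le_log hnr this
      _ = w * Real.log 2 := Real.log_pow _ _
  have hlw : Real.log n ≤ w := by nlinarith
  have hlo2 : (w - 1) * Real.log 2 ≤ Real.log n := by
    have h1 : ((2 : ℝ) ^ (w - 1)) ≤ n := by exact_mod_cast hnw
    have h2 : Real.log ((2 : ℝ) ^ (w - 1)) ≤ Real.log n := Real.log_le_log (by positivity) h1
    rw [Real.log_pow] at h2
    rwa [Nat.cast_sub (by omega : 1 ≤ w), Nat.cast_one] at h2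
  have hw10 : (10 : ℝ) ≤ w := by exact_mod_cast (by omega : 10 ≤ w)
  have hlw2 : (w : ℝ) ≤ 2 * Real.log n := by nlinarith
  have hlo6 : 6 ≤ Real.log n := by nlinarith
  -- `log log n ≥ 1` and `b + 1 ≤ 6 log log n`
  have hll1 : 1 ≤ Real.log (Real.log n) := by
    rw [Real.le_log_iff_exp_le (by linarith)]
    have := Real.exp_one_lt_d9
    linarith
  have hb : ((b : ℝ) + 1) ≤ 6 * Real.log (Real.log n) := by
    have h1 : (2 : ℝ) ^ b ≤ 2 * Real.log n := by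
      have : ((2 : ℝ) ^ b) ≤ w := by exact_mod_cast hbw
      linarith
    have h2 : b * Real.log 2 ≤ Real.log 2 + Real.log (Real.log n) := by
      have := Real.log_le_log (by positivity) h1
      rwa [Real.log_pow, Real.log_mul (by norm_num) (by linarith)] at this
    nlinarith
  have hlogpos : 0 < Real.log n := by linarith
  have hfrac : ((b : ℝ) + 1) / w ≤ 6 * (Real.log (Real.log n) / Real.log n) := by
    rw [← mul_div_assoc]
    apply div_le_div₀ (by linarith) hb hlogpos hlw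
  calc 10 ^ 8 * (n : ℝ) ^ 2 * ((b : ℝ) + 1) ^ 3 / (w : ℝ) ^ 3
      = 10 ^ 8 * (n : ℝ) ^ 2 * (((b : ℝ) + 1) / w) ^ 3 := by rw [div_pow]; ring
    _ ≤ 10 ^ 8 * (n : ℝ) ^ 2 * (6 * (Real.log (Real.log n) / Real.log n)) ^ 3 := by gcongr
    _ = _ := by ring

end Pool.Agent.OMV
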