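import Mathlib
import Pool.Agent.Work.MP_0f1f76_lc.Fast.Model

/-!
The tables of an XOR-gadget can be chosen as a linear function of the matrix.
-/

namespace Pool.Agent.OMV

/-- lifting a linear map through another one, pointwise solvability suffices -/
theorem exists_linear_lift {k V W U : Type*} [Field k] [AddCommGroup V] [Module k V]
    [AddCommGroup W] [Module k W] [AddCommGroup U] [Module k U]
    (E : V →ₗ[k] W) (J : U →ₗ[k] W) (h : ∀ u, ∃ v, E v = J u) :
    ∃ P : U →ₗ[k] V, ∀ u, E (P u) = J u := by
  classical
  choose f hf using h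
  let b := Module.Basis.ofVectorSpace k U
  refine ⟨b.constr k (fun i => f (b i)), fun u => ?_⟩
  have : E.comp (b.constr k (fun i => f (b i))) = J := by
    apply b.ext
    intro i
    simp [hf]
  exact LinearMap.congr_fun this u

/-- The tables of an XOR-gadget can be chosen linearly in the matrix. -/
theorem gadget_linear {r m s t : ℕ} (g : XorGadget r m s t) :
    ∃ P : Matrix (Fin r) (Fin m) (ZMod 2) →ₗ[ZMod 2] (Fin t → (Fin s → ZMod 2) → ZMod 2),
      ∀ (M : Matrix (Fin r) (Fin m) (ZMod 2)) (x : Fin m → ZMod 2),
        g.dec (fun c => P M c (g.addr c x)) = M.mulVec x := by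
  classical
  let E : (Fin t → (Fin s → ZMod 2) → ZMod 2) →ₗ[ZMod 2] ((Fin m → ZMod 2) → (Fin r → ZMod 2)) :=
    { toFun := fun T x => g.dec (fun c => T c (g.addr c x))
      map_add' := by
        intro T T'
        funext x
        rw [Pi.add_apply, ← map_add]
        rfl
      map_smul' := by
        intro a T
        funext x
        rw [RingHom.id_apply, Pi.smul_apply, ← map_smul]
        rfl }
  let J : Matrix (Fin r) (Fin m) (ZMod 2) →ₗ[ZMod 2] ((Fin m → ZMod 2) → (Fin r → ZMod 2)) :=
    { toFun := fun M x => M.mulVec x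
      map_add' := by
        intro M M'
        funext x
        rw [Pi.add_apply, Matrix.add_mulVec]
      map_smul' := by
        intro a M
        funext x
        rw [RingHom.id_apply, Pi.smul_apply, Matrix.smul_mulVec] }
  obtain ⟨P, hP⟩ := exists_linear_lift E J (fun M => by
    obtain ⟨T, hT⟩ := g.univ M
    exact ⟨T, funext hT⟩)
  exact ⟨P, fun M x => congrFun (hP M) x⟩

end Pool.Agent.OMV
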