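import Pool.Agent.Work.MP_0f1f76_lc.Fast.Conv
import Pool.Agent.Work.MP_0f1f76_lc.Fast.FieldGadget

/-!
A sharper choice of the parameters: the multiplicity `B` grows with the size of the gadget.
-/

namespace Pool.Agent.OMV

lemma two_pow_gt (b : ℕ) (hb : 3 ≤ b) : 2 * b + 2 < 2 * 2 ^ b - 1 := by
  induction b, hb using Nat.le_induction with
  | base => norm_num
  | succ b hb ih =>
    rw [pow_succ]
    omega

/-- `D = 2^b`, `d = n = 2^(b+2)`, `K = 2^(b+3)`, `B = 2b+2`, `N = ⌊dD/B⌋`, `e = 3b+5`. -/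
theorem gadget_fine (b : ℕ) (hb : 3 ≤ b) : ∃ (r m s t : ℕ) (_ : XorGadget r m s t),
    0 < r ∧ r ≤ t ∧ s = 2 ^ (b + 3) * (3 * b + 5) ∧
    2 ^ (2 * b) * (3 * b + 5) ≤ m * (b + 1) ∧ m ≤ 2 ^ (2 * b + 1) * (3 * b + 5) ∧
    t ≤ 2 ^ (2 ^ (b + 2) * (2 * b + 2) + (3 * b + 5)) ∧
    t * s * 2 ^ b ≤ r * m * (24 * (b + 1) * (3 * b + 5)) := by
  obtain ⟨e, he⟩ : ∃ e, e = 3 * b + 5 := ⟨_, rfl⟩
  rw [← he]
  have he1 : 1 ≤ e := by omega
  obtain ⟨N, hN⟩ : ∃ N, N = 2 ^ (2 * b + 2) / (2 * b + 2) := ⟨_, rfl⟩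
  have hN1 : (2 * b + 2) * N ≤ 2 ^ (2 * b + 2) := by rw [hN]; exact Nat.mul_div_le _ _
  have hN2 : 2 ^ (2 * b + 2) < (2 * b + 2) * (N + 1) := by
    rw [hN]; exact Nat.lt_mul_div_succ _ (by omega)
  have hp1 : 2 * b + 1 < 2 ^ (2 * b + 1) := Nat.lt_two_pow_self
  have hp2 : 2 ^ (2 * b + 2) = 2 * 2 ^ (2 * b + 1) := by rw [pow_succ]; ring
  have hp3 : 2 ^ (2 * b + 1) = 2 * 2 ^ (2 * b) := by rw [pow_succ]; ring
  have hN3 : 2 ^ (2 * b) ≤ N * (b + 1) := by nlinarith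
  have hN4 : N ≤ 2 ^ (2 * b + 1) := by nlinarith
  have hNpos : 1 ≤ N := by
    by_contra hcon
    have : N = 0 := by omega
    rw [this] at hN3
    have : 0 < 2 ^ (2 * b) := by positivity
    omega
  -- the field
  have hcard : Nat.card (GaloisField 2 e) = 2 ^ e := GaloisField.card 2 e (by omega)
  let _ : Fintype (GaloisField 2 e) := Fintype.ofFinite _
  have hcard' : Fintype.card (GaloisField 2 e) = 2 ^ e := by
    rw [← hcard, Nat.card_eq_fintype_card]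
  have hB := two_pow_gt b hb
  have hdD : 2 ^ (b + 2) * 2 ^ b = 2 ^ (2 * b + 2) := by
    rw [← pow_add]; congr 1; ring
  have hn : N * (2 * 2 ^ b - 1) ^ (2 * b + 2 + 1) < (2 ^ (b + 2)) ^ (2 * b + 2 + 1) := by
    have h1 : (2 * 2 ^ b - 1) ^ (2 * b + 2 + 1) ≤ (2 * 2 ^ b) ^ (2 * b + 2 + 1) :=
      Nat.pow_le_pow_left (by omega) _
    have h2 : (2 ^ (b + 2)) ^ (2 * b + 2 + 1) =
        2 ^ (2 * b + 2 + 1) * (2 * 2 ^ b) ^ (2 * b + 2 + 1) := by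
      rw [← mul_pow]; congr 1; rw [pow_add]; ring
    rw [h2]
    have h3 : N < 2 ^ (2 * b + 2 + 1) := by
      rw [pow_succ, hp2]
      have : 0 < 2 ^ (2 * b + 1) := by positivity
      omega
    calc N * (2 * 2 ^ b - 1) ^ (2 * b + 2 + 1) ≤ N * (2 * 2 ^ b) ^ (2 * b + 2 + 1) :=
          Nat.mul_le_mul_left _ h1
      _ < 2 ^ (2 * b + 2 + 1) * (2 * 2 ^ b) ^ (2 * b + 2 + 1) :=
          Nat.mul_lt_mul_of_pos_right h3 (by positivity)
  have hd2 : 2 ≤ 2 ^ (b + 2) := by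
    rw [pow_add]
    have : 0 < 2 ^ b := by positivity
    omega
  have hq : 16 * N * 2 ^ b ≤ Fintype.card (GaloisField 2 e) := by
    rw [hcard', he]
    calc 16 * N * 2 ^ b ≤ 16 * 2 ^ (2 * b + 1) * 2 ^ b := by gcongr
      _ = 2 ^ (4 + (2 * b + 1) + b) := by
          rw [pow_add 2 (4 + (2 * b + 1)) b, pow_add 2 4 (2 * b + 1)]
          norm_num
      _ ≤ _ := Nat.pow_le_pow_right (by norm_num) (by omega)
  have hq2 : 2 ^ (b + 2) * 2 ^ b + N < Fintype.card (GaloisField 2 e) := by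
    rw [hcard', he, hdD]
    have h1 : 2 ^ (2 * b + 2) + N ≤ 2 ^ (2 * b + 3) := by
      have : 2 ^ (2 * b + 3) = 2 * 2 ^ (2 * b + 2) := by rw [pow_succ]; ring
      omega
    have h2 : 2 ^ (2 * b + 3) < 2 ^ (3 * b + 5) :=
      Nat.pow_lt_pow_right (by norm_num) (by omega)
    omega
  obtain ⟨t, r, hr0, hrt, ht3, htc, A, H, h⟩ :=
    field_gadget (F := GaloisField 2 e) (K := 2 * 2 ^ (b + 2)) (N := N) (n := 2 ^ (b + 2))
      (d := 2 ^ (b + 2)) (b := b) (B := 2 * b + 2) hd2 hB (by omega) hn (by omega)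
      (by rw [hdD]; exact hN1) hNpos hq hq2
  obtain ⟨g⟩ := xorGadget_of_field hcard' A H h
  refine ⟨r, N * e, 2 * 2 ^ (b + 2) * e, t * e, g, hr0, ?_, ?_, ?_, ?_, ?_, ?_⟩
  · exact hrt.trans (Nat.le_mul_of_pos_right _ he1)
  · rw [pow_succ 2 (b + 2)]; ring
  · calc 2 ^ (2 * b) * e ≤ N * (b + 1) * e := Nat.mul_le_mul_right _ hN3
      _ = N * e * (b + 1) := by ring
  · exact Nat.mul_le_mul_right _ hN4
  · have h1 : t ≤ 2 ^ (2 ^ (b + 2) * (2 * b + 2)) := by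
      calc t ≤ (2 ^ (b + 2) * 2 ^ b).choose (2 ^ (b + 2)) := htc
        _ ≤ (2 ^ (b + 2) * 2 ^ b) ^ (2 ^ (b + 2)) := Nat.choose_le_pow _ _
        _ = 2 ^ (2 ^ (b + 2) * (2 * b + 2)) := by rw [hdD, ← pow_mul, mul_comm]
    have h2 : e ≤ 2 ^ e := Nat.lt_two_pow_self.le
    calc t * e ≤ 2 ^ (2 ^ (b + 2) * (2 * b + 2)) * 2 ^ e := Nat.mul_le_mul h1 h2
      _ = _ := by rw [← pow_add]
  · have h1 : t * e * (2 * 2 ^ (b + 2) * e) * 2 ^ b = t * (e * e) * (8 * 2 ^ (2 * b)) := by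
      have : 2 ^ (b + 2) * 2 ^ b = 4 * 2 ^ (2 * b) := by
        rw [hdD, pow_add]; ring
      calc t * e * (2 * 2 ^ (b + 2) * e) * 2 ^ b = t * (e * e) * (2 * (2 ^ (b + 2) * 2 ^ b)) := by
            ring
        _ = _ := by rw [this]; ring
    rw [h1]
    calc t * (e * e) * (8 * 2 ^ (2 * b)) ≤ (3 * r) * (e * e) * (8 * (N * (b + 1))) := by gcongr
      _ = r * (N * e) * (24 * (b + 1) * e) := by ring

end Pool.Agent.OMV
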