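import Mathlib
import Pool.Agent.Work.MP_0f1f76_lc.Fast.Conv

/-!
Module PARAM: the choice of the parameters of the gadgets.
-/

namespace Pool.Agent.OMV

/-- The statement of `field_gadget` for the field `F`. -/
def FieldGadgetStmt (F : Type) [Field F] [Fintype F] : Prop :=
  ∀ {K N n d b B : ℕ}
    (_ : 2 ≤ d) (_ : B < 2 * 2 ^ b - 1) (_ : 1 ≤ B)
    (_ : N * (2 * 2 ^ b - 1) ^ (B + 1) < n ^ (B + 1)) (_ : d + n ≤ K)
    (_ : B * N ≤ d * 2 ^ b) (_ : 1 ≤ N) (_ : 16 * N * 2 ^ b ≤ Fintype.card F)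
    (_ : d * 2 ^ b + N < Fintype.card F),
    ∃ (t r : ℕ), 0 < r ∧ r ≤ t ∧ t ≤ 3 * r ∧ t ≤ (d * 2 ^ b).choose d ∧
      ∃ (A : Fin t → (Fin N → F) →ₗ[F] (Fin K → F)) (H : (Fin t → F) →ₗ[F] (Fin r → F)),
        ∀ μ : Fin r → Fin N → F, ∃ T : Fin t → (Fin K → F) → F,
          ∀ x : Fin N → F, H (fun c => T c (A c x)) = fun ρ => ∑ l, μ ρ l * x l ^ 2 ^ b

/-- Module PARAM, with `field_gadget` as a hypothesis. Use:
`gadget_family_of (fun F _ _ _ => field_gadget) β`. -/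
theorem gadget_family_of
    (field_gadget : ∀ (F : Type) [Field F] [Fintype F] [CharP F 2], FieldGadgetStmt F) (β : ℕ) : ∃ c₀ : ℕ, ∀ c ≥ c₀, ∃ (r m s t : ℕ) (_ : XorGadget r m s t),
    0 < r ∧ 0 < m ∧ r ≤ t ∧
    s = 2 ^ (c * (2 ^ β + 2) + 1) * (3 * c * 2 ^ β + 2 * c + 2) ∧
    m * 2 ^ β * 2 = 2 ^ (c * (2 ^ β + 2)) * 2 ^ (c * 2 ^ β) * (3 * c * 2 ^ β + 2 * c + 2) ∧
    t ≤ 2 ^ (2 ^ (c * (2 ^ β + 2)) * (2 * c * (2 ^ β + 2)) + 3 * c * (2 ^ β + 2)) ∧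
    t * s * 2 ^ (c * 2 ^ β) ≤ r * m * (12 * 2 ^ β * (3 * c * 2 ^ β + 2 * c + 2)) := by
  refine ⟨2, fun c hc => ?_⟩
  have hBpos : 0 < 2 ^ β := by positivity
  have hβ : β < 2 ^ β := Nat.lt_two_pow_self
  obtain ⟨B, hBdef⟩ : ∃ B, B = 2 ^ β := ⟨_, rfl⟩
  rw [← hBdef] at hBpos hβ ⊢
  obtain ⟨e, he⟩ : ∃ e, e = 3 * c * B + 2 * c + 2 := ⟨_, rfl⟩
  rw [← he]
  have he1 : 1 ≤ e := by omega
  have hcB : 2 * B ≤ c * B := Nat.mul_le_mul_right B hc
  have hcB1 : 1 ≤ c * B := by omega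
  -- `b`
  obtain ⟨b, hb⟩ : ∃ b, b + 1 = c * B := ⟨c * B - 1, by omega⟩
  have h2b : 2 * 2 ^ b = 2 ^ (c * B) := by rw [← hb, pow_succ]; ring
  -- `N`
  obtain ⟨ν, hν⟩ : ∃ ν, ν + 1 + β = 2 * c * B + 2 * c :=
    ⟨2 * c * B + 2 * c - 1 - β, by
      have : 2 * c * B = 2 * (c * B) := by ring
      omega⟩
  have hcB2 : c * (B + 2) = c * B + 2 * c := by ring
  have h2cB : 2 * c * B = 2 * (c * B) := by ring
  have h3cB : 3 * c * B = 3 * (c * B) := by ring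
  obtain ⟨d, hd⟩ : ∃ d, d = 2 ^ (c * (B + 2)) := ⟨_, rfl⟩
  have hd1 : 1 ≤ d := by rw [hd]; exact Nat.one_le_two_pow
  have hd2 : 2 ≤ d := by
    rw [hd]
    calc 2 = 2 ^ 1 := by norm_num
      _ ≤ 2 ^ (c * (B + 2)) := Nat.pow_le_pow_right (by norm_num) (by omega)
  have hdb : d * 2 ^ b = 2 ^ (2 * c * B + 2 * c - 1) := by
    rw [hd, ← pow_add]
    congr 1
    omega
  have hBN : B * 2 ^ ν = d * 2 ^ b := by
    rw [hdb]
    conv_lhs => rw [hBdef]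
    rw [← pow_add]
    congr 1
    omega
  have hNle : 2 ^ ν ≤ d * 2 ^ b := by
    rw [← hBN]
    exact Nat.le_mul_of_pos_left _ hBpos
  -- the field
  have hcard : Nat.card (GaloisField 2 e) = 2 ^ e := GaloisField.card 2 e (by omega)
  let _ : Fintype (GaloisField 2 e) := Fintype.ofFinite _
  have hcard' : Fintype.card (GaloisField 2 e) = 2 ^ e := by
    rw [← hcard, Nat.card_eq_fintype_card]
  have hB : B < 2 * 2 ^ b - 1 := by
    rw [h2b]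
    have h1 : 2 ^ (2 * B) ≤ 2 ^ (c * B) := Nat.pow_le_pow_right (by norm_num) hcB
    have h2 : B < 2 ^ B := Nat.lt_two_pow_self
    have h3 : 2 ^ (2 * B) = 2 ^ B * 2 ^ B := by rw [← pow_add]; congr 1; ring
    have h4 : 2 * 2 ^ B ≤ 2 ^ B * 2 ^ B := by
      apply Nat.mul_le_mul_right
      calc 2 = 2 ^ 1 := by norm_num
        _ ≤ 2 ^ B := Nat.pow_le_pow_right (by norm_num) hBpos
    omega
  have hn : 2 ^ ν * (2 * 2 ^ b - 1) ^ (B + 1) < d ^ (B + 1) := by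
    have h1 : (2 * 2 ^ b - 1) ^ (B + 1) ≤ (2 ^ (c * B)) ^ (B + 1) := by
      apply Nat.pow_le_pow_left
      rw [h2b]; omega
    have h2 : d ^ (B + 1) = (2 ^ (2 * c)) ^ (B + 1) * (2 ^ (c * B)) ^ (B + 1) := by
      rw [hd, ← mul_pow, ← pow_add]
      congr 2
      omega
    have h3 : 2 ^ ν < (2 ^ (2 * c)) ^ (B + 1) := by
      rw [← pow_mul]
      apply Nat.pow_lt_pow_right (by norm_num)
      have : 2 * c * (B + 1) = 2 * c * B + 2 * c := by ring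
      omega
    calc 2 ^ ν * (2 * 2 ^ b - 1) ^ (B + 1) ≤ 2 ^ ν * (2 ^ (c * B)) ^ (B + 1) :=
          Nat.mul_le_mul_left _ h1
      _ < (2 ^ (2 * c)) ^ (B + 1) * (2 ^ (c * B)) ^ (B + 1) :=
          Nat.mul_lt_mul_of_pos_right h3 (by positivity)
      _ = d ^ (B + 1) := h2.symm
  have hq : 16 * 2 ^ ν * 2 ^ b ≤ Fintype.card (GaloisField 2 e) := by
    rw [hcard']
    have : 16 * 2 ^ ν * 2 ^ b = 2 ^ (4 + ν + b) := by
      rw [pow_add, pow_add]; norm_num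
    rw [this]
    apply Nat.pow_le_pow_right (by norm_num)
    omega
  have hq2 : d * 2 ^ b + 2 ^ ν < Fintype.card (GaloisField 2 e) := by
    rw [hcard']
    have h1 : d * 2 ^ b + 2 ^ ν ≤ 2 ^ (2 * c * B + 2 * c - 1) * 2 := by
      rw [hdb] at hNle ⊢
      omega
    have h2 : 2 ^ (2 * c * B + 2 * c - 1) * 2 = 2 ^ (2 * c * B + 2 * c) := by
      rw [← pow_succ]
      congr 1
      omega
    have h3 : 2 ^ (2 * c * B + 2 * c) < 2 ^ e :=
      Nat.pow_lt_pow_right (by norm_num) (by omega)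
    omega
  obtain ⟨t, r, hr0, hrt, ht3, htc, A, H, h⟩ :=
    field_gadget (GaloisField 2 e) (K := 2 * d) (N := 2 ^ ν) (n := d) (d := d) (b := b)
      (B := B) hd2 hB hBpos hn (by omega) hBN.le Nat.one_le_two_pow hq hq2
  obtain ⟨g⟩ := xorGadget_of_field hcard' A H h
  refine ⟨r, 2 ^ ν * e, 2 * d * e, t * e, g, hr0, by positivity, ?_, ?_, ?_, ?_, ?_⟩
  · exact hrt.trans (Nat.le_mul_of_pos_right _ he1)
  · rw [hd, pow_succ]; ring
  · have h1 : 2 ^ ν * e * B * 2 = (B * 2 ^ ν) * 2 * e := by ring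
    rw [h1, hBN, ← hd, ← h2b]
    ring
  · have h1 : t ≤ 2 ^ ((2 * c * B + 2 * c - 1) * d) := by
      calc t ≤ (d * 2 ^ b).choose d := htc
        _ ≤ (d * 2 ^ b) ^ d := Nat.choose_le_pow _ _
        _ = 2 ^ ((2 * c * B + 2 * c - 1) * d) := by rw [hdb, ← pow_mul]
    have h2 : e ≤ 2 ^ (3 * c * (B + 2)) := by
      have h3 : e < 2 ^ e := Nat.lt_two_pow_self
      have h4 : 2 ^ e ≤ 2 ^ (3 * c * (B + 2)) := by
        apply Nat.pow_le_pow_right (by norm_num)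
        have : 3 * c * (B + 2) = 3 * (c * B) + 6 * c := by ring
        omega
      omega
    calc t * e ≤ 2 ^ ((2 * c * B + 2 * c - 1) * d) * 2 ^ (3 * c * (B + 2)) :=
          Nat.mul_le_mul h1 h2
      _ = 2 ^ ((2 * c * B + 2 * c - 1) * d + 3 * c * (B + 2)) := by rw [← pow_add]
      _ ≤ _ := by
          apply Nat.pow_le_pow_right (by norm_num)
          rw [← hd]
          apply Nat.add_le_add_right
          rw [mul_comm]
          apply Nat.mul_le_mul_left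
          have : 2 * c * (B + 2) = 2 * (c * B) + 4 * c := by ring
          omega
  · have h1 : r * (2 ^ ν * e) * (12 * B * e) = (3 * r) * (e * e) * (2 * ((B * 2 ^ ν) * 2)) := by
      ring
    rw [h1, hBN, ← h2b]
    have h2 : t * e * (2 * d * e) * (2 * 2 ^ b) = t * (e * e) * (2 * (d * 2 ^ b * 2)) := by ring
    rw [h2]
    exact Nat.mul_le_mul_right _ (Nat.mul_le_mul_right _ ht3)

end Pool.Agent.OMV
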